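import Pool.Agent.Lib_MP_7c0803_co.Defs

/-!
# Piece BIJ: number of permutations which transport one labelling to another one

Proof.  If the fibres of `f` and `f'` have different sizes there is no such `Φ` (it restricts to
bijections of the fibres).  If they have the same sizes choose one `Φ₀` with `f' ∘ Φ₀ = f`
(glue bijections of the fibres, `Equiv.sigmaFiberEquiv`); then `Φ ↦ Φ₀⁻¹ * Φ` is a bijection to
`{g : Perm β | f ∘ g = f}`, whose cardinality is the product of the factorials
(`DomMulAct.stabilizer_card` or `DomMulAct.stabilizer_card'`).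
-/

open Finset Equiv Equiv.Perm

namespace Pool.Agent.MP_7c0803

theorem card_perm_comp {β ι : Type*} [Fintype β] [DecidableEq β] [Fintype ι] [DecidableEq ι]
    (f f' : β → ι) :
    (univ.filter fun Φ : Perm β => ∀ e, f' (Φ e) = f e).card =
      if (∀ c, (univ.filter fun e => f e = c).card = (univ.filter fun e => f' e = c).card) then
        ∏ c, ((univ.filter fun e => f e = c).card).factorial
      else 0 := by
  by_cases h : ∀ c, (univ.filter fun e => f e = c).card = (univ.filter fun e => f' e = c).card
  · rw [if_pos h]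
    -- a transporting permutation
    have h1 : ∀ c, Nonempty ({e // f e = c} ≃ {e // f' e = c}) := by
      intro c
      rw [← Fintype.card_eq, Fintype.card_subtype, Fintype.card_subtype]
      exact h c
    let E : ∀ c, {e // f e = c} ≃ {e // f' e = c} := fun c => (h1 c).some
    let Φ₀ : Perm β := (Equiv.sigmaFiberEquiv f).symm.trans
      ((Equiv.sigmaCongrRight E).trans (Equiv.sigmaFiberEquiv f'))
    have hΦ : ∀ e, f' (Φ₀ e) = f e := fun e => (E (f e) ⟨e, rfl⟩).2
    have h2 := DomMulAct.stabilizer_card f
    rw [Fintype.card_subtype] at h2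
    simp only [Fintype.card_subtype] at h2
    rw [← h2]
    refine Finset.card_bij (fun Φ _ => Φ₀⁻¹ * Φ) ?_ ?_ ?_
    · intro Φ hΦ1
      rw [mem_filter] at hΦ1 ⊢
      refine ⟨mem_univ _, funext fun e => ?_⟩
      have h3 := hΦ (Φ₀⁻¹ (Φ e))
      rw [← hΦ1.2 e]
      simp only [Function.comp_apply, Perm.mul_apply]
      rw [← h3]; exact congrArg f' (Φ₀.apply_symm_apply _)
    · intro a _ b _ hab
      exact mul_left_cancel hab
    · intro g hg
      rw [mem_filter] at hg
      refine ⟨Φ₀ * g, ?_, by simp⟩
      rw [mem_filter]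
      refine ⟨mem_univ _, fun e => ?_⟩
      rw [Perm.mul_apply, hΦ]
      exact congrFun hg.2 e
  · rw [if_neg h, card_eq_zero, filter_eq_empty_iff]
    intro Φ _ hΦ
    apply h
    intro c
    refine Finset.card_bij (fun e _ => Φ e) ?_ ?_ ?_
    · intro e he
      rw [mem_filter] at he ⊢
      exact ⟨mem_univ _, (hΦ e).trans he.2⟩
    · intro a _ b _ hab
      exact Φ.injective hab
    · intro e he
      rw [mem_filter] at he
      refine ⟨Φ⁻¹ e, ?_, by simp⟩
      rw [mem_filter]
      refine ⟨mem_univ _, ?_⟩
      rw [← hΦ]; refine (congrArg f' (Φ.apply_symm_apply _)).trans ?_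
      exact he.2

end Pool.Agent.MP_7c0803
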