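import Pool.Agent.Lib_MP_7c0803_co.Defs

/-!
# Piece CAY: the Fischer norm of a power of the generic `3 × 3` determinant (Cayley identity)

Proof.  All polynomials have variables `x_(ij)`, `i j : Fin 3`, and integer coefficients.
(1) `fis` is bilinear (extend the sum over `p.support` to a sum over any finset containing it), and
`fis (X x * p) q = fis p (pderiv x q)`: both sides are `∑ n, (fct n) (n x + 1) p_n q_(n + e_x)`
(`coeff (n + single x 1) (X x * p) = coeff n p`, `coeff n (pderiv x q) = (n x + 1) q_(n + e_x)`,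
`fct (n + single x 1) = (n x + 1) fct n`).
(2) Hence `fis (Del * p) q = fis p (dd q)` with
`dd q = ∑ τ, sign τ • pderiv (0, τ 0) (pderiv (1, τ 1) (pderiv (2, τ 2) q))`.
(3) Cayley: `dd (Del ^ (m + 1)) = (m + 1) (m + 2) (m + 3) Del ^ m`.  Write `C_(ij) = pderiv (i,j) Del`
(the cofactors).  For `m = 0` direct computation (`dd Del = 6`).  For `m + 2`:
first `pderiv x (Del ^ (m+2)) = (m+2) Del ^ (m+1) C_x`.  For a `2 × 2` minor of derivatives in the rows
1, 2 and the columns `b, c` (and `a` the third column, cyclic order)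
`(∂_(1b) ∂_(2c) - ∂_(1c) ∂_(2b)) Del ^ (m+2) = (m+2) (m+3) Del ^ (m+1) x_(0a)`
because `C_(1b) C_(2c) - C_(1c) C_(2b) = Del x_(0a)` and `∂_(1b) C_(2c) = x_(0a)`,
`∂_(1c) C_(2b) = - x_(0a)`.
Finally `∑_a ∂_(0a) (Del ^ (m+1) x_(0a)) = 3 Del ^ (m+1) + (m+1) Del ^ m ∑_a C_(0a) x_(0a) =
(m + 4) Del ^ (m+1)`.  (Everything is checked by `ring` after unfolding `Del` by
`Matrix.det_fin_three`.)
(4) `fis (Del ^ (m+1)) (Del ^ (m+1)) = fis (Del ^ m) (dd (Del ^ (m+1))) =
(m+1) (m+2) (m+3) fis (Del ^ m) (Del ^ m)` and `fis 1 1 = 1`.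
-/

open Finset Equiv Equiv.Perm

namespace Pool.Agent.MP_7c0803

open MvPolynomial in
theorem fis_of_subset {p q : MvPolynomial (Fin 3 × Fin 3) ℤ} {s : Finset (Fin 3 × Fin 3 →₀ ℕ)}
    (hs : p.support ⊆ s) : fis p q = ∑ m ∈ s, (fct m : ℤ) * (p.coeff m * q.coeff m) := by
  unfold fis
  refine Finset.sum_subset hs fun m _ hm => ?_
  rw [notMem_support_iff.1 hm, zero_mul, mul_zero]

open MvPolynomial in
theorem fis_add_left (p p' q : MvPolynomial (Fin 3 × Fin 3) ℤ) :
    fis (p + p') q = fis p q + fis p' q := by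
  classical
  rw [fis_of_subset (s := p.support ∪ p'.support) support_add,
    fis_of_subset (p := p) (s := p.support ∪ p'.support) Finset.subset_union_left,
    fis_of_subset (p := p') (s := p.support ∪ p'.support) Finset.subset_union_right,
    ← Finset.sum_add_distrib]
  refine Finset.sum_congr rfl fun m _ => ?_
  rw [coeff_add]
  ring

open MvPolynomial in
theorem fis_neg_left (p q : MvPolynomial (Fin 3 × Fin 3) ℤ) : fis (-p) q = -fis p q := by
  unfold fis
  rw [support_neg, ← Finset.sum_neg_distrib]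
  refine Finset.sum_congr rfl fun m _ => ?_
  rw [coeff_neg]
  ring

theorem fis_sub_left (p p' q : MvPolynomial (Fin 3 × Fin 3) ℤ) :
    fis (p - p') q = fis p q - fis p' q := by
  rw [sub_eq_add_neg, fis_add_left, fis_neg_left, ← sub_eq_add_neg]

open MvPolynomial in
theorem fis_add_right (p q q' : MvPolynomial (Fin 3 × Fin 3) ℤ) :
    fis p (q + q') = fis p q + fis p q' := by
  unfold fis
  rw [← Finset.sum_add_distrib]
  refine Finset.sum_congr rfl fun m _ => ?_
  rw [coeff_add]
  ring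

open MvPolynomial in
theorem fis_neg_right (p q : MvPolynomial (Fin 3 × Fin 3) ℤ) : fis p (-q) = -fis p q := by
  unfold fis
  rw [← Finset.sum_neg_distrib]
  refine Finset.sum_congr rfl fun m _ => ?_
  rw [coeff_neg]
  ring

theorem fis_sub_right (p q q' : MvPolynomial (Fin 3 × Fin 3) ℤ) :
    fis p (q - q') = fis p q - fis p q' := by
  rw [sub_eq_add_neg, fis_add_right, fis_neg_right, ← sub_eq_add_neg]

open MvPolynomial in
theorem fis_C_mul_right (a : ℤ) (p q : MvPolynomial (Fin 3 × Fin 3) ℤ) :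
    fis p (C a * q) = a * fis p q := by
  unfold fis
  rw [Finset.mul_sum]
  refine Finset.sum_congr rfl fun m _ => ?_
  rw [coeff_C_mul]
  ring

theorem fct_add_single (x : Fin 3 × Fin 3) (n : Fin 3 × Fin 3 →₀ ℕ) :
    fct (Finsupp.single x 1 + n) = (n x + 1) * fct n := by
  classical
  unfold fct
  rw [← Finset.mul_prod_erase _ _ (Finset.mem_univ x),
    ← Finset.mul_prod_erase Finset.univ (fun y => (n y).factorial) (Finset.mem_univ x),
    Finsupp.add_apply, Finsupp.single_eq_same, add_comm 1 (n x), Nat.factorial_succ, mul_assoc]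
  congr 2
  refine Finset.prod_congr rfl fun y hy => ?_
  rw [Finsupp.add_apply, Finsupp.single_eq_of_ne (Finset.ne_of_mem_erase hy), zero_add]

open MvPolynomial in
/-- multiplication by a variable is adjoint to the derivative -/
theorem fis_X_mul (x : Fin 3 × Fin 3) (p q : MvPolynomial (Fin 3 × Fin 3) ℤ) :
    fis (X x * p) q = fis p (pderiv x q) := by
  unfold fis
  rw [support_X_mul, Finset.sum_map]
  refine Finset.sum_congr rfl fun m _ => ?_
  rw [addLeftEmbedding_apply, coeff_X_mul, coeff_pderiv, fct_add_single,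
    add_comm (Finsupp.single x 1) m]
  push_cast
  ring

open MvPolynomial in
/-- the Cayley operator -/
noncomputable def cay (q : MvPolynomial (Fin 3 × Fin 3) ℤ) : MvPolynomial (Fin 3 × Fin 3) ℤ :=
  pderiv (2, 2) (pderiv (1, 1) (pderiv (0, 0) q) - pderiv (1, 0) (pderiv (0, 1) q)) +
  pderiv (2, 1) (pderiv (1, 0) (pderiv (0, 2) q) - pderiv (1, 2) (pderiv (0, 0) q)) +
  pderiv (2, 0) (pderiv (1, 2) (pderiv (0, 1) q) - pderiv (1, 1) (pderiv (0, 2) q))

open MvPolynomial in
theorem Del_eq : Del =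
    X (0, 0) * (X (1, 1) * (X (2, 2) * 1)) - X (0, 1) * (X (1, 0) * (X (2, 2) * 1)) +
    (X (0, 2) * (X (1, 0) * (X (2, 1) * 1)) - X (0, 0) * (X (1, 2) * (X (2, 1) * 1))) +
    (X (0, 1) * (X (1, 2) * (X (2, 0) * 1)) - X (0, 2) * (X (1, 1) * (X (2, 0) * 1))) := by
  unfold Del
  rw [Matrix.det_fin_three]
  simp only [Matrix.of_apply]
  ring

open MvPolynomial in
theorem Del_mul (p : MvPolynomial (Fin 3 × Fin 3) ℤ) : Del * p =
    X (0, 0) * (X (1, 1) * (X (2, 2) * p)) - X (0, 1) * (X (1, 0) * (X (2, 2) * p)) +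
    (X (0, 2) * (X (1, 0) * (X (2, 1) * p)) - X (0, 0) * (X (1, 2) * (X (2, 1) * p))) +
    (X (0, 1) * (X (1, 2) * (X (2, 0) * p)) - X (0, 2) * (X (1, 1) * (X (2, 0) * p))) := by
  rw [Del_eq]
  ring

theorem fis_Del_mul (p q : MvPolynomial (Fin 3 × Fin 3) ℤ) : fis (Del * p) q = fis p (cay q) := by
  rw [Del_mul, cay, map_sub, map_sub, map_sub, fis_add_right, fis_add_right, fis_sub_right,
    fis_sub_right, fis_sub_right, fis_add_left, fis_add_left, fis_sub_left, fis_sub_left,
    fis_sub_left]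
  simp only [fis_X_mul]

section cofactors

open MvPolynomial

private theorem D00 : pderiv (0, 0) Del = X (1, 1) * X (2, 2) - X (1, 2) * X (2, 1) := by
  rw [Del_eq]
  simp [pderiv_X, Derivation.leibniz]
  try ring

private theorem D01 : pderiv (0, 1) Del = -(X (1, 0) * X (2, 2) - X (1, 2) * X (2, 0)) := by
  rw [Del_eq]
  simp [pderiv_X, Derivation.leibniz]
  try ring

private theorem D02 : pderiv (0, 2) Del = X (1, 0) * X (2, 1) - X (1, 1) * X (2, 0) := by
  rw [Del_eq]
  simp [pderiv_X, Derivation.leibniz]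
  try ring

private theorem D10 : pderiv (1, 0) Del = -(X (0, 1) * X (2, 2) - X (0, 2) * X (2, 1)) := by
  rw [Del_eq]
  simp [pderiv_X, Derivation.leibniz]
  try ring

private theorem D11 : pderiv (1, 1) Del = X (0, 0) * X (2, 2) - X (0, 2) * X (2, 0) := by
  rw [Del_eq]
  simp [pderiv_X, Derivation.leibniz]
  try ring

private theorem D12 : pderiv (1, 2) Del = -(X (0, 0) * X (2, 1) - X (0, 1) * X (2, 0)) := by
  rw [Del_eq]
  simp [pderiv_X, Derivation.leibniz]
  try ring

private theorem D20 : pderiv (2, 0) Del = X (0, 1) * X (1, 2) - X (0, 2) * X (1, 1) := by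
  rw [Del_eq]
  simp [pderiv_X, Derivation.leibniz]
  try ring

private theorem D21 : pderiv (2, 1) Del = -(X (0, 0) * X (1, 2) - X (0, 2) * X (1, 0)) := by
  rw [Del_eq]
  simp [pderiv_X, Derivation.leibniz]
  try ring

private theorem D22 : pderiv (2, 2) Del = X (0, 0) * X (1, 1) - X (0, 1) * X (1, 0) := by
  rw [Del_eq]
  simp [pderiv_X, Derivation.leibniz]
  try ring

private theorem pd_mul (x : Fin 3 × Fin 3) (n k : ℕ) (F : MvPolynomial (Fin 3 × Fin 3) ℤ) :
    pderiv x ((n : MvPolynomial (Fin 3 × Fin 3) ℤ) * Del ^ (k + 1) * F) =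
      n * (((k : MvPolynomial (Fin 3 × Fin 3) ℤ) + 1) * Del ^ k * pderiv x Del * F +
        Del ^ (k + 1) * pderiv x F) := by
  rw [pderiv_mul, pderiv_mul, pderiv_pow, Nat.add_sub_cancel, Derivation.map_natCast]
  push_cast
  ring

/-- the inner minors of derivatives of a power -/
private theorem inner2 (k : ℕ) :
    pderiv (1, 1) (pderiv (0, 0) (Del ^ (k + 1))) -
      pderiv (1, 0) (pderiv (0, 1) (Del ^ (k + 1))) =
      C (((k : ℤ) + 1) * (k + 2)) * (Del ^ k * X (2, 2)) := by
  rw [pderiv_pow, pderiv_pow, Nat.add_sub_cancel, D00, D01]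
  cases k with
  | zero =>
    simp [pderiv_X, Derivation.leibniz]
    ring
  | succ k =>
    rw [pd_mul, pd_mul, D11, D10]
    have h := Del_eq
    simp [pderiv_X, Derivation.leibniz]
    linear_combination (-(((k : MvPolynomial (Fin 3 × Fin 3) ℤ) + 2) * (k + 1) * Del ^ k * X (2, 2))) * h

/-- the inner minors of derivatives of a power -/
private theorem inner1 (k : ℕ) :
    pderiv (1, 0) (pderiv (0, 2) (Del ^ (k + 1))) -
      pderiv (1, 2) (pderiv (0, 0) (Del ^ (k + 1))) =
      C (((k : ℤ) + 1) * (k + 2)) * (Del ^ k * X (2, 1)) := by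
  rw [pderiv_pow, pderiv_pow, Nat.add_sub_cancel, D02, D00]
  cases k with
  | zero =>
    simp [pderiv_X, Derivation.leibniz]
    ring
  | succ k =>
    rw [pd_mul, pd_mul, D10, D12]
    have h := Del_eq
    simp [pderiv_X, Derivation.leibniz]
    linear_combination (-(((k : MvPolynomial (Fin 3 × Fin 3) ℤ) + 2) * (k + 1) * Del ^ k * X (2, 1))) * h

/-- the inner minors of derivatives of a power -/
private theorem inner0 (k : ℕ) :
    pderiv (1, 2) (pderiv (0, 1) (Del ^ (k + 1))) -
      pderiv (1, 1) (pderiv (0, 2) (Del ^ (k + 1))) =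
      C (((k : ℤ) + 1) * (k + 2)) * (Del ^ k * X (2, 0)) := by
  rw [pderiv_pow, pderiv_pow, Nat.add_sub_cancel, D01, D02]
  cases k with
  | zero =>
    simp [pderiv_X, Derivation.leibniz]
    ring
  | succ k =>
    rw [pd_mul, pd_mul, D12, D11]
    have h := Del_eq
    simp [pderiv_X, Derivation.leibniz]
    linear_combination (-(((k : MvPolynomial (Fin 3 × Fin 3) ℤ) + 2) * (k + 1) * Del ^ k * X (2, 0))) * h

/-- the Cayley identity -/
theorem cay_pow (k : ℕ) :
    cay (Del ^ (k + 1)) = C (((k : ℤ) + 1) * (k + 2) * (k + 3)) * Del ^ k := by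
  rw [cay, inner2, inner1, inner0, pderiv_C_mul, pderiv_C_mul, pderiv_C_mul]
  have key : pderiv (2, 2) (Del ^ k * X (2, 2)) + pderiv (2, 1) (Del ^ k * X (2, 1)) +
      pderiv (2, 0) (Del ^ k * X (2, 0)) = ((k : MvPolynomial (Fin 3 × Fin 3) ℤ) + 3) * Del ^ k := by
    rw [pderiv_mul, pderiv_mul, pderiv_mul, pderiv_X_self, pderiv_X_self, pderiv_X_self, pderiv_pow,
      pderiv_pow, pderiv_pow]
    cases k with
    | zero => simp; norm_num
    | succ k =>
      rw [Nat.add_sub_cancel, D22, D21, D20]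
      have h := Del_eq
      push_cast
      linear_combination (-(((k : MvPolynomial (Fin 3 × Fin 3) ℤ) + 1) * Del ^ k)) * h
  rw [← mul_add, ← mul_add, key]
  simp only [map_mul, map_add, map_natCast, map_one, map_ofNat]
  ring

end cofactors

theorem fis_Del_pow (m : ℕ) : fis (Del ^ m) (Del ^ m) = (PP m : ℤ) := by
  induction m with
  | zero =>
    have h : fis (1 : MvPolynomial (Fin 3 × Fin 3) ℤ) 1 = 1 := by
      unfold fis
      rw [MvPolynomial.support_one, Finset.sum_singleton]
      simp [fct]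
    rw [pow_zero, h]
    simp [PP]
  | succ k ih =>
    rw [pow_succ' Del k, fis_Del_mul, ← pow_succ' Del k, cay_pow, fis_C_mul_right, ih, PP, PP,
      Finset.prod_range_succ]
    push_cast
    ring

end Pool.Agent.MP_7c0803
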