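import Mathlib

/-!
# Signs of 3-edge-colourings of random cubic bipartite graphs: definitions

See `Blueprint.md`.  A cubic bipartite graph with parts `α`, `α` is a finset `F` of pairs
(row vertex, column vertex); a proper 3-edge-colouring is a triple `p` of permutations (the colour
classes, `p k i` is the column vertex joined to `i` by the edge of colour `k`).
-/

open Finset Equiv Equiv.Perm

namespace Pool.Agent.MP_7c0803

variable {α : Type*} [Fintype α] [DecidableEq α]

/-- `F` is the edge set of a simple cubic bipartite graph with parts `α`, `α`. -/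
def IsCub (F : Finset (α × α)) : Prop :=
  (∀ i, (F.filter fun e => e.1 = i).card = 3) ∧ ∀ j, (F.filter fun e => e.2 = j).card = 3

instance : DecidablePred (IsCub : Finset (α × α) → Prop) := fun F => by
  unfold IsCub; infer_instance

variable (α) in
/-- All labelled simple cubic bipartite graphs with parts `α`, `α`. -/
def cubs : Finset (Finset (α × α)) := univ.filter IsCub

/-- The proper 3-edge-colourings of `F`: triples of permutations whose graphs cover `F`
(if `F` is cubic they are pairwise disjoint). -/
def Col (F : Finset (α × α)) : Finset (Fin 3 → Perm α) :=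
  univ.filter fun p => ∀ i j, (i, j) ∈ F ↔ ∃ k, p k i = j

/-- The sign of a 3-edge-colouring. -/
def sg (p : Fin 3 → Perm α) : ℤ := ∏ k, ((sign (p k) : ℤˣ) : ℤ)

/-- The signed number of 3-edge-colourings. -/
def DD (F : Finset (α × α)) : ℤ := ∑ p ∈ Col F, sg p

/-- The product of the signs of a family of permutations of the three colours. -/
def ep (h : α → Perm (Fin 3)) : ℤ := ∏ v, ((sign (h v) : ℤˣ) : ℤ)

/-- The bijection `Φ` from the half-edges at row vertices to the half-edges at column vertices is a
cubic bipartite multigraph; `h`, `h'` are the colours of the half-edges at rows and at columns.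
They form a proper 3-edge-colouring if they agree along `Φ`. -/
def Cons (Φ : Perm (α × Fin 3)) (h h' : α → Perm (Fin 3)) : Prop :=
  ∀ e : α × Fin 3, h' (Φ e).1 (Φ e).2 = h e.1 e.2

instance (Φ : Perm (α × Fin 3)) (h h' : α → Perm (Fin 3)) : Decidable (Cons Φ h h') := by
  unfold Cons; infer_instance

/-- The signed number of 3-edge-colourings of a configuration. -/
def Dc (Φ : Perm (α × Fin 3)) : ℤ :=
  ∑ h : α → Perm (Fin 3), ∑ h' : α → Perm (Fin 3), if Cons Φ h h' then ep h * ep h' else 0

/-- `PP m = m! (m+1)! (m+2)! / 2`. -/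
def PP (m : ℕ) : ℕ := ∏ k ∈ range m, (k + 1) * (k + 2) * (k + 3)

/-- `∏ (m x)!` -/
def fct (m : Fin 3 × Fin 3 →₀ ℕ) : ℕ := ∏ x, (m x).factorial

/-- The Fischer product `∑ m! p_m q_m`. -/
noncomputable def fis (p q : MvPolynomial (Fin 3 × Fin 3) ℤ) : ℤ :=
  ∑ m ∈ p.support, (fct m : ℤ) * (p.coeff m * q.coeff m)

/-- The generic `3 × 3` determinant. -/
noncomputable def Del : MvPolynomial (Fin 3 × Fin 3) ℤ :=
  Matrix.det (Matrix.of fun i j => MvPolynomial.X (i, j))

/-- The permanent (number of perfect matchings of a bipartite multigraph). -/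
def per (A : α → α → ℕ) : ℕ := ∑ σ : Perm α, ∏ i, A i (σ i)

end Pool.Agent.MP_7c0803
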