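import Pool.Agent.Lib_MP_7c0803_co.GDefs

/-!
# Piece EXI: cubic bipartite graphs of large girth

Proof.  Let `L = g + N0 + 1` and let `T` be the finite type of all lists `l : List (Fin 3)` of length `≤ L` without
two equal adjacent entries (`List.IsChain (· ≠ ·) l`).  For `k : Fin 3` let `t k : T → T` be
`t k [] = [k]`, `t k (a :: l) = l` if `a = k`, and `t k (a :: l) = k :: a :: l` if `a ≠ k` and the length is `< L`, and
`t k l = l` otherwise.  It is an involution, so `t k : Perm T`.
(*) For a list `k₁, ..., k_n` with `1 ≤ n ≤ L` and `k_i ≠ k_(i+1)`: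
`(t k₁ * ... * t k_n) [] = [k₁, ..., k_n] ≠ []` (induction).  In particular the `t k` are different, and `≠ 1`.
Let `β = Perm T` and `F = {(s, s * t k) | s : β, k : Fin 3}`.  `IsCub F` (the `t k` are three different elements).
Girth: let `p` be a walk in `gr F` of length `n` from `u` to `v`, `π u` the group element of a vertex (forget left
or right).  Each step multiplies `π` from the right by some `t k` (`t k` is an involution).
If `p` is a cycle of length `n < g` then
consecutive steps use different `k` (otherwise the walk would return along the same edge, but a cycle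
is a trail), so `π u = π u * (t k₁ * ... * t k_n)` with `k_i ≠ k_(i+1)`, so `t k₁ * ... * t k_n = 1`,
a contradiction to (*).
Finally `card β ≥ N0` (`T` has at least `L` elements, so `card (Perm T) = (card T)! ≥ N0`), and transport `F` to
`Fin n`, `n = card β`, along an equivalence (`egirth` is preserved by isomorphisms; only `≤` is needed, by
mapping cycles: `Walk.map`, `IsCycle.map`; `cub_map` in `Insert.lean`).
-/

open Finset Equiv Equiv.Perm SimpleGraph

namespace Pool.Agent.MP_7c0803

/-- reduced lists of length at most `L + 1` -/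
def exGood (L : ℕ) (l : List (Fin 3)) : Prop := l.IsChain (· ≠ ·) ∧ l.length ≤ L + 1

/-- multiplication of a reduced list by a letter -/
def exStep (L : ℕ) (k : Fin 3) : List (Fin 3) → List (Fin 3)
  | [] => [k]
  | a :: l => if a = k then l else if l.length < L then k :: a :: l else a :: l

theorem exStep_c (L : ℕ) (k a : Fin 3) (l : List (Fin 3)) : exStep L k (a :: l) =
    if a = k then l else if l.length < L then k :: a :: l else a :: l := rfl

theorem exStep_good {L : ℕ} {k : Fin 3} {l : List (Fin 3)} (h : exGood L l) : exGood L (exStep L k l) := by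
  cases l with
  | nil => exact ⟨List.isChain_singleton _, by simp [exStep]⟩
  | cons a l =>
    rw [exStep_c]
    obtain ⟨h1, h2⟩ := h
    rw [List.length_cons] at h2
    split_ifs with h3 h4
    · exact ⟨h1.tail, by omega⟩
    · refine ⟨List.isChain_cons.2 ⟨?_, h1⟩, ?_⟩
      · intro y hy
        simp only [List.head?_cons, Option.mem_def, Option.some.injEq] at hy
        rw [← hy]
        exact fun h => h3 h.symm
      · rw [List.length_cons, List.length_cons]
        omega
    · exact ⟨h1, by rw [List.length_cons]; exact h2⟩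

theorem exStep_cons {L : ℕ} {k : Fin 3} {l : List (Fin 3)} (h : exGood L (k :: l)) :
    exStep L k l = k :: l := by
  obtain ⟨h1, h2⟩ := h
  cases l with
  | nil => rfl
  | cons a l =>
    have h3 : a ≠ k := by
      intro hak
      have := (List.isChain_cons.1 h1).1 a (by simp)
      exact this hak.symm
    rw [List.length_cons, List.length_cons] at h2
    rw [exStep_c, if_neg h3, if_pos (by omega)]

theorem exStep_inv {L : ℕ} {k : Fin 3} {l : List (Fin 3)} (h : exGood L l) :
    exStep L k (exStep L k l) = l := by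
  cases l with
  | nil => simp [exStep]
  | cons a l =>
    by_cases h1 : a = k
    · subst h1
      have h2 : exStep L a (a :: l) = l := by
        rw [exStep_c, if_pos rfl]
      rw [h2]
      exact exStep_cons h
    · by_cases h2 : l.length < L
      · have h3 : exStep L k (a :: l) = k :: a :: l := by
          rw [exStep_c, if_neg h1, if_pos h2]
        rw [h3, exStep_c, if_pos rfl]
      · have h3 : exStep L k (a :: l) = a :: l := by
          rw [exStep_c, if_neg h1, if_neg h2]
        rw [h3, h3]

/-- the finite tree -/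
def ExT (L : ℕ) : Type := {l : List (Fin 3) // exGood L l}

instance (L : ℕ) : Finite (ExT L) :=
  ((List.finite_length_le (Fin 3) (L + 1)).subset (t := {l | exGood L l}) fun _ h => h.2).to_subtype

noncomputable instance (L : ℕ) : Fintype (ExT L) := Fintype.ofFinite _

noncomputable instance (L : ℕ) : DecidableEq (ExT L) := Classical.decEq _

/-- the three involutions -/
def exP (L : ℕ) (k : Fin 3) : Perm (ExT L) :=
  Function.Involutive.toPerm (fun l => ⟨exStep L k l.1, exStep_good l.2⟩) fun l =>
    Subtype.ext (exStep_inv l.2)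

theorem exP_apply (L : ℕ) (k : Fin 3) (l : ExT L) : (exP L k l).1 = exStep L k l.1 := rfl

theorem exP_mul_self (L : ℕ) (k : Fin 3) : exP L k * exP L k = 1 := by
  ext l
  apply Subtype.ext
  exact exStep_inv l.2

/-- the root -/
def exNil (L : ℕ) : ExT L := ⟨[], List.isChain_nil, by simp⟩

theorem ex_word (L : ℕ) (w : List (Fin 3)) (hw : exGood L w) :
    ((w.map (exP L)).prod (exNil L)).1 = w := by
  induction w with
  | nil => rfl
  | cons k w ih =>
    rw [List.map_cons, List.prod_cons, Perm.mul_apply, exP_apply, ih ⟨hw.1.tail, ?_⟩]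
    · exact exStep_cons hw
    · have := hw.2
      rw [List.length_cons] at this
      omega

theorem exP_injective (L : ℕ) : Function.Injective (exP L) := by
  intro k k' h
  have h1 := congrArg Subtype.val (congrArg (fun f : Perm (ExT L) => f (exNil L)) h)
  simp only [exP_apply] at h1
  have h2 : [k] = [k'] := h1
  simpa using h2

open Classical in
/-- the graph -/
noncomputable def exF (L : ℕ) : Finset (Perm (ExT L) × Perm (ExT L)) :=
  univ.filter fun e => ∃ k, e.2 = e.1 * exP L k

theorem mem_exF {L : ℕ} {i j : Perm (ExT L)} : (i, j) ∈ exF L ↔ ∃ k, j = i * exP L k := by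
  unfold exF
  rw [mem_filter]
  simp

theorem exF_cub (L : ℕ) : IsCub (exF L) := by
  constructor
  · intro i
    have h1 : ((exF L).filter fun e => e.1 = i) = univ.image fun k => (i, i * exP L k) := by
      ext ⟨a, b⟩
      rw [mem_filter, mem_exF, mem_image]
      simp only [mem_univ, true_and, Prod.mk.injEq]
      constructor
      · rintro ⟨⟨k, hk⟩, h⟩
        subst h
        exact ⟨k, rfl, hk.symm⟩
      · rintro ⟨k, h, hk⟩
        subst h
        exact ⟨⟨k, hk.symm⟩, rfl⟩
    rw [h1, card_image_of_injective, card_univ, Fintype.card_fin]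
    intro k k' h
    simp only [Prod.mk.injEq, true_and] at h
    exact exP_injective L (mul_left_cancel h)
  · intro j
    have h1 : ((exF L).filter fun e => e.2 = j) = univ.image fun k => (j * exP L k, j) := by
      ext ⟨a, b⟩
      rw [mem_filter, mem_exF, mem_image]
      simp only [mem_univ, true_and, Prod.mk.injEq]
      constructor
      · rintro ⟨⟨k, hk⟩, h⟩
        subst h
        exact ⟨k, by rw [hk, mul_assoc, exP_mul_self, mul_one], rfl⟩
      · rintro ⟨k, hk, h⟩
        subst h
        exact ⟨⟨k, by rw [← hk, mul_assoc, exP_mul_self, mul_one]⟩, rfl⟩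
    rw [h1, card_image_of_injective, card_univ, Fintype.card_fin]
    intro k k' h
    simp only [Prod.mk.injEq, and_true] at h
    exact exP_injective L (mul_left_cancel h)

/-- the neighbours -/
def exN (L : ℕ) (u : Perm (ExT L) ⊕ Perm (ExT L)) (k : Fin 3) : Perm (ExT L) ⊕ Perm (ExT L) :=
  Sum.elim (fun s => Sum.inr (s * exP L k)) (fun s => Sum.inl (s * exP L k)) u

/-- the group element of a vertex -/
def exPi (L : ℕ) (u : Perm (ExT L) ⊕ Perm (ExT L)) : Perm (ExT L) := Sum.elim id id u

theorem exN_exN (L : ℕ) (u : Perm (ExT L) ⊕ Perm (ExT L)) (k : Fin 3) : exN L (exN L u k) k = u := by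
  rcases u with s | s <;> simp only [exN, Sum.elim_inl, Sum.elim_inr, mul_assoc, exP_mul_self, mul_one]

theorem exPi_exN (L : ℕ) (u : Perm (ExT L) ⊕ Perm (ExT L)) (k : Fin 3) :
    exPi L (exN L u k) = exPi L u * exP L k := by
  rcases u with s | s <;> rfl

theorem ex_adj {L : ℕ} {u v : Perm (ExT L) ⊕ Perm (ExT L)} (h : (gr (exF L)).Adj u v) :
    ∃ k, v = exN L u k := by
  obtain ⟨i, j, hij, ⟨h1, h2⟩ | ⟨h1, h2⟩⟩ := h
  · obtain ⟨k, hk⟩ := mem_exF.1 hij
    subst h1 h2 hk
    exact ⟨k, rfl⟩
  · obtain ⟨k, hk⟩ := mem_exF.1 hij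
    subst h1 h2 hk
    exact ⟨k, by simp only [exN, Sum.elim_inr, mul_assoc, exP_mul_self, mul_one]⟩

theorem ex_walk {L : ℕ} {u v : Perm (ExT L) ⊕ Perm (ExT L)} (p : (gr (exF L)).Walk u v) :
    p.IsTrail → ∃ l : List (Fin 3), l.length = p.length ∧ l.IsChain (· ≠ ·) ∧
      exPi L v = exPi L u * (l.map (exP L)).prod ∧ ∀ k l', l = k :: l' → s(u, exN L u k) ∈ p.edges := by
  induction p with
  | nil =>
    intro _
    exact ⟨[], rfl, List.isChain_nil, by simp, by simp⟩
  | cons h q ih =>
    intro ht
    rw [Walk.isTrail_cons] at ht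
    obtain ⟨l', h1, h2, h3, h4⟩ := ih ht.1
    obtain ⟨k, hk⟩ := ex_adj h
    subst hk
    refine ⟨k :: l', ?_, ?_, ?_, ?_⟩
    · rw [List.length_cons, Walk.length_cons, h1]
    · rw [List.isChain_cons]
      refine ⟨?_, h2⟩
      rintro y hy rfl
      obtain ⟨l'', hl⟩ : ∃ l'', l' = k :: l'' := by
        cases l' with
        | nil => simp at hy
        | cons b l'' =>
          simp only [List.head?_cons, Option.mem_def, Option.some.injEq] at hy
          exact ⟨l'', by rw [hy]⟩
      have h5 := h4 k l'' hl
      rw [exN_exN, Sym2.eq_swap] at h5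
      exact ht.2 h5
    · rw [h3, exPi_exN, List.map_cons, List.prod_cons, mul_assoc]
    · intro k' l'' hl
      rw [List.cons.injEq] at hl
      rw [← hl.1, Walk.edges_cons]
      exact List.mem_cons_self

theorem exF_girth (L g : ℕ) (hg : g ≤ L + 1) : (g : ℕ∞) ≤ (gr (exF L)).egirth := by
  rw [le_egirth]
  intro a w hw
  by_contra hcon
  rw [not_le] at hcon
  have h0 : w.length < g := by exact_mod_cast hcon
  obtain ⟨l, h1, h2, h3, _⟩ := ex_walk w hw.isCircuit.isTrail
  have h4 : (l.map (exP L)).prod = 1 := by
    have h5 : exPi L a * 1 = exPi L a * (l.map (exP L)).prod := by rw [mul_one]; exact h3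
    exact (mul_left_cancel h5).symm
  have h5 := ex_word L l ⟨h2, by omega⟩
  rw [h4] at h5
  have h6 : l = [] := h5.symm
  rw [h6] at h1
  have h7 := hw.three_le_length
  rw [← h1] at h7
  simp at h7

/-- alternating lists -/
def exAlt : ℕ → List (Fin 3)
  | 0 => []
  | n + 1 => (if Even n then 0 else 1) :: exAlt n

theorem exAlt_length (n : ℕ) : (exAlt n).length = n := by
  induction n with
  | zero => rfl
  | succ n ih => rw [exAlt, List.length_cons, ih]

theorem exAlt_chain (n : ℕ) : (exAlt n).IsChain (· ≠ ·) := by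
  induction n with
  | zero => exact List.isChain_nil
  | succ n ih =>
    rw [exAlt, List.isChain_cons]
    refine ⟨?_, ih⟩
    intro y hy
    cases n with
    | zero => simp [exAlt] at hy
    | succ n =>
      simp only [exAlt, List.head?_cons, Option.mem_def, Option.some.injEq] at hy
      rw [← hy]
      by_cases h : Even n <;> simp [Nat.even_add_one, h]

/-- alternating lists -/
def exAltT (L : ℕ) (j : Fin L) : ExT L :=
  ⟨exAlt j, exAlt_chain j, by rw [exAlt_length]; omega⟩

theorem ex_card (L : ℕ) : L ≤ Fintype.card (ExT L) := by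
  have h1 : Function.Injective (exAltT L) := by
    intro i j hij
    have h2 := congrArg (fun l : ExT L => l.1.length) hij
    simp only [exAltT, exAlt_length] at h2
    exact Fin.ext h2
  have h2 := Fintype.card_le_of_injective _ h1
  rwa [Fintype.card_fin] at h2

theorem ex_map {α β : Type*} [Fintype α] [DecidableEq α] [Fintype β] [DecidableEq β]
    (e : α ≃ β) (g : ℕ) (F : Finset (α × α)) (hF : F ∈ cubsG α g) :
    F.map (Equiv.prodCongr e e).toEmbedding ∈ cubsG β g := by
  classical
  unfold cubsG cubs at hF ⊢
  rw [mem_filter, mem_filter] at hF ⊢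
  refine ⟨⟨mem_univ _, cub_map e F hF.1.2⟩, ?_⟩
  have h1 := hF.2
  rw [le_egirth] at h1 ⊢
  intro a w hw
  let φ : gr (F.map (Equiv.prodCongr e e).toEmbedding) →g gr F :=
    { toFun := Sum.map e.symm e.symm
      map_rel' := by
        rintro u v ⟨i, j, hij, h⟩
        rw [mem_map] at hij
        obtain ⟨⟨i', j'⟩, hij', hij⟩ := hij
        simp only [Equiv.coe_toEmbedding, Equiv.prodCongr_apply, Prod.map_apply, Prod.mk.injEq] at hij
        obtain ⟨rfl, rfl⟩ := hij
        rcases h with ⟨rfl, rfl⟩ | ⟨rfl, rfl⟩
        · exact ⟨i', j', hij', Or.inl ⟨by simp, by simp⟩⟩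
        · exact ⟨i', j', hij', Or.inr ⟨by simp, by simp⟩⟩ }
  have hinj : Function.Injective φ := Sum.map_injective.2 ⟨e.symm.injective, e.symm.injective⟩
  have h2 := h1 _ (w.map φ) (hw.map hinj)
  rwa [Walk.length_map] at h2

theorem ex_card_le {α β : Type*} [Fintype α] [DecidableEq α] [Fintype β] [DecidableEq β]
    (e : α ≃ β) (g : ℕ) : (cubsG α g).card ≤ (cubsG β g).card := by
  refine card_le_card_of_injOn (fun F => F.map (Equiv.prodCongr e e).toEmbedding) ?_ ?_
  · intro F hF
    exact ex_map e g F hF
  · intro F _ F' _ h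
    exact Finset.map_injective _ h

theorem ex_card_congr {α β : Type*} [Fintype α] [DecidableEq α] [Fintype β] [DecidableEq β]
    (e : α ≃ β) (g : ℕ) : (cubsG α g).card = (cubsG β g).card :=
  le_antisymm (ex_card_le e g) (ex_card_le e.symm g)

theorem exists_cubsG (g N0 : ℕ) : ∃ n, N0 ≤ n ∧ (cubsG (Fin n) g).Nonempty := by
  refine ⟨Fintype.card (Perm (ExT (g + N0))), ?_, ?_⟩
  · rw [Fintype.card_perm]
    have h1 := ex_card (g + N0)
    have h2 := Nat.self_le_factorial (Fintype.card (ExT (g + N0)))
    omega
  · rw [← card_pos, ← ex_card_congr (Fintype.equivFin (Perm (ExT (g + N0)))), card_pos]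
    refine ⟨exF (g + N0), ?_⟩
    unfold cubsG cubs
    rw [mem_filter, mem_filter]
    exact ⟨⟨mem_univ _, exF_cub _⟩, exF_girth _ _ (by omega)⟩

theorem card_cubsG_congr {α β : Type*} [Fintype α] [DecidableEq α] [Fintype β] [DecidableEq β]
    (e : α ≃ β) (g : ℕ) : (cubsG α g).card = (cubsG β g).card :=
  ex_card_congr e g

end Pool.Agent.MP_7c0803
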