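import Pool.Agent.Lib_MP_7c0803_co.GDefs

/-!
# Piece FAR: number of triples of far edges

Proof.  (1) In `gr F` every vertex has 3 neighbours, so for `g : ℕ` the set `{v | edist u v < g}` has at most
`3 ^ g` elements (induction: `{v | edist u v < 0}` is empty; a vertex at distance `< g + 1` is `u` or is adjacent to
a vertex at distance `< g` which is nearer to `u`; simpler: show by induction that the set
`{v | ∃ walk from u to v of length ≤ g}` has at most `1 + 3 + ... + 3 ^ g ≤ 3 ^ (g + 1) / 2` elements, or count walks of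
length exactly `l`: at most `3 ^ l`; and `1 + 3 + ... + 3 ^ (g-1) ≤ 3 ^ g`).
(2) For an edge `e = (i, j) ∈ F` the edges `(i', j') ∈ F` with `edist < g` between a vertex of `e` and a vertex of
`(i', j')` have `inl i'` or `inr j'` in the union of the two balls; this union has at most `2 * 3 ^ g` vertices
and each vertex is on 3 edges: at most `2 * 3 ^ (g + 1)` edges.
(3) Choose `e₀` (`3 m` ways, `cub_card`), then `e₁` (at least `3 m - c` ways), then `e₂` (at least `3 m - 2 c`
ways), as in the proof of `trip_card` in `Insert.lean`.  (`1 ≤ g`: far edges have different rows and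
different columns because `edist u u = 0`.)
-/

open Finset Equiv Equiv.Perm SimpleGraph

namespace Pool.Agent.MP_7c0803

variable {α : Type*} [Fintype α] [DecidableEq α]

open Classical in
/-- the edges at a vertex -/
noncomputable def farInc (F : Finset (α × α)) : α ⊕ α → Finset (α × α)
  | Sum.inl i => F.filter fun e => e.1 = i
  | Sum.inr j => F.filter fun e => e.2 = j

theorem farInc_card {F : Finset (α × α)} (hF : IsCub F) (u : α ⊕ α) : (farInc F u).card = 3 := by
  classical
  rcases u with i | j
  · have := hF.1 i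
    unfold farInc
    convert this
  · have := hF.2 j
    unfold farInc
    convert this

open Classical in
/-- the open ball -/
noncomputable def farBall (F : Finset (α × α)) (g : ℕ) (u : α ⊕ α) : Finset (α ⊕ α) :=
  univ.filter fun v => (gr F).edist u v < (g : ℕ∞)

open Classical in
theorem farBall_card {F : Finset (α × α)} (hF : IsCub F) (g : ℕ) : ∀ u : α ⊕ α,
    2 * (farBall F g u).card + 1 ≤ 3 ^ g := by
  induction g with
  | zero =>
    intro u
    have h1 : farBall F 0 u = ∅ := by
      unfold farBall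
      rw [filter_eq_empty_iff]
      intro v _ hv
      simp at hv
    rw [h1]
    simp
  | succ g ih =>
    intro u
    let nbr : Finset (α ⊕ α) := (farInc F u).image fun e => Sum.elim (fun _ => Sum.inr e.2) (fun _ => Sum.inl e.1) u
    have hnbr : nbr.card ≤ 3 := by
      have := card_image_le (s := farInc F u)
        (f := fun e : α × α => (Sum.elim (fun _ => Sum.inr e.2) (fun _ => Sum.inl e.1) u : α ⊕ α))
      rw [farInc_card hF] at this
      exact this
    have hsub : farBall F (g + 1) u ⊆ {u} ∪ nbr.biUnion (farBall F g) := by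
      intro v hv
      unfold farBall at hv
      rw [mem_filter] at hv
      have hne : (gr F).edist u v ≠ ⊤ := (lt_of_lt_of_le hv.2 le_top).ne
      obtain ⟨p, hp⟩ := exists_walk_of_edist_ne_top hne
      rw [mem_union, mem_singleton, mem_biUnion]
      rcases p with _ | ⟨h, q⟩
      · exact Or.inl rfl
      · rename_i w
        right
        refine ⟨w, ?_, ?_⟩
        · obtain ⟨i, j, hij, ⟨h1, h2⟩ | ⟨h1, h2⟩⟩ := h
          · subst h1 h2
            exact mem_image.2 ⟨(i, j), by simp [farInc, hij], rfl⟩
          · subst h1 h2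
            exact mem_image.2 ⟨(i, j), by simp [farInc, hij], rfl⟩
        · unfold farBall
          rw [mem_filter]
          refine ⟨mem_univ _, lt_of_le_of_lt (edist_le q) ?_⟩
          have h3 := hv.2
          rw [← hp, Walk.length_cons] at h3
          have h4 : q.length + 1 < g + 1 := by exact_mod_cast h3
          exact_mod_cast Nat.lt_of_add_lt_add_right h4
    have h1 := card_le_card hsub
    have h2 := card_union_le {u} (nbr.biUnion (farBall F g))
    have h3 : (nbr.biUnion (farBall F g)).card ≤ ∑ w ∈ nbr, (farBall F g w).card := card_biUnion_le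
    have h4 : 2 * ∑ w ∈ nbr, (farBall F g w).card + nbr.card ≤ nbr.card * 3 ^ g := by
      rw [mul_sum, card_eq_sum_ones nbr, ← sum_add_distrib, sum_mul]
      refine sum_le_sum fun w _ => ?_
      rw [one_mul]
      exact ih w
    rw [card_singleton] at h2
    have h5 : 2 * ∑ w ∈ nbr, (farBall F g w).card + 3 ≤ 3 * 3 ^ g := by
      have h6 : 1 ≤ 3 ^ g := Nat.one_le_pow _ _ (by norm_num)
      have h7 : nbr.card + (3 - nbr.card) = 3 := by omega
      calc 2 * ∑ w ∈ nbr, (farBall F g w).card + 3 =
          (2 * ∑ w ∈ nbr, (farBall F g w).card + nbr.card) + (3 - nbr.card) * 1 := by omega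
        _ ≤ nbr.card * 3 ^ g + (3 - nbr.card) * 3 ^ g := by gcongr
        _ = (nbr.card + (3 - nbr.card)) * 3 ^ g := by ring
        _ = 3 * 3 ^ g := by rw [h7]
    rw [pow_succ]
    omega

/-- far edges -/
def FarP (g : ℕ) (F : Finset (α × α)) (e f : α × α) : Prop :=
  (g : ℕ∞) ≤ (gr F).edist (Sum.inl e.1) (Sum.inl f.1) ∧
    (g : ℕ∞) ≤ (gr F).edist (Sum.inr e.2) (Sum.inr f.2) ∧
      (g : ℕ∞) ≤ (gr F).edist (Sum.inl e.1) (Sum.inr f.2) ∧
        (g : ℕ∞) ≤ (gr F).edist (Sum.inl f.1) (Sum.inr e.2)

omit [Fintype α] [DecidableEq α] in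
theorem FarP.symm {g : ℕ} {F : Finset (α × α)} {e f : α × α} (h : FarP g F e f) : FarP g F f e := by
  obtain ⟨h1, h2, h3, h4⟩ := h
  refine ⟨?_, ?_, h4, h3⟩
  · rw [edist_comm]
    exact h1
  · rw [edist_comm]
    exact h2

open Classical in
/-- the edges near a given edge -/
noncomputable def farNear (g : ℕ) (F : Finset (α × α)) (e : α × α) : Finset (α × α) :=
  F.filter fun f => ¬ FarP g F e f

open Classical in
theorem farNear_card {g : ℕ} {F : Finset (α × α)} (hF : IsCub F) (e : α × α) :
    (farNear g F e).card ≤ 2 * 3 ^ (g + 1) := by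
  have hsub : farNear g F e ⊆ (farBall F g (Sum.inl e.1) ∪ farBall F g (Sum.inr e.2)).biUnion (farInc F) := by
    intro f hf
    unfold farNear at hf
    rw [mem_filter] at hf
    obtain ⟨hfF, hf⟩ := hf
    rw [mem_biUnion]
    have key : Sum.inl f.1 ∈ farBall F g (Sum.inl e.1) ∪ farBall F g (Sum.inr e.2) ∨
        Sum.inr f.2 ∈ farBall F g (Sum.inl e.1) ∪ farBall F g (Sum.inr e.2) := by
      by_contra hcon
      rw [not_or, mem_union, mem_union, not_or, not_or] at hcon
      simp only [farBall, mem_filter, mem_univ, true_and, not_lt] at hcon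
      exact hf ⟨hcon.1.1, hcon.2.2, hcon.2.1, by rw [edist_comm]; exact hcon.1.2⟩
    rcases key with h | h
    · exact ⟨_, h, by simp [farInc, hfF]⟩
    · exact ⟨_, h, by simp [farInc, hfF]⟩
  have h1 := card_le_card hsub
  have h2 : ((farBall F g (Sum.inl e.1) ∪ farBall F g (Sum.inr e.2)).biUnion (farInc F)).card ≤
      (farBall F g (Sum.inl e.1) ∪ farBall F g (Sum.inr e.2)).card * 3 :=
    card_biUnion_le_card_mul _ _ _ fun u _ => (farInc_card hF u).le
  have h3 := card_union_le (farBall F g (Sum.inl e.1)) (farBall F g (Sum.inr e.2))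
  have h4 := farBall_card hF g (Sum.inl e.1)
  have h5 := farBall_card hF g (Sum.inr e.2)
  rw [pow_succ]
  omega

theorem card_far_ge {g : ℕ} (hg : 1 ≤ g) {F : Finset (α × α)} (hF : IsCub F) :
    3 * Fintype.card α * (3 * Fintype.card α - 2 * 3 ^ (g + 1)) *
      (3 * Fintype.card α - 2 * (2 * 3 ^ (g + 1))) ≤ (farT g F).card := by
  classical
  set cc := 2 * 3 ^ (g + 1) with hcc
  let S := F.sigma (fun e₀ => (F \ farNear g F e₀).sigma (fun e₁ => (F \ farNear g F e₀) \ farNear g F e₁))
  have hS : 3 * Fintype.card α * (3 * Fintype.card α - cc) * (3 * Fintype.card α - 2 * cc) ≤ S.card := by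
    simp only [S, card_sigma]
    have h1 : ∀ e₀ ∈ F, (3 * Fintype.card α - cc) * (3 * Fintype.card α - 2 * cc) ≤
        ∑ e₁ ∈ F \ farNear g F e₀, ((F \ farNear g F e₀) \ farNear g F e₁).card := by
      intro e₀ he₀
      have hc0 := farNear_card (g := g) hF e₀
      have hk := le_card_sdiff (farNear g F e₀) F
      rw [cub_card hF] at hk
      calc (3 * Fintype.card α - cc) * (3 * Fintype.card α - 2 * cc)
          ≤ (F \ farNear g F e₀).card * (3 * Fintype.card α - 2 * cc) :=
            Nat.mul_le_mul_right _ (by omega)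
        _ = ∑ e₁ ∈ F \ farNear g F e₀, (3 * Fintype.card α - 2 * cc) := by rw [sum_const, smul_eq_mul]
        _ ≤ _ := by
            refine sum_le_sum fun e₁ he₁ => ?_
            have hc1 := farNear_card (g := g) hF e₁
            have hk1 := le_card_sdiff (farNear g F e₁) (F \ farNear g F e₀)
            omega
    calc 3 * Fintype.card α * (3 * Fintype.card α - cc) * (3 * Fintype.card α - 2 * cc)
        = ∑ e₀ ∈ F, ((3 * Fintype.card α - cc) * (3 * Fintype.card α - 2 * cc)) := by
          rw [sum_const, cub_card hF, smul_eq_mul, mul_assoc]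
      _ ≤ _ := sum_le_sum h1
  refine hS.trans ?_
  have hne : ∀ e f : α × α, FarP g F e f → e.1 ≠ f.1 ∧ e.2 ≠ f.2 := by
    intro e f h
    constructor
    · intro h1
      have h2 := h.1
      rw [h1, edist_self] at h2
      have : g ≤ 0 := by exact_mod_cast h2
      omega
    · intro h1
      have h2 := h.2.1
      rw [h1, edist_self] at h2
      have : g ≤ 0 := by exact_mod_cast h2
      omega
  refine card_le_card_of_injOn
    (fun z => (![z.1.1, z.2.1.1, z.2.2.1], ![z.1.2, z.2.1.2, z.2.2.2])) ?_ ?_
  · rintro ⟨e₀, e₁, e₂⟩ hz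
    simp only [S, mem_coe, mem_sigma, mem_sdiff, farNear, mem_filter, not_and, not_not] at hz
    obtain ⟨h0, ⟨h1, h2⟩, ⟨h3, h4⟩, h5⟩ := hz
    have h2 := h2 h1
    have h4 := h4 h3
    have h5 := h5 h3
    have n2 := hne _ _ h2
    have n4 := hne _ _ h4
    have n5 := hne _ _ h5
    simp only [farT, mem_coe, mem_filter, trip, mem_univ, true_and]
    refine ⟨⟨⟨?_, ?_⟩, ?_⟩, ?_⟩
    · intro k l hkl
      fin_cases k <;> fin_cases l <;> simp at hkl ⊢ <;> first
        | exact n2.1 hkl
        | exact n2.1 hkl.symm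
        | exact n4.1 hkl
        | exact n4.1 hkl.symm
        | exact n5.1 hkl
        | exact n5.1 hkl.symm
    · intro k l hkl
      fin_cases k <;> fin_cases l <;> simp at hkl ⊢ <;> first
        | exact n2.2 hkl
        | exact n2.2 hkl.symm
        | exact n4.2 hkl
        | exact n4.2 hkl.symm
        | exact n5.2 hkl
        | exact n5.2 hkl.symm
    · intro k
      fin_cases k
      · exact h0
      · exact h1
      · exact h3
    · have hred : ∀ e f : α × α, FarP g F e f → (g : ℕ∞) ≤ (gr F).edist (Sum.inl e.1) (Sum.inl f.1) ∧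
          (g : ℕ∞) ≤ (gr F).edist (Sum.inr e.2) (Sum.inr f.2) ∧
            (g : ℕ∞) ≤ (gr F).edist (Sum.inl e.1) (Sum.inr f.2) := fun e f h => ⟨h.1, h.2.1, h.2.2.1⟩
      intro k l hkl
      fin_cases k <;> fin_cases l
      · exact absurd rfl hkl
      · exact hred _ _ h2
      · exact hred _ _ h4
      · exact hred _ _ h2.symm
      · exact absurd rfl hkl
      · exact hred _ _ h5
      · exact hred _ _ h4.symm
      · exact hred _ _ h5.symm
      · exact absurd rfl hkl
  · rintro ⟨⟨a, a'⟩, ⟨b, b'⟩, ⟨c, c'⟩⟩ _ ⟨⟨u, u'⟩, ⟨v, v'⟩, ⟨w, w'⟩⟩ _ h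
    simp only [Prod.mk.injEq] at h
    obtain ⟨h1, h2⟩ := h
    have a0 := congrFun h1 0
    have a1 := congrFun h1 1
    have a2 := congrFun h1 2
    have b0 := congrFun h2 0
    have b1 := congrFun h2 1
    have b2 := congrFun h2 2
    simp at a0 a1 a2 b0 b1 b2
    subst a0 a1 a2 b0 b1 b2
    rfl

end Pool.Agent.MP_7c0803
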