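import Pool.Agent.Lib_MP_7c0803_co.Insert

/-!
# Graphs of large girth: definitions
-/

open Finset Equiv Equiv.Perm SimpleGraph

namespace Pool.Agent.MP_7c0803

variable {α : Type*} [Fintype α] [DecidableEq α]

omit [Fintype α] [DecidableEq α] in
/-- The bipartite graph with the edge set `F`. -/
def gr (F : Finset (α × α)) : SimpleGraph (α ⊕ α) where
  Adj u v := ∃ i j, (i, j) ∈ F ∧
    ((u = Sum.inl i ∧ v = Sum.inr j) ∨ (u = Sum.inr j ∧ v = Sum.inl i))
  symm := ⟨by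
    rintro u v ⟨i, j, h, h1 | h1⟩
    · exact ⟨i, j, h, Or.inr ⟨h1.2, h1.1⟩⟩
    · exact ⟨i, j, h, Or.inl ⟨h1.2, h1.1⟩⟩⟩
  loopless := ⟨by
    rintro u ⟨i, j, _, ⟨h1, h2⟩ | ⟨h1, h2⟩⟩ <;> rw [h1] at h2 <;> cases h2⟩

open Classical in
variable (α) in
/-- The labelled simple cubic bipartite graphs of girth at least `g`. -/
noncomputable def cubsG (g : ℕ) : Finset (Finset (α × α)) :=
  (cubs α).filter fun F => (g : ℕ∞) ≤ (gr F).egirth

omit [Fintype α] [DecidableEq α] in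
/-- The edges `(x k, y k)` are pairwise at distance at least `g`. -/
def FarT (g : ℕ) (F : Finset (α × α)) (x y : Fin 3 → α) : Prop :=
  ∀ k l, k ≠ l → (g : ℕ∞) ≤ (gr F).edist (Sum.inl (x k)) (Sum.inl (x l)) ∧
    (g : ℕ∞) ≤ (gr F).edist (Sum.inr (y k)) (Sum.inr (y l)) ∧
      (g : ℕ∞) ≤ (gr F).edist (Sum.inl (x k)) (Sum.inr (y l))

open Classical in
/-- The triples of edges of `F` which are pairwise at distance at least `g`. -/
noncomputable def farT (g : ℕ) (F : Finset (α × α)) : Finset ((Fin 3 → α) × (Fin 3 → α)) :=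
  (trip F).filter fun z => FarT g F z.1 z.2

end Pool.Agent.MP_7c0803
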