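import Pool.Agent.Lib_MP_7c0803_co.GDefs

/-!
# Piece GIN: the insertion does not create short cycles

`G' = gr (ins F x y)` is obtained from `G = gr F` by deleting the edges `e_k = (x_k, y_k)` and adding the two
new vertices `b = inl none` (joined to the `inr (some (y_k))`) and `w = inr none` (joined to the
`inl (some (x_k))`); `b` and `w` are not adjacent.
(0) A walk of `G'` which avoids `b` and `w` is the image (`Sum.map some some`) of a walk of `G` of the same
length, with the same support, which does not use the edges `e_k`; paths go to paths and cycles to cycles.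
Let `C` be a cycle of `G'` of length `< g`.
(1) `C` avoids `b` and `w`: it comes from a cycle of `G`, of length `≥ g`, a contradiction.
(2) `b ∈ C`: rotate `C` to start at `b` (`Walk.rotate`).  Its first and last steps are `b y_i`, `y_j b`, `i ≠ j`
(a cycle of length `≥ 3` does not use an edge twice), the middle part `P` is a path from `y_i` to `y_j` which
avoids `b`.  If `w ∉ P`, `P` gives a walk of `G`, so `|C| > |P| ≥ edist (y_i) (y_j) ≥ g`, a contradiction.
If `w ∈ P`, split `P = P₁ P₂` at `w` (`takeUntil`, `dropUntil`), the last step of `P₁` is `x_k w`, the first step of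
`P₂` is `w x_l`, `k ≠ l` because `P` is a path.  So there are walks of `G` without `e`-edges: a path `Q₁` from `y_i` to
`x_k` and a path `Q₂` from `x_l` to `y_j`, both shorter than `C`.  If `k ≠ i` then `|Q₁| ≥ edist (x_k) (y_i) ≥ g`.
If `l ≠ j` then `|Q₂| ≥ g`.  Otherwise `k = i`, `l = j`, and `Q₁` together with the edge `e_i` is a cycle of
`G` (`Path` + edge not used by it: `SimpleGraph.Walk.cons_isCycle_iff`) of length `|Q₁| + 1 ≥ g`, but
`|Q₁| + 1 < |C|`.
(3) `b ∉ C`, `w ∈ C`: as in (2) without the split, `|C| > edist (x_i) (x_j) ≥ g`.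
-/

open Finset Equiv Equiv.Perm SimpleGraph

namespace Pool.Agent.MP_7c0803

variable {α : Type*} [Fintype α] [DecidableEq α]

section GIN

open SimpleGraph.Walk

universe u v

variable {V : Type u} {W : Type v}

/-- the part of a cycle through `v` away from `v` -/
theorem GIN_cycle [DecidableEq V] {H : SimpleGraph V} {a v : V} (c : H.Walk a a) (hc : c.IsCycle)
    (hv : v ∈ c.support) :
    ∃ (t t' : V) (q : H.Walk t' t), H.Adj v t ∧ H.Adj v t' ∧ t ≠ t' ∧ q.IsPath ∧ v ∉ q.support ∧
      q.length + 2 = c.length ∧ ∀ z ∈ q.support, z ∈ c.support := by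
  have hr : (c.rotate v hv).IsCycle := hc.rotate hv
  have hl : (c.rotate v hv).length = c.length := c.length_rotate v hv
  have hsu : ∀ z, z ∈ (c.rotate v hv).support → z ∈ c.support := by
    intro z hz
    exact (c.mem_support_rotate_iff v hv).1 hz
  generalize c.rotate v hv = d at hr hl hsu
  rcases d with _ | @⟨_, t, _, h, p⟩
  · exact absurd hr (by simp)
  · rw [cons_isCycle_iff] at hr
    obtain ⟨hp, he⟩ := hr
    have hpr : p.reverse.IsPath := (isPath_reverse_iff p).2 hp
    have hlr : p.reverse.length = p.length := length_reverse p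
    have hsr : ∀ z, z ∈ p.reverse.support → z ∈ c.support := by
      intro z hz
      rw [support_reverse, List.mem_reverse] at hz
      apply hsu
      rw [support_cons]
      exact List.mem_cons_of_mem _ hz
    have her : s(v, t) ∉ p.reverse.edges := by
      rw [edges_reverse, List.mem_reverse]
      exact he
    generalize p.reverse = r at hpr hlr her hsr
    rcases r with _ | @⟨_, t', _, h', q⟩
    · exact absurd h (H.loopless.irrefl _)
    · rw [cons_isPath_iff] at hpr
      refine ⟨t, t', q, h, h', ?_, hpr.1, hpr.2, ?_, ?_⟩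
      · rintro rfl
        apply her
        rw [edges_cons]
        exact List.mem_cons_self
      · rw [length_cons] at hlr hl
        omega
      · intro z hz
        apply hsr
        rw [support_cons]
        exact List.mem_cons_of_mem _ hz

/-- the part of a path after its first step -/
theorem GIN_path {H : SimpleGraph V} {v t : V} (p : H.Walk v t) (hp : p.IsPath) (hne : v ≠ t) :
    ∃ (t' : V) (q : H.Walk t' t), H.Adj v t' ∧ v ∉ q.support ∧ q.length + 1 = p.length ∧
      q.support ⊆ p.support := by
  rcases p with _ | @⟨_, t', _, h, q⟩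
  · exact absurd rfl hne
  · rw [cons_isPath_iff] at hp
    refine ⟨t', q, h, hp.2, by rw [length_cons], ?_⟩
    rw [support_cons]
    exact List.subset_cons_self _ _

/-- pull back of a walk -/
theorem GIN_pull {H : SimpleGraph W} (f : V → W) (hf : Function.Injective f) {u v : W}
    (p : H.Walk u v) (hs : ∀ c ∈ p.support, ∃ a, f a = c) :
    ∀ (a b : V) (_ : f a = u) (_ : f b = v),
      ∃ q : (H.comap f).Walk a b, q.support.map f = p.support ∧
        q.edges.map (Sym2.map f) = p.edges ∧ q.length = p.length := by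
  induction p with
  | nil =>
    intro a b ha hb
    have hab : a = b := hf (ha.trans hb.symm)
    subst hab
    subst ha
    exact ⟨Walk.nil, rfl, rfl, rfl⟩
  | cons h p ih =>
    intro a b ha hb
    obtain ⟨c, hc⟩ := hs _ (by rw [support_cons]; exact List.mem_cons_of_mem _ p.start_mem_support)
    obtain ⟨q, hq1, hq2, hq3⟩ :=
      ih (fun c hc => hs c (by rw [support_cons]; exact List.mem_cons_of_mem _ hc)) c b hc hb
    subst ha
    subst hc
    refine ⟨Walk.cons (show (H.comap f).Adj a c from h) q, ?_, ?_, ?_⟩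
    · rw [support_cons, support_cons, List.map_cons, hq1]
    · rw [edges_cons, edges_cons, List.map_cons, hq2, Sym2.map_mk]
    · rw [length_cons, length_cons, hq3]

/-- pull back of a cycle -/
theorem GIN_pull_cycle {H : SimpleGraph W} (f : V → W) (hf : Function.Injective f) {u : W}
    (p : H.Walk u u) (hp : p.IsCycle) (hs : ∀ c ∈ p.support, ∃ a, f a = c) :
    ∃ (a : V) (q : (H.comap f).Walk a a), q.IsCycle ∧ q.length = p.length := by
  obtain ⟨a, ha⟩ := hs u p.start_mem_support
  obtain ⟨q, h1, h2, h3⟩ := GIN_pull f hf p hs a a ha ha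
  refine ⟨a, q, ?_, h3⟩
  rw [isCycle_def] at hp ⊢
  refine ⟨?_, ?_, ?_⟩
  · rw [isTrail_def] at hp ⊢
    rw [← h2] at hp
    exact hp.1.of_map _
  · rintro rfl
    apply hp.2.1
    rw [length_nil] at h3
    exact (length_eq_zero_iff.1 h3.symm).eq_nil
  · have h4 := hp.2.2
    rw [← h1, ← List.map_tail] at h4
    exact h4.of_map _

/-- the inclusion of the old vertices -/
def GIN_s (α : Type*) : α ⊕ α → Option α ⊕ Option α := Sum.map some some

omit [Fintype α] [DecidableEq α] in
theorem GIN_s_inj : Function.Injective (GIN_s α) :=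
  Sum.map_injective.2 ⟨Option.some_injective _, Option.some_injective _⟩

omit [DecidableEq α] in
theorem GIN_le (F : Finset (α × α)) (x y : Fin 3 → α) :
    (gr (ins F x y)).comap (GIN_s α) ≤ gr F := by
  intro u v h
  obtain ⟨i, j, h1, h2⟩ := h
  simp only [ins, mem_filter, mem_univ, true_and] at h1
  rcases u with u | u <;> rcases v with v | v <;> rcases h2 with ⟨h2, h3⟩ | ⟨h2, h3⟩ <;>
    simp only [GIN_s, Sum.map_inl, Sum.map_inr, Sum.inl.injEq, Sum.inr.injEq, reduceCtorEq] at h2 h3
  · subst h2
    subst h3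
    exact ⟨u, v, h1.1, Or.inl ⟨rfl, rfl⟩⟩
  · subst h2
    subst h3
    exact ⟨v, u, h1.1, Or.inr ⟨rfl, rfl⟩⟩

omit [DecidableEq α] in
theorem GIN_not (F : Finset (α × α)) (x y : Fin 3 → α) (k : Fin 3) :
    ¬ ((gr (ins F x y)).comap (GIN_s α)).Adj (Sum.inl (x k)) (Sum.inr (y k)) := by
  intro h
  obtain ⟨i, j, h1, h2⟩ := h
  simp only [ins, mem_filter, mem_univ, true_and] at h1
  rcases h2 with ⟨h2, h3⟩ | ⟨h2, h3⟩ <;>
    simp only [GIN_s, Sum.map_inl, Sum.map_inr, Sum.inl.injEq, Sum.inr.injEq, reduceCtorEq] at h2 h3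
  subst h2
  subst h3
  exact h1.2 k ⟨rfl, rfl⟩

omit [DecidableEq α] in
theorem GIN_nb (F : Finset (α × α)) (x y : Fin 3 → α) {v : Option α ⊕ Option α}
    (h : (gr (ins F x y)).Adj (Sum.inl none) v) : ∃ k, v = GIN_s α (Sum.inr (y k)) := by
  obtain ⟨i, j, h1, h2⟩ := h
  simp only [ins, mem_filter, mem_univ, true_and] at h1
  rcases h2 with ⟨h2, h3⟩ | ⟨h2, h3⟩
  · rw [Sum.inl.injEq] at h2
    subst h2
    rcases j with _ | j
    · exact h1.elim
    · obtain ⟨k, rfl⟩ := h1
      exact ⟨k, h3⟩
  · exact absurd h2 (by simp)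

omit [DecidableEq α] in
theorem GIN_nw (F : Finset (α × α)) (x y : Fin 3 → α) {v : Option α ⊕ Option α}
    (h : (gr (ins F x y)).Adj (Sum.inr none) v) : ∃ k, v = GIN_s α (Sum.inl (x k)) := by
  obtain ⟨i, j, h1, h2⟩ := h
  simp only [ins, mem_filter, mem_univ, true_and] at h1
  rcases h2 with ⟨h2, h3⟩ | ⟨h2, h3⟩
  · exact absurd h2 (by simp)
  · rw [Sum.inr.injEq] at h2
    subst h2
    rcases i with _ | i
    · exact h1.elim
    · obtain ⟨k, rfl⟩ := h1
      exact ⟨k, h3⟩

omit [Fintype α] [DecidableEq α] in
theorem GIN_range {c : Option α ⊕ Option α} (hb : c ≠ Sum.inl none) (hw : c ≠ Sum.inr none) :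
    ∃ a, GIN_s α a = c := by
  rcases c with c | c <;> rcases c with _ | c
  · exact absurd rfl hb
  · exact ⟨Sum.inl c, rfl⟩
  · exact absurd rfl hw
  · exact ⟨Sum.inr c, rfl⟩

/-- walks without the deleted edges between two ends of one or two of them are long -/
theorem GIN_long {g : ℕ} {F : Finset (α × α)} {x y : Fin 3 → α} (hxy : ∀ k, (x k, y k) ∈ F)
    (hF : (g : ℕ∞) ≤ (gr F).egirth) (hfar : FarT g F x y) (i k : Fin 3)
    (q : ((gr (ins F x y)).comap (GIN_s α)).Walk (Sum.inl (x i)) (Sum.inr (y k))) :
    g ≤ q.length + 1 := by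
  classical
  by_cases hik : i = k
  · subst hik
    have h1 : q.bypass.length ≤ q.length := q.length_bypass_le_length
    have hp : (q.bypass.mapLe (GIN_le F x y)).IsPath :=
      (isPath_mapLe (GIN_le F x y)).2 q.bypass_isPath
    have hadj : (gr F).Adj (Sum.inr (y i)) (Sum.inl (x i)) :=
      ⟨x i, y i, hxy i, Or.inr ⟨rfl, rfl⟩⟩
    have hc : (Walk.cons hadj (q.bypass.mapLe (GIN_le F x y))).IsCycle := by
      rw [cons_isCycle_iff]
      refine ⟨hp, fun he => ?_⟩
      rw [edges_mapLe_eq_edges] at he
      have h2 := q.bypass.adj_of_mem_edges he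
      exact GIN_not F x y i h2.symm
    have h3 := hF.trans (SimpleGraph.egirth_le_length hc)
    rw [length_cons, Walk.length_map] at h3
    have h4 : g ≤ q.bypass.length + 1 := by exact_mod_cast h3
    omega
  · have h1 := (hfar i k hik).2.2
    have h2 := (q.mapLe (GIN_le F x y)).edist_le
    have h3 := h1.trans h2
    rw [Walk.length_map] at h3
    have h4 : g ≤ q.length := by exact_mod_cast h3
    omega

end GIN

theorem egirth_ins {g : ℕ} {F : Finset (α × α)} {x y : Fin 3 → α} (hx : Function.Injective x)
    (hy : Function.Injective y) (hxy : ∀ k, (x k, y k) ∈ F) (hF : (g : ℕ∞) ≤ (gr F).egirth)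
    (hfar : FarT g F x y) : (g : ℕ∞) ≤ (gr (ins F x y)).egirth := by
  classical
  rw [SimpleGraph.le_egirth]
  intro a c hc
  by_cases hb : Sum.inl none ∈ c.support
  · obtain ⟨t, t', q, ht, ht', hne, hq, hbq, hl, _⟩ := GIN_cycle c hc hb
    obtain ⟨i, rfl⟩ := GIN_nb F x y ht
    obtain ⟨j, rfl⟩ := GIN_nb F x y ht'
    by_cases hw : Sum.inr none ∈ q.support
    · -- the part up to `w`
      have hp1 : (q.takeUntil _ hw).reverse.IsPath :=
        (Walk.isPath_reverse_iff _).2 (hq.takeUntil hw)
      have hl1 : (q.takeUntil _ hw).reverse.length ≤ q.length := by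
        rw [Walk.length_reverse]
        exact Walk.length_takeUntil_le_length _ _
      have hs1 : Sum.inl none ∉ (q.takeUntil _ hw).reverse.support := by
        rw [Walk.support_reverse, List.mem_reverse]
        exact fun h => hbq (Walk.support_takeUntil_subset_support _ _ h)
      generalize (q.takeUntil _ hw).reverse = r at hp1 hl1 hs1
      obtain ⟨t', q', h1, h2, h3, h4⟩ := GIN_path r hp1 (by
        intro h
        exact absurd h (by simp [GIN_s]))
      obtain ⟨k, rfl⟩ := GIN_nw F x y h1
      obtain ⟨q0, _, _, h5⟩ := GIN_pull (GIN_s α) GIN_s_inj q' (fun c hc => by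
        refine GIN_range ?_ ?_
        · rintro rfl
          exact hs1 (h4 hc)
        · rintro rfl
          exact h2 hc) (Sum.inl (x k)) (Sum.inr (y j)) rfl rfl
      have h6 := GIN_long hxy hF hfar k j q0
      have h7 : g ≤ c.length := by omega
      exact_mod_cast h7
    · obtain ⟨q0, _, _, h5⟩ := GIN_pull (GIN_s α) GIN_s_inj q (fun c hc => by
        refine GIN_range ?_ ?_
        · rintro rfl
          exact hbq hc
        · rintro rfl
          exact hw hc) (Sum.inr (y j)) (Sum.inr (y i)) rfl rfl
      have hji : j ≠ i := by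
        rintro rfl
        exact hne rfl
      have h6 := (hfar j i hji).2.1.trans (q0.mapLe (GIN_le F x y)).edist_le
      rw [Walk.length_map] at h6
      have h7 : g ≤ q0.length := by exact_mod_cast h6
      have h8 : g ≤ c.length := by omega
      exact_mod_cast h8
  · by_cases hw : Sum.inr none ∈ c.support
    · obtain ⟨t, t', q, ht, ht', hne, hq, hwq, hl, hsu⟩ := GIN_cycle c hc hw
      obtain ⟨i, rfl⟩ := GIN_nw F x y ht
      obtain ⟨j, rfl⟩ := GIN_nw F x y ht'
      obtain ⟨q0, _, _, h5⟩ := GIN_pull (GIN_s α) GIN_s_inj q (fun c hc => by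
        refine GIN_range ?_ ?_
        · rintro rfl
          exact hb (hsu _ hc)
        · rintro rfl
          exact hwq hc) (Sum.inl (x j)) (Sum.inl (x i)) rfl rfl
      have hji : j ≠ i := by
        rintro rfl
        exact hne rfl
      have h6 := (hfar j i hji).1.trans (q0.mapLe (GIN_le F x y)).edist_le
      rw [Walk.length_map] at h6
      have h7 : g ≤ q0.length := by exact_mod_cast h6
      have h8 : g ≤ c.length := by omega
      exact_mod_cast h8
    · obtain ⟨a', q, h1, h2⟩ := GIN_pull_cycle (GIN_s α) GIN_s_inj c hc (fun d hd => by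
        refine GIN_range ?_ ?_
        · rintro rfl
          exact hb hd
        · rintro rfl
          exact hw hd)
      have h3 := hF.trans (SimpleGraph.egirth_le_length (h1.mapLe (GIN_le F x y)))
      rw [Walk.length_map] at h3
      rw [← h2]
      exact h3

end Pool.Agent.MP_7c0803
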