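import Pool.Agent.Lib_MP_7c0803_co.Defs

/-!
# Piece HAL: every perfect matching extends to a 3-edge-colouring

Proof.  The left side is the number of permutations `σ` with `(i, σ i) ∈ F` for all `i`.  It is enough
to find for each of them some `p ∈ Col F` with `p 0 = σ` (then `p ↦ p 0` is onto).
Let `F₁ = F` minus the graph of `σ`: all rows and columns have exactly 2 elements.  By Hall's marriage
theorem (`Finset.all_card_le_biUnion_card_iff_exists_injective`; the neighbourhood of `s` has at least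
`#s` elements by double counting: `2 #s ≤` number of edges from `s` `≤ 2 #N(s)`) there is an injective,
hence bijective `τ : α → α` with `(i, τ i) ∈ F₁`.  `F₂ = F₁` minus the graph of `τ` has exactly one element
in each row and column, so it is the graph of a permutation `ρ`.  Take `p = ![σ, τ, ρ]`.
-/

open Finset Equiv Equiv.Perm

namespace Pool.Agent.MP_7c0803

variable {α : Type*} [Fintype α] [DecidableEq α]

/-- All rows and columns have `d` elements. -/
def Reg (d : ℕ) (F : Finset (α × α)) : Prop :=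
  (∀ i, (F.filter fun e => e.1 = i).card = d) ∧ ∀ j, (F.filter fun e => e.2 = j).card = d

theorem card_rows {d : ℕ} {F : Finset (α × α)} (h : Reg d F) (s : Finset α) :
    (F.filter fun e => e.1 ∈ s).card = s.card * d := by
  have h0 : ∀ e ∈ F.filter (fun e => e.1 ∈ s), e.1 ∈ s := fun e he => (Finset.mem_filter.1 he).2
  rw [Finset.card_eq_sum_card_fiberwise (s := F.filter (fun e => e.1 ∈ s)) (f := Prod.fst)
    (t := s) h0]
  rw [← smul_eq_mul, ← Finset.sum_const]
  refine Finset.sum_congr rfl fun i hi => ?_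
  rw [Finset.filter_filter, ← h.1 i]
  congr 1
  ext e
  simp only [Finset.mem_filter]
  constructor
  · rintro ⟨h1, _, h3⟩
    exact ⟨h1, h3⟩
  · rintro ⟨h1, h3⟩
    exact ⟨h1, h3 ▸ hi, h3⟩

theorem card_cols {d : ℕ} {F : Finset (α × α)} (h : Reg d F) (s : Finset α) :
    (F.filter fun e => e.2 ∈ s).card = s.card * d := by
  have h0 : ∀ e ∈ F.filter (fun e => e.2 ∈ s), e.2 ∈ s := fun e he => (Finset.mem_filter.1 he).2
  rw [Finset.card_eq_sum_card_fiberwise (s := F.filter (fun e => e.2 ∈ s)) (f := Prod.snd)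
    (t := s) h0]
  rw [← smul_eq_mul, ← Finset.sum_const]
  refine Finset.sum_congr rfl fun i hi => ?_
  rw [Finset.filter_filter, ← h.2 i]
  congr 1
  ext e
  simp only [Finset.mem_filter]
  constructor
  · rintro ⟨h1, _, h3⟩
    exact ⟨h1, h3⟩
  · rintro ⟨h1, h3⟩
    exact ⟨h1, h3 ▸ hi, h3⟩

theorem Reg.exists_matching {d : ℕ} (hd : 0 < d) {F : Finset (α × α)} (h : Reg d F) :
    ∃ σ : Perm α, ∀ i, (i, σ i) ∈ F := by
  let t : α → Finset α := fun i => (F.filter fun e => e.1 = i).image Prod.snd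
  have hall : ∀ s : Finset α, s.card ≤ (s.biUnion t).card := by
    intro s
    have h1 : (F.filter fun e => e.1 ∈ s).card ≤ (F.filter fun e => e.2 ∈ s.biUnion t).card := by
      refine Finset.card_le_card fun e he => ?_
      rw [Finset.mem_filter] at he ⊢
      refine ⟨he.1, Finset.mem_biUnion.2 ⟨e.1, he.2, Finset.mem_image.2 ⟨e, ?_, rfl⟩⟩⟩
      exact Finset.mem_filter.2 ⟨he.1, rfl⟩
    rw [card_rows h, card_cols h] at h1
    exact Nat.le_of_mul_le_mul_right h1 hd
  obtain ⟨f, hf, hf'⟩ := (Finset.all_card_le_biUnion_card_iff_exists_injective t).1 hall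
  refine ⟨Equiv.ofBijective f (Finite.injective_iff_bijective.1 hf), fun i => ?_⟩
  obtain ⟨e, he, he'⟩ := Finset.mem_image.1 (hf' i)
  obtain ⟨h1, h2⟩ := Finset.mem_filter.1 he
  have h3 : e = (i, f i) := Prod.ext h2 he'
  rw [h3] at h1
  exact h1

theorem Reg.remove {d : ℕ} {F : Finset (α × α)} (h : Reg (d + 1) F) {σ : Perm α}
    (hσ : ∀ i, (i, σ i) ∈ F) : Reg d (F.filter fun e => e.2 ≠ σ e.1) := by
  constructor
  · intro i
    have h1 : (F.filter fun e => e.1 = i) =
        insert (i, σ i) ((F.filter fun e => e.2 ≠ σ e.1).filter fun e => e.1 = i) := by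
      ext ⟨a, b⟩
      simp only [Finset.mem_filter, Finset.mem_insert, Prod.mk.injEq]
      constructor
      · rintro ⟨h1, rfl⟩
        by_cases hb : b = σ a
        · exact Or.inl ⟨rfl, hb⟩
        · exact Or.inr ⟨⟨h1, hb⟩, rfl⟩
      · rintro (⟨rfl, rfl⟩ | ⟨⟨h1, _⟩, rfl⟩)
        · exact ⟨hσ _, rfl⟩
        · exact ⟨h1, rfl⟩
    have h2 := h.1 i
    rw [h1, Finset.card_insert_of_notMem (by simp)] at h2
    omega
  · intro j
    have h1 : (F.filter fun e => e.2 = j) =
        insert (σ⁻¹ j, j) ((F.filter fun e => e.2 ≠ σ e.1).filter fun e => e.2 = j) := by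
      ext ⟨a, b⟩
      simp only [Finset.mem_filter, Finset.mem_insert, Prod.mk.injEq]
      constructor
      · rintro ⟨h1, rfl⟩
        by_cases hb : b = σ a
        · exact Or.inl ⟨by rw [hb]; simp, rfl⟩
        · exact Or.inr ⟨⟨h1, hb⟩, rfl⟩
      · rintro (⟨rfl, rfl⟩ | ⟨⟨h1, _⟩, rfl⟩)
        · have := hσ (σ⁻¹ b)
          have e1 : σ (σ⁻¹ b) = b := σ.apply_symm_apply b
          rw [e1] at this
          exact ⟨this, rfl⟩
        · exact ⟨h1, rfl⟩
    have h2 := h.2 j
    rw [h1, Finset.card_insert_of_notMem (by simp)] at h2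
    omega

theorem per_le_card_Col {F : Finset (α × α)} (hF : IsCub F) :
    per (fun i j => if (i, j) ∈ F then 1 else 0) ≤ (Col F).card := by
  have h1 : per (fun i j => if (i, j) ∈ F then 1 else 0) =
      (univ.filter fun σ : Perm α => ∀ i, (i, σ i) ∈ F).card := by
    unfold per
    rw [Finset.card_filter]
    refine Finset.sum_congr rfl fun σ _ => ?_
    rw [Finset.prod_ite_zero]
    simp
  rw [h1]
  refine Finset.card_le_card_of_surjOn (fun p => p 0) ?_
  intro σ hσ
  have hσ' : ∀ i, (i, σ i) ∈ F := by simpa using hσ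
  have r3 : Reg (2 + 1) F := hF
  have r2 : Reg (1 + 1) (F.filter fun e => e.2 ≠ σ e.1) := r3.remove hσ'
  obtain ⟨τ, hτ⟩ := r2.exists_matching (by norm_num)
  have r1 := r2.remove hτ
  obtain ⟨ρ, hρ⟩ := r1.exists_matching (by norm_num)
  refine ⟨![σ, τ, ρ], ?_, rfl⟩
  simp only [Col, Finset.coe_filter, Finset.mem_univ, true_and]
  show ∀ i j, (i, j) ∈ F ↔ ∃ k, (![σ, τ, ρ] : Fin 3 → Perm α) k i = j
  intro i j
  constructor
  · intro hij
    by_cases e1 : j = σ i
    · exact ⟨0, e1.symm⟩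
    by_cases e2 : j = τ i
    · exact ⟨1, e2.symm⟩
    refine ⟨2, ?_⟩
    have m1 : (i, j) ∈ (((F.filter fun e => e.2 ≠ σ e.1).filter fun e => e.2 ≠ τ e.1).filter
        fun e => e.1 = i) := by
      simp only [Finset.mem_filter]
      exact ⟨⟨⟨hij, e1⟩, e2⟩, trivial⟩
    have m2 : (i, ρ i) ∈ (((F.filter fun e => e.2 ≠ σ e.1).filter fun e => e.2 ≠ τ e.1).filter
        fun e => e.1 = i) := Finset.mem_filter.2 ⟨hρ i, rfl⟩
    have h3 := Finset.card_le_one.1 (le_of_eq (r1.1 i)) _ m2 _ m1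
    exact congrArg Prod.snd h3
  · rintro ⟨k, rfl⟩
    fin_cases k
    · exact hσ' i
    · exact (Finset.mem_filter.1 (hτ i)).1
    · exact (Finset.mem_filter.1 (Finset.mem_filter.1 (hρ i)).1).1

end Pool.Agent.MP_7c0803
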