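import Pool.Agent.Lib_MP_7c0803_co.Defs

/-!
# Piece INS: lower bound for the number of labelled simple cubic bipartite graphs by insertion

Proof of `card_cubs_option`.  Let `m = card α`.  For `F ∈ cubs α` consider the ordered triples
`(e₀, e₁, e₂)` of elements of `F` with distinct rows and distinct columns.  There are at least
`3 m (3 m - 5) (3 m - 10)` of them: `#F = 3 m`, and at most `5` edges of `F` have a common vertex with a given edge
(itself included).  To `(F, (x_k, y_k)_k)` associate
`F' = (F minus the three edges) ∪ {(none, y_k)} ∪ {(x_k, none)}` in `Finset (Option α × Option α)`, which is in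
`cubs (Option α)` (every degree is still 3; `(none, none) ∉ F'`).  The map
`(F, x, y) ↦ (F', x, y)` is injective (`F` is recovered from `F'` by deleting the row and the column
`none` and adding the edges `(x_k, y_k)`; these edges are not in `F'`), and for each `F'` there are at
most `6 * 6 = 36` pairs `(x, y)` of injective maps `Fin 3 → α` with `(some (x k), none) ∈ F'` and
`(none, some (y k)) ∈ F'` for all `k`, because the column `none` and the row `none` have 3 elements.
-/

open Finset Equiv Equiv.Perm

namespace Pool.Agent.MP_7c0803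

variable {α : Type*} [Fintype α] [DecidableEq α]

/-- the relation of the extended graph -/
def insR (r : α → α → Prop) (x y : Fin 3 → α) : Option α → Option α → Prop
  | none, none => False
  | none, some j => ∃ k, y k = j
  | some i, none => ∃ k, x k = i
  | some i, some j => r i j ∧ ∀ k, ¬ (x k = i ∧ y k = j)

open Classical in
theorem row_insR (r : α → α → Prop) (x y : Fin 3 → α) (hx : Function.Injective x)
    (hy : Function.Injective y) (hr : ∀ i, (univ.filter (fun j => r i j)).card = 3)
    (hxy : ∀ k, r (x k) (y k)) (a : Option α) :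
    (univ.filter (fun b => insR r x y a b)).card = 3 := by
  rw [card_filter, Fintype.sum_option]
  cases a with
  | none =>
    have h1 : ¬ insR r x y none none := fun h => h
    rw [if_neg h1, zero_add, ← card_filter]
    have h2 : (univ.filter (fun j : α => insR r x y none (some j))) = univ.image y := by
      ext j
      simp [insR]
    rw [h2, card_image_of_injective _ hy]
    simp
  | some i =>
    rw [← card_filter]
    by_cases hi : ∃ k, x k = i
    · have h1 : insR r x y (some i) none := hi
      rw [if_pos h1]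
      obtain ⟨k, rfl⟩ := hi
      have h2 : (univ.filter (fun j : α => insR r x y (some (x k)) (some j))) =
          (univ.filter (fun j => r (x k) j)).erase (y k) := by
        ext j
        simp only [insR, mem_filter, mem_univ, true_and, mem_erase]
        constructor
        · rintro ⟨h3, h4⟩
          exact ⟨fun h => h4 k ⟨rfl, h.symm⟩, h3⟩
        · rintro ⟨h3, h4⟩
          refine ⟨h4, ?_⟩
          rintro k' ⟨h5, h6⟩
          have := hx h5
          subst this
          exact h3 h6.symm
      rw [h2, card_erase_of_mem (by simpa using hxy k), hr]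
    · have h1 : ¬ insR r x y (some i) none := hi
      rw [if_neg h1, zero_add]
      have h2 : (univ.filter (fun j : α => insR r x y (some i) (some j))) =
          (univ.filter (fun j => r i j)) := by
        ext j
        simp only [insR, mem_filter, mem_univ, true_and]
        constructor
        · rintro ⟨h3, _⟩
          exact h3
        · intro h3
          exact ⟨h3, fun k hk => hi ⟨k, hk.1⟩⟩
      rw [h2, hr]

theorem insR_flip (r : α → α → Prop) (x y : Fin 3 → α) (a b : Option α) :
    insR r x y a b ↔ insR (fun i j => r j i) y x b a := by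
  cases a <;> cases b <;> simp only [insR]
  constructor
  · rintro ⟨h1, h2⟩
    exact ⟨h1, fun k hk => h2 k ⟨hk.2, hk.1⟩⟩
  · rintro ⟨h1, h2⟩
    exact ⟨h1, fun k hk => h2 k ⟨hk.2, hk.1⟩⟩

theorem row_card {γ : Type*} [Fintype γ] [DecidableEq γ] (F : Finset (γ × γ)) (i : γ) :
    (F.filter fun e => e.1 = i).card = (univ.filter (fun j => (i, j) ∈ F)).card := by
  refine card_bij' (fun e _ => e.2) (fun j _ => (i, j)) ?_ ?_ ?_ ?_
  · rintro ⟨a, b⟩ h
    simp only [mem_filter, mem_univ, true_and] at h ⊢
    rw [← h.2]; exact h.1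
  · intro j h
    simp only [mem_filter, mem_univ, true_and] at h ⊢
    exact ⟨h, trivial⟩
  · rintro ⟨a, b⟩ h
    simp only [mem_filter] at h
    rw [← h.2]
  · intro j _
    rfl

theorem col_card {γ : Type*} [Fintype γ] [DecidableEq γ] (F : Finset (γ × γ)) (j : γ) :
    (F.filter fun e => e.2 = j).card = (univ.filter (fun i => (i, j) ∈ F)).card := by
  refine card_bij' (fun e _ => e.1) (fun i _ => (i, j)) ?_ ?_ ?_ ?_
  · rintro ⟨a, b⟩ h
    simp only [mem_filter, mem_univ, true_and] at h ⊢
    rw [← h.2]; exact h.1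
  · intro j h
    simp only [mem_filter, mem_univ, true_and] at h ⊢
    exact ⟨h, trivial⟩
  · rintro ⟨a, b⟩ h
    simp only [mem_filter] at h
    rw [← h.2]
  · intro j _
    rfl

open Classical in
/-- the extended graph -/
noncomputable def ins (F : Finset (α × α)) (x y : Fin 3 → α) : Finset (Option α × Option α) :=
  univ.filter fun e => insR (fun i j => (i, j) ∈ F) x y e.1 e.2

theorem ins_cub (F : Finset (α × α)) (x y : Fin 3 → α) (hx : Function.Injective x)
    (hy : Function.Injective y) (hF : IsCub F) (hxy : ∀ k, (x k, y k) ∈ F) : IsCub (ins F x y) := by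
  classical
  constructor
  · intro a
    rw [row_card]
    have h1 : (univ.filter (fun b => (a, b) ∈ ins F x y)) =
        univ.filter (fun b => insR (fun i j => (i, j) ∈ F) x y a b) := by
      ext b
      simp [ins]
    rw [h1]
    refine row_insR _ x y hx hy (fun i => ?_) hxy a
    have h2 := hF.1 i
    rw [row_card] at h2
    convert h2
  · intro b
    rw [col_card]
    have h1 : (univ.filter (fun a => (a, b) ∈ ins F x y)) =
        univ.filter (fun a => insR (fun i j => (j, i) ∈ F) y x b a) := by
      ext a
      simp only [ins, mem_filter, mem_univ, true_and]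
      exact insR_flip _ x y a b
    rw [h1]
    refine row_insR _ y x hy hx (fun i => ?_) hxy b
    have h2 := hF.2 i
    rw [col_card] at h2
    convert h2

/-- the triples of disjoint edges of `F` -/
def trip (F : Finset (α × α)) : Finset ((Fin 3 → α) × (Fin 3 → α)) :=
  univ.filter fun z => (Function.Injective z.1 ∧ Function.Injective z.2) ∧ ∀ k, (z.1 k, z.2 k) ∈ F

/-- the edges meeting a given edge -/
def nb (F : Finset (α × α)) (e : α × α) : Finset (α × α) :=
  F.filter fun f => f.1 = e.1 ∨ f.2 = e.2

theorem nb_card {F : Finset (α × α)} (hF : IsCub F) {e : α × α} (he : e ∈ F) :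
    (nb F e).card ≤ 5 := by
  have h1 : nb F e ⊆ (F.filter fun f => f.1 = e.1) ∪ ((F.filter fun f => f.2 = e.2).erase e) := by
    intro f hf
    simp only [nb, mem_filter] at hf
    rw [mem_union, mem_erase, mem_filter, mem_filter]
    by_cases h : f.1 = e.1
    · exact Or.inl ⟨hf.1, h⟩
    · right
      refine ⟨fun hfe => h (by rw [hfe]), hf.1, hf.2.resolve_left h⟩
  have h2 := card_le_card h1
  have h3 := card_union_le (F.filter fun f => f.1 = e.1) ((F.filter fun f => f.2 = e.2).erase e)
  have h4 : e ∈ F.filter fun f => f.2 = e.2 := by simp [he]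
  rw [card_erase_of_mem h4, hF.1, hF.2] at h3
  omega

theorem cub_card {F : Finset (α × α)} (hF : IsCub F) : F.card = 3 * Fintype.card α := by
  have h1 : F.card = ∑ i : α, (F.filter fun e => e.1 = i).card :=
    card_eq_sum_card_fiberwise (fun _ _ => mem_coe.mpr (mem_univ _))
  rw [h1]
  simp only [hF.1]
  rw [sum_const, card_univ, smul_eq_mul, mul_comm]

theorem trip_card {F : Finset (α × α)} (hF : IsCub F) :
    3 * Fintype.card α * (3 * Fintype.card α - 5) * (3 * Fintype.card α - 10) ≤ (trip F).card := by
  classical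
  let S := F.sigma (fun e₀ => (F \ nb F e₀).sigma (fun e₁ => (F \ nb F e₀) \ nb F e₁))
  have hS : 3 * Fintype.card α * (3 * Fintype.card α - 5) * (3 * Fintype.card α - 10) ≤ S.card := by
    simp only [S, card_sigma]
    have h1 : ∀ e₀ ∈ F, (3 * Fintype.card α - 5) * (3 * Fintype.card α - 10) ≤
        ∑ e₁ ∈ F \ nb F e₀, ((F \ nb F e₀) \ nb F e₁).card := by
      intro e₀ he₀
      have hc0 := nb_card hF he₀
      have hk := le_card_sdiff (nb F e₀) F
      rw [cub_card hF] at hk
      calc (3 * Fintype.card α - 5) * (3 * Fintype.card α - 10)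
          ≤ (F \ nb F e₀).card * (3 * Fintype.card α - 10) :=
            Nat.mul_le_mul_right _ (by omega)
        _ = ∑ e₁ ∈ F \ nb F e₀, (3 * Fintype.card α - 10) := by rw [sum_const, smul_eq_mul]
        _ ≤ _ := by
            refine sum_le_sum fun e₁ he₁ => ?_
            have he₁' : e₁ ∈ F := (mem_sdiff.mp he₁).1
            have hc1 := nb_card hF he₁'
            have hk1 := le_card_sdiff (nb F e₁) (F \ nb F e₀)
            omega
    calc 3 * Fintype.card α * (3 * Fintype.card α - 5) * (3 * Fintype.card α - 10)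
        = ∑ e₀ ∈ F, ((3 * Fintype.card α - 5) * (3 * Fintype.card α - 10)) := by
          rw [sum_const, cub_card hF, smul_eq_mul, mul_assoc]
      _ ≤ _ := sum_le_sum h1
  refine hS.trans ?_
  refine card_le_card_of_injOn
    (fun z => (![z.1.1, z.2.1.1, z.2.2.1], ![z.1.2, z.2.1.2, z.2.2.2])) ?_ ?_
  · rintro ⟨⟨a, a'⟩, ⟨b, b'⟩, ⟨c, c'⟩⟩ hz
    simp only [S, mem_coe, mem_sigma, mem_sdiff, nb, mem_filter, not_and, not_or] at hz
    obtain ⟨h0, ⟨h1, h2⟩, ⟨h3, h4⟩, h5⟩ := hz
    have h2 := h2 h1
    have h4 := h4 h3
    have h5 := h5 h3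
    simp only [trip, mem_coe, mem_filter, mem_univ, true_and]
    refine ⟨⟨?_, ?_⟩, ?_⟩
    · intro k l hkl
      fin_cases k <;> fin_cases l <;> simp at hkl ⊢ <;> first
        | exact h2.1 hkl
        | exact h2.1 hkl.symm
        | exact h4.1 hkl
        | exact h4.1 hkl.symm
        | exact h5.1 hkl
        | exact h5.1 hkl.symm
    · intro k l hkl
      fin_cases k <;> fin_cases l <;> simp at hkl ⊢ <;> first
        | exact h2.2 hkl
        | exact h2.2 hkl.symm
        | exact h4.2 hkl
        | exact h4.2 hkl.symm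
        | exact h5.2 hkl
        | exact h5.2 hkl.symm
    · intro k
      fin_cases k
      · exact h0
      · exact h1
      · exact h3
  · rintro ⟨⟨a, a'⟩, ⟨b, b'⟩, ⟨c, c'⟩⟩ _ ⟨⟨u, u'⟩, ⟨v, v'⟩, ⟨w, w'⟩⟩ _ h
    simp only [Prod.mk.injEq] at h
    obtain ⟨h1, h2⟩ := h
    have a0 := congrFun h1 0
    have a1 := congrFun h1 1
    have a2 := congrFun h1 2
    have b0 := congrFun h2 0
    have b1 := congrFun h2 1
    have b2 := congrFun h2 2
    simp at a0 a1 a2 b0 b1 b2
    subst a0 a1 a2 b0 b1 b2
    rfl

open Classical in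
theorem emb_card (p : α → Prop) (h : (univ.filter p).card = 3) :
    (univ.filter (fun x : Fin 3 → α => Function.Injective x ∧ ∀ k, p (x k))).card ≤ 6 := by
  have h1 : Fintype.card (Fin 3 ↪ {a // p a}) = 6 := by
    rw [Fintype.card_embedding_eq, Fintype.card_subtype, h, Fintype.card_fin]
    rfl
  rw [← h1, ← card_univ]
  refine card_le_card_of_surjOn (fun f : Fin 3 ↪ {a // p a} => fun k => (f k : α)) ?_
  intro x hx
  simp only [mem_coe, mem_filter, mem_univ, true_and] at hx
  refine ⟨⟨fun k => ⟨x k, hx.2 k⟩, fun k l hkl => hx.1 (congrArg Subtype.val hkl)⟩, by simp, rfl⟩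

open Classical in
theorem pairs_card (G : Finset (Option α × Option α)) (hG : IsCub G)
    (hnn : (none, none) ∉ G) :
    (univ.filter (fun z : (Fin 3 → α) × (Fin 3 → α) =>
      (Function.Injective z.1 ∧ ∀ k, (some (z.1 k), none) ∈ G) ∧
      (Function.Injective z.2 ∧ ∀ k, (none, some (z.2 k)) ∈ G))).card ≤ 36 := by
  have h1 : (univ.filter (fun i : α => (some i, none) ∈ G)).card = 3 := by
    have h2 := hG.2 none
    rw [col_card, card_filter, Fintype.sum_option, if_neg hnn, zero_add, ← card_filter] at h2
    exact h2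
  have h1' : (univ.filter (fun i : α => (none, some i) ∈ G)).card = 3 := by
    have h2 := hG.1 none
    rw [row_card, card_filter, Fintype.sum_option, if_neg hnn, zero_add, ← card_filter] at h2
    exact h2
  have h2 := emb_card (fun i : α => (some i, none) ∈ G) (by convert h1)
  have h3 := emb_card (fun i : α => (none, some i) ∈ G) (by convert h1')
  have h4 : (univ.filter (fun z : (Fin 3 → α) × (Fin 3 → α) =>
      (Function.Injective z.1 ∧ ∀ k, (some (z.1 k), none) ∈ G) ∧
      (Function.Injective z.2 ∧ ∀ k, (none, some (z.2 k)) ∈ G))) =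
      (univ.filter (fun x : Fin 3 → α => Function.Injective x ∧ ∀ k, (some (x k), none) ∈ G)) ×ˢ
      (univ.filter (fun x : Fin 3 → α => Function.Injective x ∧ ∀ k, (none, some (x k)) ∈ G)) := by
    ext z
    simp only [mem_filter, mem_univ, true_and, mem_product]
  rw [h4, card_product]
  have h5 := Nat.mul_le_mul h2 h3
  convert h5


/-- Counting by insertion for a family of graphs: `T F` are the triples of edges which are used. -/
theorem card_family (𝒜 : Finset (Finset (α × α))) (ℬ : Finset (Finset (Option α × Option α)))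
    (T : Finset (α × α) → Finset ((Fin 3 → α) × (Fin 3 → α))) (t : ℕ)
    (h𝒜 : ∀ F ∈ 𝒜, IsCub F) (hℬ : ∀ G ∈ ℬ, IsCub G) (hT : ∀ F ∈ 𝒜, T F ⊆ trip F)
    (ht : ∀ F ∈ 𝒜, t ≤ (T F).card)
    (hins : ∀ F ∈ 𝒜, ∀ z ∈ T F, ins F z.1 z.2 ∈ ℬ) : 𝒜.card * t ≤ 36 * ℬ.card := by
  classical
  let P := 𝒜.sigma (fun F => T F)
  let Q := (ℬ.filter (fun G => (none, none) ∉ G)).sigma
    (fun G => univ.filter (fun z : (Fin 3 → α) × (Fin 3 → α) =>
      (Function.Injective z.1 ∧ ∀ k, (some (z.1 k), none) ∈ G) ∧
      (Function.Injective z.2 ∧ ∀ k, (none, some (z.2 k)) ∈ G)))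
  have hP : 𝒜.card * t ≤ P.card := by
    simp only [P, card_sigma]
    rw [← smul_eq_mul, ← sum_const]
    exact sum_le_sum fun F hF => ht F hF
  have hQ : Q.card ≤ 36 * ℬ.card := by
    simp only [Q, card_sigma]
    calc _ ≤ ∑ G ∈ ℬ.filter (fun G => (none, none) ∉ G), 36 := by
          refine sum_le_sum fun G hG => ?_
          rw [mem_filter] at hG
          exact pairs_card G (hℬ G hG.1) hG.2
      _ = (ℬ.filter (fun G => (none, none) ∉ G)).card * 36 := by
          rw [sum_const, smul_eq_mul]
      _ ≤ ℬ.card * 36 := Nat.mul_le_mul_right _ (card_le_card (filter_subset _ _))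
      _ = _ := mul_comm _ _
  refine hP.trans (le_trans ?_ hQ)
  refine card_le_card_of_injOn (fun z => ⟨ins z.1 z.2.1 z.2.2, z.2⟩) ?_ ?_
  · rintro ⟨F, x, y⟩ hz
    simp only [P, mem_coe, mem_sigma] at hz
    obtain ⟨hFA, hzT⟩ := hz
    have htr := hT F hFA hzT
    simp only [trip, mem_filter, mem_univ, true_and] at htr
    obtain ⟨⟨hx, hy⟩, hxy⟩ := htr
    simp only [Q, mem_coe, mem_sigma, mem_filter, mem_univ, true_and]
    refine ⟨⟨hins F hFA _ hzT, ?_⟩, ⟨hx, ?_⟩, hy, ?_⟩
    · simp [ins, insR]
    · intro k
      simp [ins, insR]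
    · intro k
      simp [ins, insR]
  · rintro ⟨F, x, y⟩ hz ⟨F', x', y'⟩ hz' h
    simp only [P, mem_coe, mem_sigma] at hz hz'
    have htr := hT F hz.1 hz.2
    have htr' := hT F' hz'.1 hz'.2
    simp only [trip, mem_filter, mem_univ, true_and] at htr htr'
    simp only [Sigma.mk.injEq, heq_eq_eq, Prod.mk.injEq] at h
    obtain ⟨h1, h2, h3⟩ := h
    subst h2 h3
    have h4 : F = F' := by
      ext ⟨i, j⟩
      by_cases hk : ∃ k, x k = i ∧ y k = j
      · obtain ⟨k, rfl, rfl⟩ := hk
        exact ⟨fun _ => htr'.2 k, fun _ => htr.2 k⟩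
      · have h5 : (some i, some j) ∈ ins F x y ↔ (some i, some j) ∈ ins F' x y := by rw [h1]
        simp only [ins, insR, mem_filter, mem_univ, true_and] at h5
        constructor
        · intro h6
          exact (h5.mp ⟨h6, fun k hk' => hk ⟨k, hk'⟩⟩).1
        · intro h6
          exact (h5.mpr ⟨h6, fun k hk' => hk ⟨k, hk'⟩⟩).1
    rw [h4]

theorem card_cubs_option :
    (cubs α).card *
      (3 * Fintype.card α * (3 * Fintype.card α - 5) * (3 * Fintype.card α - 10)) ≤
        36 * (cubs (Option α)).card := by
  refine card_family (cubs α) (cubs (Option α)) trip _ (fun F hF => by simpa [cubs] using hF)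
    (fun G hG => by simpa [cubs] using hG) (fun F _ => subset_rfl)
    (fun F hF => trip_card (by simpa [cubs] using hF)) (fun F hF z hz => ?_)
  simp only [trip, mem_filter, mem_univ, true_and] at hz
  simp only [cubs, mem_filter, mem_univ, true_and] at hF ⊢
  exact ins_cub F z.1 z.2 hz.1.1 hz.1.2 hF hz.2

theorem cub_map {α β : Type*} [Fintype α] [DecidableEq α] [Fintype β] [DecidableEq β]
    (e : α ≃ β) (F : Finset (α × α)) (hF : IsCub F) :
    IsCub (F.map (Equiv.prodCongr e e).toEmbedding) := by
  constructor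
  · intro i
    rw [filter_map, card_map, ← hF.1 (e.symm i)]
    congr 1
    ext f
    simp [Function.comp, Equiv.eq_symm_apply]
  · intro i
    rw [filter_map, card_map, ← hF.2 (e.symm i)]
    congr 1
    ext f
    simp [Function.comp, Equiv.eq_symm_apply]

theorem card_cubs_congr {β : Type*} [Fintype β] [DecidableEq β] (e : α ≃ β) :
    (cubs α).card = (cubs β).card := by
  refine card_bij' (fun F _ => F.map (Equiv.prodCongr e e).toEmbedding)
    (fun F _ => F.map (Equiv.prodCongr e.symm e.symm).toEmbedding) ?_ ?_ ?_ ?_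
  · intro F hF
    simp only [cubs, mem_filter, mem_univ, true_and] at hF ⊢
    exact cub_map e F hF
  · intro F hF
    simp only [cubs, mem_filter, mem_univ, true_and] at hF ⊢
    exact cub_map e.symm F hF
  · intro F _
    ext ⟨i, j⟩
    simp
  · intro F _
    ext ⟨i, j⟩
    simp

theorem one_le_card_cubs_four : 1 ≤ (cubs (Fin 4)).card := by
  rw [Nat.succ_le_iff, card_pos]
  refine ⟨univ.filter fun e : Fin 4 × Fin 4 => e.1 ≠ e.2, ?_⟩
  simp only [cubs, mem_filter, mem_univ, true_and]
  constructor <;> decide

end Pool.Agent.MP_7c0803
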