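import Pool.Agent.Lib_MP_7c0803_co.Defs

/-!
# Kempe classes of 3-edge-colourings of labelled cubic bipartite graphs: definitions
-/

open Finset Equiv Equiv.Perm SimpleGraph

namespace Pool.Agent.MP_7c0803

section

variable {W : Type*}

/-- The subgraph of `H` formed by the vertices coloured `a` or `b`. -/
def kempeGraph (H : SimpleGraph W) {k : ℕ} (c : H.Coloring (Fin k)) (a b : Fin k) :
    SimpleGraph W where
  Adj x y := H.Adj x y ∧ (c x = a ∨ c x = b) ∧ (c y = a ∨ c y = b)
  symm := ⟨fun _ _ h => ⟨h.1.symm, h.2.2, h.2.1⟩⟩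
  loopless := ⟨fun x h => H.loopless.irrefl x h.1⟩

open Classical in
/-- One Kempe change: the colours `a` and `b` are exchanged on one connected component of the
subgraph formed by the vertices coloured `a` or `b`. -/
def KempeStep (H : SimpleGraph W) (k : ℕ) (c c' : H.Coloring (Fin k)) : Prop :=
  ∃ a b : Fin k, a ≠ b ∧ ∃ x : W, (c x = a ∨ c x = b) ∧
    ∀ y, c' y = if (kempeGraph H c a b).Reachable x y then Equiv.swap a b (c y) else c y

/-- Number of Kempe equivalence classes of proper `k`-colourings of `H`. -/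
noncomputable def Kc (H : SimpleGraph W) (k : ℕ) : ℕ := Nat.card (Quot (KempeStep H k))

end

variable {α : Type*}

/-- `G` is a cubic bipartite graph with parts `α` (left) and `α` (right). -/
def IsCB (G : SimpleGraph (α ⊕ α)) : Prop :=
  (∀ a b, ¬ G.Adj (Sum.inl a) (Sum.inl b)) ∧ (∀ a b, ¬ G.Adj (Sum.inr a) (Sum.inr b)) ∧
    ∀ v, (G.neighborSet v).ncard = 3

open Classical in
/-- The edge set of `G` as a finset of pairs. -/
noncomputable def edgesOf [Fintype α] (G : SimpleGraph (α ⊕ α)) : Finset (α × α) :=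
  univ.filter fun e => G.Adj (Sum.inl e.1) (Sum.inr e.2)

theorem mem_edgesOf [Fintype α] (G : SimpleGraph (α ⊕ α)) (i j : α) :
    (i, j) ∈ edgesOf G ↔ G.Adj (Sum.inl i) (Sum.inr j) := by
  simp [edgesOf]

end Pool.Agent.MP_7c0803
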