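import Pool.Agent.Lib_MP_7c0803_co.Defs

/-!
# Piece SGS: exchanging two colour classes on a closed set of rows preserves the sign

Proof.  Let `γ = (p a)⁻¹ * q a`, `δ = (p b)⁻¹ * q b`.  Then `γ * δ = 1`: if `S i` fails then
`δ i = i` and `γ i = i`.  If `S i` holds, `q b i = p a i`; put `i' = δ i`, so `p b i' = p a i`.
`S i'` holds, otherwise `q b i' = p b i' = p a i = q b i`, so `i' = i`, a contradiction.  Hence
`γ i' = (p a)⁻¹ (q a i') = (p a)⁻¹ (p b i') = i`.  So `sign γ = sign δ` and
`sign (q a) * sign (q b) = sign (p a) * sign (p b)`; the third class is the same.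
-/

open Finset Equiv Equiv.Perm

namespace Pool.Agent.MP_7c0803

variable {α : Type*} [Fintype α] [DecidableEq α]

theorem sg_swap {p q : Fin 3 → Perm α} {a b : Fin 3} (hab : a ≠ b) (S : α → Prop)
    (h1 : ∀ i, S i → q a i = p b i ∧ q b i = p a i)
    (h2 : ∀ i, ¬ S i → q a i = p a i ∧ q b i = p b i)
    (h3 : ∀ c, c ≠ a → c ≠ b → q c = p c) : sg q = sg p := by
  have inv1 : ∀ (σ : Perm α) (x : α), σ (σ⁻¹ x) = x := fun σ x => σ.apply_symm_apply x
  have inv2 : ∀ (σ : Perm α) (x : α), σ⁻¹ (σ x) = x := fun σ x => σ.symm_apply_apply x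
  have hγδ : ((p a)⁻¹ * q a) * ((p b)⁻¹ * q b) = 1 := by
    ext i
    by_cases hi : S i
    · set i' := (p b)⁻¹ (q b i) with hi'
      have hpb : p b i' = p a i := by
        rw [hi', inv1, (h1 i hi).2]
      have hS : S i' := by
        by_contra hn
        have h4 : q b i' = q b i := by
          rw [(h2 i' hn).2, hpb, (h1 i hi).2]
        exact hn ((q b).injective h4 ▸ hi)
      show (p a)⁻¹ (q a i') = i
      rw [(h1 i' hS).1, hpb, inv2]
    · show (p a)⁻¹ (q a ((p b)⁻¹ (q b i))) = i
      rw [(h2 i hi).2, inv2, (h2 i hi).1, inv2]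
  have hsign : sign (q a) * sign (q b) = sign (p a) * sign (p b) := by
    have h4 := congrArg sign hγδ
    rw [Perm.sign_mul, Perm.sign_mul, Perm.sign_mul, Perm.sign_one, Perm.sign_inv,
      Perm.sign_inv] at h4
    have h5 := Int.units_mul_self (sign (p a))
    have h6 := Int.units_mul_self (sign (p b))
    calc sign (q a) * sign (q b)
        = (sign (p a) * sign (p a)) * (sign (p b) * sign (p b)) *
          (sign (q a) * sign (q b)) := by rw [h5, h6, one_mul, one_mul]
      _ = (sign (p a) * sign (p b)) *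
          (sign (p a) * sign (q a) * (sign (p b) * sign (q b))) := by
          simp only [mul_comm, mul_left_comm]
      _ = sign (p a) * sign (p b) := by rw [h4, mul_one]
  have hprod : ∀ r : Fin 3 → Perm α, sg r = ((sign (r a) * sign (r b) : ℤˣ) : ℤ) *
      ∏ k ∈ (univ.erase a).erase b, ((sign (r k) : ℤˣ) : ℤ) := by
    intro r
    unfold sg
    rw [← mul_prod_erase univ _ (mem_univ a),
      ← mul_prod_erase (univ.erase a) _ (mem_erase.2 ⟨hab.symm, mem_univ b⟩)]
    push_cast
    ring
  rw [hprod q, hprod p, hsign]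
  congr 1
  refine prod_congr rfl fun c hc => ?_
  rw [mem_erase, mem_erase] at hc
  rw [h3 c hc.2.1 hc.1]

end Pool.Agent.MP_7c0803
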