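import Pool.Agent.Lib_MP_7c0803_co.KDefs
import Pool.Agent.Lib_MP_7c0803_co.SgSwap

/-!
# Piece KEM: edge colourings of `G` as triples of permutations; the sign is a Kempe invariant

* `isCub_edgesOf`, `edgesOf_injOn`, `exists_graph`: `G ↦ edgesOf G` is a bijection from the graphs with
  `IsCB` to the finsets with `IsCub` (a bipartite graph is determined by the pairs `(i, j)` with
  `inl i ~ inr j`; `neighborSet (inl i)` is the image under `inr` of the row `i`, etc.).
* `kempe_equiv`: a colouring `c` of `G.lineGraph` (vertices `G.edgeSet`) gives for each colour `k` and row `i`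
  the unique column `p k i` such that the edge `s(inl i, inr (p k i))` has the colour `k` (the three edges at
  `inl i` are pairwise adjacent in the line graph and so have the three different colours); `p k` is injective
  because two edges with the same column are adjacent in the line graph.  Conversely `p ∈ Col` gives
  the colouring `c s(inl i, inr j) = k` iff `p k i = j`.
  A Kempe change (colours `a ≠ b`, component `K` of `x`): let `S i` say that the edge of colour `a` at
  `inl i` is in `K`.  The edges of colours `a`, `b` at `inl i` are adjacent in the line graph, so they are both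
  in `K` or both outside `K`.  Hence the new triple `q` satisfies the hypotheses of `sg_swap`.
-/

open Finset Equiv Equiv.Perm SimpleGraph

namespace Pool.Agent.MP_7c0803

variable {α : Type*} [Fintype α] [DecidableEq α]

private theorem km_row (F : Finset (α × α)) (i : α) :
    (F.filter fun e => e.1 = i).card = (univ.filter fun j => (i, j) ∈ F).card := by
  refine Finset.card_nbij' (fun e => e.2) (fun j => (i, j)) ?_ ?_ ?_ ?_
  · intro e he
    have h := mem_filter.1 (mem_coe.1 he)
    refine mem_coe.2 (mem_filter.2 ⟨mem_univ _, ?_⟩)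
    rw [← h.2]
    exact h.1
  · intro j hj
    have h := mem_filter.1 (mem_coe.1 hj)
    exact mem_coe.2 (mem_filter.2 ⟨h.2, rfl⟩)
  · intro e he
    have h := mem_filter.1 (mem_coe.1 he)
    exact Prod.ext h.2.symm rfl
  · intro j _
    rfl

private theorem km_col (F : Finset (α × α)) (j : α) :
    (F.filter fun e => e.2 = j).card = (univ.filter fun i => (i, j) ∈ F).card := by
  refine Finset.card_nbij' (fun e => e.1) (fun i => (i, j)) ?_ ?_ ?_ ?_
  · intro e he
    have h := mem_filter.1 (mem_coe.1 he)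
    refine mem_coe.2 (mem_filter.2 ⟨mem_univ _, ?_⟩)
    rw [← h.2]
    exact h.1
  · intro i hi
    have h := mem_filter.1 (mem_coe.1 hi)
    exact mem_coe.2 (mem_filter.2 ⟨h.2, rfl⟩)
  · intro e he
    have h := mem_filter.1 (mem_coe.1 he)
    exact Prod.ext rfl h.2.symm
  · intro i _
    rfl

private theorem km_nbl {G : SimpleGraph (α ⊕ α)} (h : ∀ a b, ¬ G.Adj (Sum.inl a) (Sum.inl b)) (i : α) :
    (G.neighborSet (Sum.inl i)).ncard = (univ.filter fun j => (i, j) ∈ edgesOf G).card := by
  have e : G.neighborSet (Sum.inl i) =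
      Sum.inr '' ((univ.filter fun j => (i, j) ∈ edgesOf G : Finset α) : Set α) := by
    ext v
    rw [SimpleGraph.mem_neighborSet, Set.mem_image]
    constructor
    · intro hv
      rcases v with a | j
      · exact absurd hv (h _ _)
      · exact ⟨j, mem_coe.2 (mem_filter.2 ⟨mem_univ _, (mem_edgesOf G i j).2 hv⟩), rfl⟩
    · rintro ⟨j, hj, rfl⟩
      exact (mem_edgesOf G i j).1 (mem_filter.1 (mem_coe.1 hj)).2
  rw [e, Set.ncard_image_of_injective _ Sum.inr_injective, Set.ncard_coe_finset]

private theorem km_nbr {G : SimpleGraph (α ⊕ α)} (h : ∀ a b, ¬ G.Adj (Sum.inr a) (Sum.inr b)) (j : α) :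
    (G.neighborSet (Sum.inr j)).ncard = (univ.filter fun i => (i, j) ∈ edgesOf G).card := by
  have e : G.neighborSet (Sum.inr j) =
      Sum.inl '' ((univ.filter fun i => (i, j) ∈ edgesOf G : Finset α) : Set α) := by
    ext v
    rw [SimpleGraph.mem_neighborSet, Set.mem_image]
    constructor
    · intro hv
      rcases v with i | a
      · exact ⟨i, mem_coe.2 (mem_filter.2 ⟨mem_univ _, (mem_edgesOf G i j).2 hv.symm⟩), rfl⟩
      · exact absurd hv (h _ _)
    · rintro ⟨i, hi, rfl⟩
      exact ((mem_edgesOf G i j).1 (mem_filter.1 (mem_coe.1 hi)).2).symm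
  rw [e, Set.ncard_image_of_injective _ Sum.inl_injective, Set.ncard_coe_finset]

theorem isCub_edgesOf {G : SimpleGraph (α ⊕ α)} (hG : IsCB G) : IsCub (edgesOf G) := by
  obtain ⟨h1, h2, h3⟩ := hG
  refine ⟨fun i => ?_, fun j => ?_⟩
  · rw [km_row, ← km_nbl h1, h3]
  · rw [km_col, ← km_nbr h2, h3]

theorem edgesOf_inj {G G' : SimpleGraph (α ⊕ α)} (hG : IsCB G) (hG' : IsCB G')
    (h : edgesOf G = edgesOf G') : G = G' := by
  have key : ∀ i j, G.Adj (Sum.inl i) (Sum.inr j) ↔ G'.Adj (Sum.inl i) (Sum.inr j) := by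
    intro i j
    rw [← mem_edgesOf, ← mem_edgesOf, h]
  ext u v
  rcases u with i | i <;> rcases v with j | j
  · exact ⟨fun h => absurd h (hG.1 _ _), fun h => absurd h (hG'.1 _ _)⟩
  · exact key i j
  · rw [SimpleGraph.adj_comm, key, SimpleGraph.adj_comm]
  · exact ⟨fun h => absurd h (hG.2.1 _ _), fun h => absurd h (hG'.2.1 _ _)⟩

/-- adjacency of the bipartite graph with the edge set `F` -/
private def kmAdj (F : Finset (α × α)) : α ⊕ α → α ⊕ α → Prop
  | .inl i, .inr j => (i, j) ∈ F
  | .inr j, .inl i => (i, j) ∈ F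
  | _, _ => False

theorem exists_graph {F : Finset (α × α)} (hF : IsCub F) :
    ∃ G : SimpleGraph (α ⊕ α), IsCB G ∧ edgesOf G = F := by
  let G : SimpleGraph (α ⊕ α) :=
    { Adj := kmAdj F
      symm := ⟨fun u v h => by
        rcases u with i | i <;> rcases v with j | j
        · exact h
        · exact h
        · exact h
        · exact h⟩
      loopless := ⟨fun u h => by
        rcases u with i | i
        · exact h
        · exact h⟩ }
  have hE : edgesOf G = F := by
    ext ⟨i, j⟩
    rw [mem_edgesOf]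
    exact Iff.rfl
  have h1 : ∀ a b, ¬ G.Adj (Sum.inl a) (Sum.inl b) := fun a b h => h
  have h2 : ∀ a b, ¬ G.Adj (Sum.inr a) (Sum.inr b) := fun a b h => h
  refine ⟨G, ⟨h1, h2, ?_⟩, hE⟩
  intro v
  rcases v with i | j
  · rw [km_nbl h1, ← km_row, hE, hF.1]
  · rw [km_nbr h2, ← km_col, hE, hF.2]

section col

variable {G : SimpleGraph (α ⊕ α)}

/-- an edge as a vertex of the line graph -/
private def kmE {i j : α} (h : G.Adj (Sum.inl i) (Sum.inr j)) : G.edgeSet :=
  ⟨s(Sum.inl i, Sum.inr j), (SimpleGraph.mem_edgeSet G).2 h⟩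

omit [Fintype α] [DecidableEq α] in
private theorem kmE_inj {i j i' j' : α} {h : G.Adj (Sum.inl i) (Sum.inr j)}
    {h' : G.Adj (Sum.inl i') (Sum.inr j')} (he : kmE h = kmE h') : i = i' ∧ j = j' := by
  have h1 : s((Sum.inl i : α ⊕ α), Sum.inr j) = s(Sum.inl i', Sum.inr j') := congrArg Subtype.val he
  rcases Sym2.eq_iff.1 h1 with ⟨h2, h3⟩ | ⟨h2, _⟩
  · exact ⟨Sum.inl_injective h2, Sum.inr_injective h3⟩
  · exact absurd h2 (by simp)

omit [Fintype α] [DecidableEq α] in
private theorem km_edge (hG : IsCB G) (e : G.edgeSet) :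
    ∃ (i j : α) (h : G.Adj (Sum.inl i) (Sum.inr j)), e = kmE h := by
  obtain ⟨e, he⟩ := e
  induction e using Sym2.ind with
  | _ u v =>
    have h : G.Adj u v := (SimpleGraph.mem_edgeSet G).1 he
    rcases u with i | i <;> rcases v with j | j
    · exact absurd h (hG.1 _ _)
    · exact ⟨i, j, h, rfl⟩
    · exact ⟨j, i, h.symm, Subtype.ext Sym2.eq_swap⟩
    · exact absurd h (hG.2.1 _ _)

omit [Fintype α] [DecidableEq α] in
private theorem km_adj_row {i j j' : α} (h : G.Adj (Sum.inl i) (Sum.inr j))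
    (h' : G.Adj (Sum.inl i) (Sum.inr j')) (hne : j ≠ j') : G.lineGraph.Adj (kmE h) (kmE h') := by
  rw [lineGraph_adj_iff_exists]
  refine ⟨fun he => hne (kmE_inj he).2, Sum.inl i, ?_, ?_⟩
  · exact Sym2.mem_mk_left _ _
  · exact Sym2.mem_mk_left _ _

omit [Fintype α] [DecidableEq α] in
private theorem km_adj_col {i i' j : α} (h : G.Adj (Sum.inl i) (Sum.inr j))
    (h' : G.Adj (Sum.inl i') (Sum.inr j)) (hne : i ≠ i') : G.lineGraph.Adj (kmE h) (kmE h') := by
  rw [lineGraph_adj_iff_exists]
  refine ⟨fun he => hne (kmE_inj he).1, Sum.inr j, ?_, ?_⟩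
  · exact Sym2.mem_mk_right _ _
  · exact Sym2.mem_mk_right _ _

/-- the edge `i j` has the colour `k` -/
private def kmP (c : G.lineGraph.Coloring (Fin 3)) (k : Fin 3) (i j : α) : Prop :=
  ∃ h : G.Adj (Sum.inl i) (Sum.inr j), c (kmE h) = k

omit [Fintype α] [DecidableEq α] in
private theorem km_urow (c : G.lineGraph.Coloring (Fin 3)) {k : Fin 3} {i j j' : α} (h : kmP c k i j)
    (h' : kmP c k i j') : j = j' := by
  obtain ⟨h1, h2⟩ := h
  obtain ⟨h3, h4⟩ := h'
  by_contra hne
  exact c.valid (km_adj_row h1 h3 hne) (h2.trans h4.symm)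

omit [Fintype α] [DecidableEq α] in
private theorem km_ucol (c : G.lineGraph.Coloring (Fin 3)) {k : Fin 3} {i i' j : α} (h : kmP c k i j)
    (h' : kmP c k i' j) : i = i' := by
  obtain ⟨h1, h2⟩ := h
  obtain ⟨h3, h4⟩ := h'
  by_contra hne
  exact c.valid (km_adj_col h1 h3 hne) (h2.trans h4.symm)

private theorem km_exists (hG : IsCB G) (c : G.lineGraph.Coloring (Fin 3)) (k : Fin 3) (i : α) :
    ∃ j, kmP c k i j := by
  classical
  have hcard : Fintype.card {j // G.Adj (Sum.inl i) (Sum.inr j)} = 3 := by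
    rw [Fintype.card_subtype]
    have h1 := km_nbl hG.1 i
    rw [hG.2.2] at h1
    rw [h1]
    refine congrArg _ (Finset.filter_congr fun j _ => ?_)
    exact (mem_edgesOf G i j).symm
  have hinj : Function.Injective (fun j : {j // G.Adj (Sum.inl i) (Sum.inr j)} => c (kmE j.2)) := by
    intro j j' h
    exact Subtype.ext (km_urow c (k := c (kmE j.2)) ⟨j.2, rfl⟩ ⟨j'.2, h.symm⟩)
  have hbij := (Fintype.bijective_iff_injective_and_card _).2 ⟨hinj, by rw [hcard, Fintype.card_fin]⟩
  obtain ⟨j, hj⟩ := hbij.2 k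
  exact ⟨j.1, j.2, hj⟩

/-- the column of colour `k` in the row `i` -/
private noncomputable def kmJ (hG : IsCB G) (c : G.lineGraph.Coloring (Fin 3)) (k : Fin 3) (i : α) : α :=
  (km_exists hG c k i).choose

private theorem kmJ_spec (hG : IsCB G) (c : G.lineGraph.Coloring (Fin 3)) (k : Fin 3) (i : α) :
    kmP c k i (kmJ hG c k i) := (km_exists hG c k i).choose_spec

private theorem kmJ_iff (hG : IsCB G) (c : G.lineGraph.Coloring (Fin 3)) (k : Fin 3) (i j : α) :
    kmJ hG c k i = j ↔ kmP c k i j := by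
  constructor
  · rintro rfl
    exact kmJ_spec hG c k i
  · intro h
    exact km_urow c (kmJ_spec hG c k i) h

private theorem kmJ_inj (hG : IsCB G) (c : G.lineGraph.Coloring (Fin 3)) (k : Fin 3) :
    Function.Injective (kmJ hG c k) := by
  intro i i' h
  have h1 := kmJ_spec hG c k i
  rw [h] at h1
  exact km_ucol c h1 (kmJ_spec hG c k i')

/-- the triple of permutations of a colouring -/
private noncomputable def kmT (hG : IsCB G) (c : G.lineGraph.Coloring (Fin 3)) (k : Fin 3) : Perm α :=
  Equiv.ofBijective (kmJ hG c k) (Finite.injective_iff_bijective.1 (kmJ_inj hG c k))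

private theorem kmT_iff (hG : IsCB G) (c : G.lineGraph.Coloring (Fin 3)) (k : Fin 3) (i j : α) :
    kmT hG c k i = j ↔ kmP c k i j := kmJ_iff hG c k i j

private theorem kmT_mem (hG : IsCB G) (c : G.lineGraph.Coloring (Fin 3)) : kmT hG c ∈ Col (edgesOf G) := by
  rw [Col, mem_filter]
  refine ⟨mem_univ _, fun i j => ?_⟩
  rw [mem_edgesOf]
  constructor
  · intro h
    exact ⟨c (kmE h), (kmT_iff hG c _ i j).2 ⟨h, rfl⟩⟩
  · rintro ⟨k, hk⟩
    exact ((kmT_iff hG c k i j).1 hk).1

private theorem kmT_inj (hG : IsCB G) {c c' : G.lineGraph.Coloring (Fin 3)} (h : kmT hG c = kmT hG c') :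
    c = c' := by
  refine DFunLike.ext _ _ fun e => ?_
  obtain ⟨i, j, hij, rfl⟩ := km_edge hG e
  have h1 : kmT hG c (c (kmE hij)) i = j := (kmT_iff hG c _ i j).2 ⟨hij, rfl⟩
  rw [h] at h1
  obtain ⟨_, h2⟩ := (kmT_iff hG c' _ i j).1 h1
  exact h2.symm

private theorem kmT_surj (hG : IsCB G) {p : Fin 3 → Perm α} (hp : p ∈ Col (edgesOf G)) :
    ∃ c : G.lineGraph.Coloring (Fin 3), kmT hG c = p := by
  classical
  rw [Col, mem_filter] at hp
  have hp2 : ∀ i j, G.Adj (Sum.inl i) (Sum.inr j) ↔ ∃ k, p k i = j := fun i j => by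
    rw [← mem_edgesOf]
    exact hp.2 i j
  have hex : ∀ e : G.edgeSet, ∃ (k : Fin 3) (i : α) (h : G.Adj (Sum.inl i) (Sum.inr (p k i))), e = kmE h := by
    intro e
    obtain ⟨i, j, hij, rfl⟩ := km_edge hG e
    obtain ⟨k, rfl⟩ := (hp2 i j).1 hij
    exact ⟨k, i, hij, rfl⟩
  choose f hf using hex
  -- the colours of a row are different
  have hrow : ∀ i, Function.Injective (fun k => p k i) := by
    intro i
    have h1 := km_nbl hG.1 i
    rw [hG.2.2] at h1
    have h2 : (univ.filter fun j => (i, j) ∈ edgesOf G) = univ.image (fun k => p k i) := by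
      ext j
      rw [mem_filter, mem_image, mem_edgesOf, hp2]
      constructor
      · rintro ⟨_, k, hk⟩
        exact ⟨k, mem_univ _, hk⟩
      · rintro ⟨k, _, hk⟩
        exact ⟨mem_univ _, k, hk⟩
    rw [h2] at h1
    have h3 : (univ.image (fun k => p k i)).card = (univ : Finset (Fin 3)).card := by
      rw [← h1, card_univ, Fintype.card_fin]
    have h4 := Finset.card_image_iff.1 h3
    intro k k' h
    exact h4 (mem_coe.2 (mem_univ _)) (mem_coe.2 (mem_univ _)) h
  have hvalid : ∀ {e e' : G.edgeSet}, G.lineGraph.Adj e e' → f e ≠ f e' := by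
    intro e e' hadj heq
    obtain ⟨i, h, he⟩ := hf e
    obtain ⟨i', h', he'⟩ := hf e'
    rw [lineGraph_adj_iff_exists] at hadj
    obtain ⟨hne, v, hv, hv'⟩ := hadj
    have hii : i = i' := by
      rw [he] at hv
      rw [he'] at hv'
      have h1 : v = Sum.inl i ∨ v = Sum.inr (p (f e) i) := Sym2.mem_iff.1 hv
      have h2 : v = Sum.inl i' ∨ v = Sum.inr (p (f e') i') := Sym2.mem_iff.1 hv'
      rcases h1 with h1 | h1
      · rcases h2 with h2 | h2
        · exact Sum.inl_injective (h1.symm.trans h2)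
        · exact absurd (h1.symm.trans h2) (by simp)
      · rcases h2 with h2 | h2
        · exact absurd (h1.symm.trans h2) (by simp)
        · have h3 := Sum.inr_injective (h1.symm.trans h2)
          rw [heq] at h3
          exact (p (f e')).injective h3
    apply hne
    rw [he, he']
    refine Subtype.ext ?_
    show s((Sum.inl i : α ⊕ α), Sum.inr (p (f e) i)) = s(Sum.inl i', Sum.inr (p (f e') i'))
    rw [hii, heq]
  refine ⟨SimpleGraph.Coloring.mk f hvalid, ?_⟩
  funext k
  refine Equiv.ext fun i => ?_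
  rw [kmT_iff]
  have hadj : G.Adj (Sum.inl i) (Sum.inr (p k i)) := (hp2 i _).2 ⟨k, rfl⟩
  refine ⟨hadj, ?_⟩
  show f (kmE hadj) = k
  obtain ⟨i', h', he'⟩ := hf (kmE hadj)
  obtain ⟨h1, h2⟩ := kmE_inj he'
  subst h1
  exact hrow i h2.symm

end col

theorem kempe_equiv {G : SimpleGraph (α ⊕ α)} (hG : IsCB G) :
    ∃ e : G.lineGraph.Coloring (Fin 3) ≃ {p : Fin 3 → Perm α // p ∈ Col (edgesOf G)},
      ∀ c c' : G.lineGraph.Coloring (Fin 3), KempeStep G.lineGraph 3 c c' →
        sg (e c).1 = sg (e c').1 := by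
  classical
  refine ⟨Equiv.ofBijective (fun c => ⟨kmT hG c, kmT_mem hG c⟩) ⟨?_, ?_⟩, ?_⟩
  · intro c c' h
    exact kmT_inj hG (congrArg Subtype.val h)
  · rintro ⟨p, hp⟩
    obtain ⟨c, hc⟩ := kmT_surj hG hp
    exact ⟨c, Subtype.ext hc⟩
  · rintro c c' ⟨a, b, hab, x, _, hc⟩
    show sg (kmT hG c) = sg (kmT hG c')
    -- the edges of the row `i`
    have hsp : ∀ k i, kmP c k i (kmT hG c k i) := fun k i => (kmT_iff hG c k i _).1 rfl
    have hadj : ∀ k i, G.Adj (Sum.inl i) (Sum.inr (kmT hG c k i)) := fun k i => (hsp k i).1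
    have hcol : ∀ k i, c (kmE (hadj k i)) = k := fun k i => (hsp k i).2
    have hq : ∀ k k' i, c' (kmE (hadj k i)) = k' → kmT hG c' k' i = kmT hG c k i := by
      intro k k' i h
      exact (kmT_iff hG c' k' i _).2 ⟨hadj k i, h⟩
    have hreach : ∀ i, (kempeGraph G.lineGraph c a b).Reachable x (kmE (hadj a i)) ↔
        (kempeGraph G.lineGraph c a b).Reachable x (kmE (hadj b i)) := by
      intro i
      have hne : kmT hG c a i ≠ kmT hG c b i := by
        intro h
        have h1 : kmP c b i (kmT hG c a i) := by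
          rw [h]
          exact hsp b i
        obtain ⟨h2, h3⟩ := h1
        obtain ⟨h4, h5⟩ := hsp a i
        exact hab (h5.symm.trans h3)
      have hA : (kempeGraph G.lineGraph c a b).Adj (kmE (hadj a i)) (kmE (hadj b i)) :=
        ⟨km_adj_row _ _ hne, Or.inl (hcol a i), Or.inr (hcol b i)⟩
      exact ⟨fun h => h.trans hA.reachable, fun h => h.trans hA.symm.reachable⟩
    refine (sg_swap hab (fun i => (kempeGraph G.lineGraph c a b).Reachable x (kmE (hadj a i))) ?_ ?_ ?_).symm
    · intro i hi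
      refine ⟨hq b a i ?_, hq a b i ?_⟩
      · rw [hc, if_pos ((hreach i).1 hi), hcol, Equiv.swap_apply_right]
      · rw [hc, if_pos hi, hcol, Equiv.swap_apply_left]
    · intro i hi
      refine ⟨hq a a i ?_, hq b b i ?_⟩
      · rw [hc, if_neg hi, hcol]
      · rw [hc, if_neg (fun h => hi ((hreach i).2 h)), hcol]
    · intro k hka hkb
      refine Equiv.ext fun i => hq k k i ?_
      rw [hc, hcol]
      split_ifs
      · exact Equiv.swap_apply_of_ne_of_ne hka hkb
      · rfl

end Pool.Agent.MP_7c0803
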