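import Pool.Agent.Lib_MP_7c0803_co.Defs

/-!
# Piece LAB: every simple cubic bipartite graph is given by a configuration

Proof.  Let `E = {e // e ∈ F}`.  For each row `i` the fibre `{e : E // e.1.1 = i}` has 3 elements,
so `E ≃ Σ i, {e : E // e.1.1 = i} ≃ α × Fin 3` by an equivalence `r` with `(r e).1 = e.1.1`
(`Equiv.sigmaFiberEquiv`, `Fintype.equivFinOfCardEq`, `Equiv.sigmaEquivProd`).  In the same way for
the columns: `c : E ≃ α × Fin 3` with `(c e).1 = e.1.2`.  Put `Φ = r.symm.trans c`.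
-/

open Finset Equiv Equiv.Perm

namespace Pool.Agent.MP_7c0803

variable {α : Type*} [Fintype α] [DecidableEq α]

private theorem lab_equiv {F : Finset (α × α)} (f : α × α → α)
    (h : ∀ i, (F.filter fun e => f e = i).card = 3) :
    ∃ r : {e // e ∈ F} ≃ α × Fin 3, ∀ e, (r e).1 = f e.1 := by
  have hc : ∀ a : α, Fintype.card {e : {e // e ∈ F} // f e.1 = a} = 3 := by
    intro a
    rw [← h a, Fintype.card_subtype]
    have h2 : (F.filter fun e => f e = a) =
        (Finset.univ.filter fun e : {e // e ∈ F} => f e.1 = a).map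
          ⟨Subtype.val, Subtype.val_injective⟩ := by
      ext e
      simp only [Finset.mem_filter, Finset.mem_map, Finset.mem_univ, true_and,
        Function.Embedding.coeFn_mk, Subtype.exists, exists_and_left, exists_prop, exists_eq_right_right]
      constructor
      · rintro ⟨h1, h2⟩
        exact ⟨h2, h1⟩
      · rintro ⟨h1, h2⟩
        exact ⟨h2, h1⟩
    rw [h2, Finset.card_map]
  refine ⟨(Equiv.sigmaFiberEquiv (fun e : {e // e ∈ F} => f e.1)).symm.trans
    ((Equiv.sigmaCongrRight (fun a => (Fintype.equivFinOfCardEq (hc a)))).trans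
      (Equiv.sigmaEquivProd α (Fin 3))), fun e => rfl⟩

theorem exists_Phi {F : Finset (α × α)} (hF : IsCub F) :
    ∃ Φ : Perm (α × Fin 3), ∀ i j, (i, j) ∈ F ↔ ∃ k, (Φ (i, k)).1 = j := by
  obtain ⟨r, hr⟩ := lab_equiv (F := F) (fun e => e.1) hF.1
  obtain ⟨c, hc⟩ := lab_equiv (F := F) (fun e => e.2) hF.2
  refine ⟨r.symm.trans c, fun i j => ⟨fun h => ?_, ?_⟩⟩
  · refine ⟨(r ⟨(i, j), h⟩).2, ?_⟩
    have h1 : (i, (r ⟨(i, j), h⟩).2) = r ⟨(i, j), h⟩ := by
      rw [Prod.ext_iff]
      exact ⟨(hr ⟨(i, j), h⟩).symm, rfl⟩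
    rw [Equiv.trans_apply, h1, Equiv.symm_apply_apply, hc]
  · rintro ⟨k, hk⟩
    rw [Equiv.trans_apply, hc] at hk
    have h1 := hr (r.symm (i, k))
    rw [Equiv.apply_symm_apply] at h1
    have h2 : (r.symm (i, k)).1 = (i, j) := Prod.ext h1.symm hk
    rw [← h2]
    exact (r.symm (i, k)).2

end Pool.Agent.MP_7c0803
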