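import Pool.Agent.Lib_MP_7c0803_co.Defs

/-!
# Piece NUM: the numerical recursion

Proof.  `PP (m+1) = PP m * ((m+1) (m+2) (m+3))` and
`N (m+1) ≥ N m * (3m (3m-5) (3m-10)) / 36 = (3/4) m (m - 5/3) (m - 10/3) N m`, so the quotient
`R m = PP m / (m^12 (4/3)^m N m)` satisfies
`R (m+1) ≤ R m * ((m+1)(m+2)(m+3) m^12) / ((m+1)^12 m (m-5/3) (m-10/3))`, and the factor is `≤ 1` for all
`m ≥ m₁` (the first order terms are `6 + 5 = 11 < 12`; `m₁ = 100` is certainly enough).  `N m ≥ 1` for all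
`m ≥ 4` (the factor is positive).  Take `C` the maximum of `1` and the `R m`, `4 ≤ m ≤ m₁`.
-/

open Finset Equiv Equiv.Perm

namespace Pool.Agent.MP_7c0803

private theorem num_ineq (m : ℝ) (hm : 16 ≤ m) :
    9 * m ^ 12 * ((m + 1) * (m + 2) * (m + 3)) ≤ (m + 1) ^ 12 * (m * (3 * m - 5) * (3 * m - 10)) := by
  have h1 : m ^ 11 + 11 * m ^ 10 + 55 * m ^ 9 ≤ (m + 1) ^ 11 := by
    have h2 : (m + 1) ^ 11 - (m ^ 11 + 11 * m ^ 10 + 55 * m ^ 9) = 165 * m ^ 8 + 330 * m ^ 7 +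
        462 * m ^ 6 + 462 * m ^ 5 + 330 * m ^ 4 + 165 * m ^ 3 + 55 * m ^ 2 + 11 * m + 1 := by ring
    have h3 : 0 ≤ (m + 1) ^ 11 - (m ^ 11 + 11 * m ^ 10 + 55 * m ^ 9) := by
      rw [h2]; positivity
    linarith
  have h4 : 0 ≤ (3 * m - 5) * (3 * m - 10) := by
    apply mul_nonneg <;> linarith
  have h5 : 9 * m ^ 2 * ((m + 2) * (m + 3)) ≤ (m ^ 2 + 11 * m + 55) * ((3 * m - 5) * (3 * m - 10)) := by
    have h6 : (m ^ 2 + 11 * m + 55) * ((3 * m - 5) * (3 * m - 10)) - 9 * m ^ 2 * ((m + 2) * (m + 3)) =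
        9 * m ^ 3 - 4 * m ^ 2 - 1925 * m + 2750 := by ring
    have h7 : 0 ≤ 9 * m ^ 3 - 4 * m ^ 2 - 1925 * m + 2750 := by
      nlinarith [mul_nonneg (mul_nonneg (by linarith : (0:ℝ) ≤ m) (by linarith : (0:ℝ) ≤ m - 16))
        (by linarith : (0:ℝ) ≤ m), mul_nonneg (by linarith : (0:ℝ) ≤ m) (by linarith : (0:ℝ) ≤ m - 16)]
    linarith
  have h8 : 9 * m ^ 11 * ((m + 2) * (m + 3)) ≤ (m + 1) ^ 11 * ((3 * m - 5) * (3 * m - 10)) := by
    calc 9 * m ^ 11 * ((m + 2) * (m + 3)) = m ^ 9 * (9 * m ^ 2 * ((m + 2) * (m + 3))) := by ring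
      _ ≤ m ^ 9 * ((m ^ 2 + 11 * m + 55) * ((3 * m - 5) * (3 * m - 10))) :=
        mul_le_mul_of_nonneg_left h5 (by positivity)
      _ = (m ^ 11 + 11 * m ^ 10 + 55 * m ^ 9) * ((3 * m - 5) * (3 * m - 10)) := by ring
      _ ≤ (m + 1) ^ 11 * ((3 * m - 5) * (3 * m - 10)) := mul_le_mul_of_nonneg_right h1 h4
  calc 9 * m ^ 12 * ((m + 1) * (m + 2) * (m + 3)) = (m * (m + 1)) * (9 * m ^ 11 * ((m + 2) * (m + 3))) := by
        ring
    _ ≤ (m * (m + 1)) * ((m + 1) ^ 11 * ((3 * m - 5) * (3 * m - 10))) :=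
        mul_le_mul_of_nonneg_left h8 (by positivity)
    _ = _ := by ring


theorem num_rec (N : ℕ → ℕ) (h4 : 1 ≤ N 4)
    (hN : ∀ m, 4 ≤ m → N m * (3 * m * (3 * m - 5) * (3 * m - 10)) ≤ 36 * N (m + 1)) :
    ∃ C : ℝ, 0 < C ∧ ∀ m, 4 ≤ m → (PP m : ℝ) ≤ C * (m : ℝ) ^ 12 * (4 / 3 : ℝ) ^ m * (N m : ℝ) := by
  have hpos : ∀ m, 4 ≤ m → 1 ≤ N m := by
    intro m hm
    induction m, hm using Nat.le_induction with
    | base => exact h4
    | succ m hm ih =>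
      have h1 := hN m hm
      have h2 : 1 ≤ N m * (3 * m * (3 * m - 5) * (3 * m - 10)) := by
        have h3 : 0 < 3 * m := by omega
        have h4 : 0 < 3 * m - 5 := by omega
        have h5 : 0 < 3 * m - 10 := by omega
        have := Nat.mul_pos ih (Nat.mul_pos (Nat.mul_pos h3 h4) h5)
        exact this
      omega
  have hPP : ∀ m, PP (m + 1) = PP m * ((m + 1) * (m + 2) * (m + 3)) := by
    intro m
    unfold PP
    rw [prod_range_succ]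
  let C : ℝ := 1 + ∑ m ∈ range 17, (PP m : ℝ)
  have hC : 0 < C := by
    have : 0 ≤ ∑ m ∈ range 17, (PP m : ℝ) := sum_nonneg fun _ _ => Nat.cast_nonneg _
    simp only [C]; linarith
  refine ⟨C, hC, ?_⟩
  have hsmall : ∀ m, 4 ≤ m → m ≤ 16 → (PP m : ℝ) ≤ C * (m : ℝ) ^ 12 * (4 / 3 : ℝ) ^ m * (N m : ℝ) := by
    intro m hm hm'
    have h1 : (PP m : ℝ) ≤ C := by
      have := single_le_sum (f := fun m => (PP m : ℝ)) (fun i _ => Nat.cast_nonneg _)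
        (mem_range.mpr (by omega : m < 17))
      simp only [C]; linarith
    have h2 : (1 : ℝ) ≤ (m : ℝ) ^ 12 := by
      apply one_le_pow₀
      exact_mod_cast (by omega : 1 ≤ m)
    have h3 : (1 : ℝ) ≤ (4 / 3 : ℝ) ^ m := one_le_pow₀ (by norm_num)
    have h4 : (1 : ℝ) ≤ (N m : ℝ) := by exact_mod_cast hpos m hm
    have h5 : C * 1 * 1 * 1 ≤ C * (m : ℝ) ^ 12 * (4 / 3 : ℝ) ^ m * (N m : ℝ) := by
      gcongr
    linarith
  intro m hm
  by_cases h16 : m ≤ 16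
  · exact hsmall m hm h16
  · have h16' : 16 ≤ m := by omega
    clear h16 hm
    induction m, h16' using Nat.le_induction with
    | base => exact hsmall 16 (by norm_num) le_rfl
    | succ m hm ih =>
      have hm' : (16 : ℝ) ≤ (m : ℝ) := by exact_mod_cast hm
      have h1 : (N m : ℝ) * (3 * m * (3 * m - 5) * (3 * m - 10)) ≤ 36 * (N (m + 1) : ℝ) := by
        have h2 := hN m (by omega)
        have h3 : ((N m * (3 * m * (3 * m - 5) * (3 * m - 10)) : ℕ) : ℝ) ≤ ((36 * N (m + 1) : ℕ) : ℝ) := by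
          exact_mod_cast h2
        push_cast [Nat.cast_sub (by omega : 5 ≤ 3 * m), Nat.cast_sub (by omega : 10 ≤ 3 * m)] at h3
        exact h3
      have h2 := num_ineq m hm'
      rw [hPP]
      push_cast
      have hQ : (0 : ℝ) ≤ (m + 1) * (m + 2) * (m + 3) := by positivity
      calc (PP m : ℝ) * ((m + 1) * (m + 2) * (m + 3))
          ≤ (C * (m : ℝ) ^ 12 * (4 / 3 : ℝ) ^ m * (N m : ℝ)) * ((m + 1) * (m + 2) * (m + 3)) :=
            mul_le_mul_of_nonneg_right ih hQ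
        _ = C * (4 / 3 : ℝ) ^ m * (N m : ℝ) / 9 * (9 * (m : ℝ) ^ 12 * ((m + 1) * (m + 2) * (m + 3))) := by
            ring
        _ ≤ C * (4 / 3 : ℝ) ^ m * (N m : ℝ) / 9 * (((m : ℝ) + 1) ^ 12 * (m * (3 * m - 5) * (3 * m - 10))) :=
            mul_le_mul_of_nonneg_left h2 (by positivity)
        _ = C * (4 / 3 : ℝ) ^ m / 27 * ((m : ℝ) + 1) ^ 12 * ((N m : ℝ) * (3 * m * (3 * m - 5) * (3 * m - 10))) := by
            ring
        _ ≤ C * (4 / 3 : ℝ) ^ m / 27 * ((m : ℝ) + 1) ^ 12 * (36 * (N (m + 1) : ℝ)) :=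
            mul_le_mul_of_nonneg_left h1 (by positivity)
        _ = C * ((m : ℝ) + 1) ^ 12 * (4 / 3 : ℝ) ^ (m + 1) * (N (m + 1) : ℝ) := by
            rw [pow_succ (4 / 3 : ℝ) m]; ring

end Pool.Agent.MP_7c0803
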