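import Pool.Agent.Lib_MP_7c0803_co.PerExp

/-!
# Piece VOO: Voorhoeve's lower bound for the number of perfect matchings

`voor_def`: all row sums are 3 except the row `r` (sum 2), all column sums are 3 except the column `c`
(sum 2).  Induction on `m`, `card α = m + 1`.
Case `m = 0`: `A` is the `1 × 1` matrix `(2)`, `per A = 2`.
Step `card α = m + 2`: by `per_equiv` (with an equivalence `Option β ≃ α`) we may assume that the index
set is `Option β`, that the deficient row is `none` and that `A none none > 0` (permute the columns).
(a) `A none none = 2`: then `A none (some k) = 0` and `per A = 2 per C`, `C = (A (some i) (some j))`.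
If the column `none` is not deficient, it has exactly one more unit, in a row `some r'`: `C` is of the
same type (`r'` deficient, same deficient column) and `per A ≥ 2 (2 (4/3)^m)`.  If the column `none` is
deficient, `C` is cubic, and `per C ≥ 3 (4/3)^m` by `cub_of_def`.
(b) `A none none = 1`: there is exactly one `k` with `A none (some k) = 1`.  By `per_option` and
`per_col_add`, `per A = per C[k := w]`, where `w i = A (some i) (some k) + A (some i) none`.
If neither of the columns `none`, `some k` is deficient then `∑ w = 4` and, by `per_col_sum` with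
`∑_t w t * (w - e_t) = 3 w` (where `e_t` is the unit vector),
`3 per C[k := w] = ∑_t w t per C[k := w - e_t]`, and each `C[k := w - e_t]` with `w t > 0` is of the same
type (`t` deficient row).  So `3 per A ≥ 4 (2 (4/3)^m)`.
If one of the two columns is deficient then `∑ w = 3` and `C[k := w]` is cubic: `per A ≥ 3 (4/3)^m`.
`cub_of_def` : if the bound holds for all matrices of the first type (size `m + 1`), then for a cubic
matrix `A` of the same size: choose any column `k`, `w` = the column, `∑ w = 3`,
`∑_t w t (w - e_t) = 2 w`, so `2 per A = ∑_t w t per A[k := w - e_t] ≥ 3 (2 (4/3)^m)`.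
-/

open Finset Equiv Equiv.Perm

namespace Pool.Agent.MP_7c0803

/-- subtract one unit from the entry `(t, k)` -/
def voor_sub {α : Type*} [DecidableEq α] (A : α → α → ℕ) (k t : α) (i j : α) : ℕ :=
  if j = k then (if i = t then A i k - 1 else A i k) else A i j

theorem voor_sub_row {α : Type*} [Fintype α] [DecidableEq α] (A : α → α → ℕ) {k t : α}
    (h : 0 < A t k) (i : α) :
    ∑ j, voor_sub A k t i j + (if i = t then 1 else 0) = ∑ j, A i j := by
  have h1 : ∑ j, voor_sub A k t i j = voor_sub A k t i k + ∑ j ∈ univ.erase k, A i j := by
    rw [← Finset.add_sum_erase univ _ (mem_univ k)]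
    congr 1
    refine Finset.sum_congr rfl fun j hj => ?_
    unfold voor_sub
    rw [if_neg (Finset.ne_of_mem_erase hj)]
  rw [h1, ← Finset.add_sum_erase univ (A i) (mem_univ k)]
  unfold voor_sub
  rw [if_pos rfl]
  by_cases hi : i = t
  · subst hi
    rw [if_pos rfl, if_pos rfl]
    omega
  · rw [if_neg hi, if_neg hi]
    omega

theorem voor_sub_col {α : Type*} [Fintype α] [DecidableEq α] (A : α → α → ℕ) {k t : α}
    (h : 0 < A t k) (j : α) :
    ∑ i, voor_sub A k t i j + (if j = k then 1 else 0) = ∑ i, A i j := by
  by_cases hj : j = k
  · subst hj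
    rw [if_pos rfl]
    have h1 : ∑ i, voor_sub A j t i j = (A t j - 1) + ∑ i ∈ univ.erase t, A i j := by
      rw [← Finset.add_sum_erase univ _ (mem_univ t)]
      congr 1
      · unfold voor_sub
        rw [if_pos rfl, if_pos rfl]
      · refine Finset.sum_congr rfl fun i hi => ?_
        unfold voor_sub
        rw [if_pos rfl, if_neg (Finset.ne_of_mem_erase hi)]
    rw [h1, ← Finset.add_sum_erase univ (fun i => A i j) (mem_univ t)]
    omega
  · rw [if_neg hj, add_zero]
    refine Finset.sum_congr rfl fun i _ => ?_
    unfold voor_sub
    rw [if_neg hj]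

theorem voor_col {α : Type*} [Fintype α] [DecidableEq α] (A : α → α → ℕ) (k : α) (s X Y : ℕ)
    (hs : ∑ i, A i k = s + 1)
    (h : ∀ t, 0 < A t k → X ≤ Y * per (voor_sub A k t)) :
    (s + 1) * X ≤ Y * (s * per A) := by
  have e1 : s * per A = per (fun i j => if j = k then s * A i k else A i j) := by
    have := per_col_sum A k {()} (fun _ => s) (fun _ i => A i k)
    simp only [Finset.sum_singleton] at this
    rw [this]
    congr 2
    funext i j
    by_cases hj : j = k
    · subst hj
      rw [if_pos rfl]
    · rw [if_neg hj]
  have e2 : ∀ i, s * A i k = ∑ t, A t k * (if i = t then A i k - 1 else A i k) := by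
    intro i
    have h1 : ∑ t, A t k * (if i = t then A i k - 1 else A i k) + A i k =
        ∑ t, A t k * A i k := by
      rw [← Finset.add_sum_erase univ _ (mem_univ i), ← Finset.add_sum_erase univ
        (fun t => A t k * A i k) (mem_univ i)]
      rw [if_pos rfl]
      have h2 : ∑ t ∈ univ.erase i, A t k * (if i = t then A i k - 1 else A i k) =
          ∑ t ∈ univ.erase i, A t k * A i k := by
        refine Finset.sum_congr rfl fun t ht => ?_
        rw [if_neg (fun h => (Finset.ne_of_mem_erase ht) h.symm)]
      rw [h2]
      rcases Nat.eq_zero_or_pos (A i k) with h0 | h0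
      · rw [h0]
        simp
      · obtain ⟨a, ha⟩ : ∃ a, A i k = a + 1 := ⟨A i k - 1, by omega⟩
        rw [ha, Nat.add_sub_cancel]
        ring
    have h2 : ∑ t, A t k * A i k = (s + 1) * A i k := by
      rw [← Finset.sum_mul, hs]
    rw [h2] at h1
    have h3 : (s + 1) * A i k = s * A i k + A i k := by ring
    omega
  have e3 : s * per A = ∑ t, A t k * per (voor_sub A k t) := by
    rw [e1]
    have := per_col_sum A k univ (fun t => A t k)
      (fun t i => if i = t then A i k - 1 else A i k)
    have h4 : (fun i j => if j = k then s * A i k else A i j) =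
        fun i j => if j = k then ∑ t, A t k * (if i = t then A i k - 1 else A i k) else A i j := by
      funext i j
      rw [e2 i]
    rw [h4, this]
    rfl
  rw [e3, ← hs, Finset.sum_mul, Finset.mul_sum]
  refine Finset.sum_le_sum fun t _ => ?_
  rcases Nat.eq_zero_or_pos (A t k) with h0 | h0
  · rw [h0]
    simp
  · have := h t h0
    calc A t k * X ≤ A t k * (Y * per (voor_sub A k t)) := Nat.mul_le_mul_left _ this
      _ = Y * (A t k * per (voor_sub A k t)) := by ring

/-- the bound for matrices with one deficient row and one deficient column -/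
def VoorDef (m : ℕ) : Prop :=
  ∀ {α : Type} [Fintype α] [DecidableEq α] (A : α → α → ℕ) (r c : α),
    Fintype.card α = m + 1 → (∀ i, ∑ j, A i j = if i = r then 2 else 3) →
    (∀ j, ∑ i, A i j = if j = c then 2 else 3) → 2 * 4 ^ m ≤ 3 ^ m * per A

theorem voor_cub_of_def {m : ℕ} (IH : VoorDef m) {α : Type} [Fintype α] [DecidableEq α]
    (A : α → α → ℕ) (hα : Fintype.card α = m + 1) (hr : ∀ i, ∑ j, A i j = 3)
    (hc : ∀ j, ∑ i, A i j = 3) : 3 * 4 ^ m ≤ 3 ^ m * per A := by
  have hne : Nonempty α := Fintype.card_pos_iff.1 (by omega)
  obtain ⟨k⟩ := hne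
  have h := voor_col A k 2 (2 * 4 ^ m) (3 ^ m) (hc k) (fun t ht => by
    refine IH (voor_sub A k t) t k hα (fun i => ?_) (fun j => ?_)
    · have := voor_sub_row A ht i
      rw [hr] at this
      split_ifs at this ⊢ <;> omega
    · have := voor_sub_col A ht j
      rw [hc] at this
      split_ifs at this ⊢ <;> omega)
  have h' : 2 * (3 * 4 ^ m) ≤ 2 * (3 ^ m * per A) := by
    calc 2 * (3 * 4 ^ m) = (2 + 1) * (2 * 4 ^ m) := by ring
      _ ≤ 3 ^ m * (2 * per A) := h
      _ = 2 * (3 ^ m * per A) := by ring
  omega

theorem voor_sum_one {β : Type*} [Fintype β] [DecidableEq β] {f : β → ℕ} (h : ∑ k, f k = 1) :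
    ∃ k, f k = 1 ∧ ∀ j, j ≠ k → f j = 0 := by
  have h1 : ∃ k, f k ≠ 0 := by
    by_contra hcon
    have : ∑ k, f k = 0 := Finset.sum_eq_zero fun k _ => by
      by_contra hk
      exact hcon ⟨k, hk⟩
    omega
  obtain ⟨k, hk⟩ := h1
  have h2 := Finset.add_sum_erase univ f (mem_univ k)
  have h3 : ∑ j ∈ univ.erase k, f j = 0 := by omega
  refine ⟨k, by omega, fun j hj => ?_⟩
  exact Finset.sum_eq_zero_iff.1 h3 j (Finset.mem_erase.2 ⟨hj, mem_univ j⟩)

theorem voor_step {m : ℕ} (IH : VoorDef m) {β : Type} [Fintype β] [DecidableEq β]
    (A : Option β → Option β → ℕ) (c : Option β) (hβ : Fintype.card β = m + 1)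
    (hr : ∀ i, ∑ j, A i j = if i = none then 2 else 3)
    (hc : ∀ j, ∑ i, A i j = if j = c then 2 else 3) (hpos : 0 < A none none) :
    2 * 4 ^ (m + 1) ≤ 3 ^ (m + 1) * per A := by
  have hr0 := hr none
  rw [if_pos rfl, Fintype.sum_option] at hr0
  have hrs : ∀ i, A (some i) none + ∑ j, A (some i) (some j) = 3 := by
    intro i
    have := hr (some i)
    rw [if_neg (by simp), Fintype.sum_option] at this
    exact this
  have hc0 := hc none
  rw [Fintype.sum_option] at hc0
  have hcs : ∀ j, A none (some j) + ∑ i, A (some i) (some j) = if some j = c then 2 else 3 := by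
    intro j
    have := hc (some j)
    rw [Fintype.sum_option] at this
    exact this
  have hper := per_option A
  have hp4 : 0 < 4 ^ m := by positivity
  rcases (by omega : A none none = 2 ∨ A none none = 1) with h2 | h1
  · -- case (a)
    have hz : ∀ k, A none (some k) = 0 := by
      have : ∑ k, A none (some k) = 0 := by omega
      exact fun k => Finset.sum_eq_zero_iff.1 this k (mem_univ k)
    have hper' : per A = 2 * per (fun i j => A (some i) (some j)) := by
      rw [hper, h2]
      simp only [hz, zero_mul, Finset.sum_const_zero, add_zero]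
    rcases c with _ | c'
    · rw [if_pos rfl] at hc0
      have hn : ∀ i, A (some i) none = 0 := by
        have : ∑ i, A (some i) none = 0 := by omega
        exact fun i => Finset.sum_eq_zero_iff.1 this i (mem_univ i)
      have h3 := voor_cub_of_def IH (fun i j => A (some i) (some j)) hβ
        (fun i => by have := hrs i; rw [hn i] at this; omega)
        (fun j => by
          have := hcs j
          rw [hz j, if_neg (by simp)] at this
          omega)
      calc 2 * 4 ^ (m + 1) ≤ 6 * (3 * 4 ^ m) := by rw [pow_succ]; omega
        _ ≤ 6 * (3 ^ m * per (fun i j => A (some i) (some j))) := Nat.mul_le_mul_left _ h3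
        _ = 3 ^ (m + 1) * per A := by rw [hper', pow_succ]; ring
    · rw [if_neg (by simp)] at hc0
      obtain ⟨r', hr1, hr2⟩ := voor_sum_one (f := fun i => A (some i) none) (by omega)
      have h3 := IH (fun i j => A (some i) (some j)) r' c' hβ
        (fun i => by
          have := hrs i
          by_cases hi : i = r'
          · subst hi
            rw [if_pos rfl]
            omega
          · rw [if_neg hi]
            have := hr2 i hi
            omega)
        (fun j => by
          have := hcs j
          rw [hz j] at this
          simp only [Option.some.injEq] at this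
          omega)
      calc 2 * 4 ^ (m + 1) ≤ 6 * (2 * 4 ^ m) := by rw [pow_succ]; omega
        _ ≤ 6 * (3 ^ m * per (fun i j => A (some i) (some j))) := Nat.mul_le_mul_left _ h3
        _ = 3 ^ (m + 1) * per A := by rw [hper', pow_succ]; ring
  · -- case (b)
    obtain ⟨k, hk1, hk2⟩ := voor_sum_one (f := fun i => A none (some i)) (by omega)
    set D : β → β → ℕ := fun i j =>
      if j = k then A (some i) (some k) + A (some i) none else A (some i) (some j) with hD
    have hper' : per A = per D := by
      rw [hper, h1, one_mul, ← Finset.add_sum_erase univ _ (mem_univ k), hk1, one_mul]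
      have h0 : ∑ x ∈ univ.erase k, A none (some x) *
          per (fun i j => if j = x then A (some i) none else A (some i) (some j)) = 0 :=
        Finset.sum_eq_zero fun x hx => by
          rw [hk2 x (Finset.ne_of_mem_erase hx), zero_mul]
      rw [h0, add_zero, hD, per_col_add (fun i j => A (some i) (some j)) k
        (fun i => A (some i) (some k)) (fun i => A (some i) none)]
      congr 2
      funext i j
      by_cases hj : j = k
      · subst hj
        rw [if_pos rfl]
      · rw [if_neg hj]
    have hDr : ∀ i, ∑ j, D i j = 3 := by
      intro i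
      rw [← hrs i, ← Finset.add_sum_erase univ _ (mem_univ k),
        ← Finset.add_sum_erase univ (fun j => A (some i) (some j)) (mem_univ k)]
      have e1 : ∑ x ∈ univ.erase k, D i x = ∑ x ∈ univ.erase k, A (some i) (some x) :=
        Finset.sum_congr rfl fun x hx => by
          rw [hD]
          simp only
          rw [if_neg (Finset.ne_of_mem_erase hx)]
      have e2 : D i k = A (some i) (some k) + A (some i) none := by
        rw [hD]
        simp only
        rw [if_pos trivial]
      rw [e1, e2]
      ring
    have hDc : ∀ j, j ≠ k → ∑ i, D i j = if some j = c then 2 else 3 := by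
      intro j hj
      have := hcs j
      rw [hk2 j hj, zero_add] at this
      rw [← this]
      exact Finset.sum_congr rfl fun i _ => by
        rw [hD]
        simp only
        rw [if_neg hj]
    have hDk : ∑ i, D i k = ((if some k = c then 2 else 3) - 1) +
        ((if none = c then 2 else 3) - 1) := by
      have e2 : ∀ i, D i k = A (some i) (some k) + A (some i) none := by
        intro i
        rw [hD]
        simp only
        rw [if_pos trivial]
      rw [Finset.sum_congr rfl fun i _ => e2 i, Finset.sum_add_distrib]
      have h5 := hcs k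
      rw [hk1] at h5
      rw [← h5, ← hc0, h1]
      omega
    by_cases hck : c = none ∨ c = some k
    · have h3 := voor_cub_of_def IH D hβ hDr (fun j => by
        by_cases hj : j = k
        · subst hj
          rw [hDk]
          rcases hck with rfl | rfl
          · simp
          · simp
        · rw [hDc j hj]
          rcases hck with rfl | rfl
          · simp
          · rw [if_neg (by simpa using hj)])
      calc 2 * 4 ^ (m + 1) ≤ 3 * (3 * 4 ^ m) := by rw [pow_succ]; omega
        _ ≤ 3 * (3 ^ m * per D) := Nat.mul_le_mul_left _ h3
        _ = 3 ^ (m + 1) * per A := by rw [hper', pow_succ]; ring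
    · rw [not_or] at hck
      obtain ⟨hc1, hc2⟩ := hck
      rcases c with _ | c'
      · exact absurd rfl hc1
      have hck' : c' ≠ k := fun h => hc2 (by rw [h])
      have hDk4 : ∑ i, D i k = 3 + 1 := by
        rw [hDk, if_neg (by simpa using hck'.symm), if_neg (by simp)]
      have h3 := voor_col D k 3 (2 * 4 ^ m) (3 ^ m) hDk4 (fun t ht => by
        refine IH (voor_sub D k t) t c' hβ (fun i => ?_) (fun j => ?_)
        · have := voor_sub_row D ht i
          rw [hDr] at this
          split_ifs at this ⊢ <;> omega
        · have := voor_sub_col D ht j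
          by_cases hj : j = k
          · subst hj
            rw [if_pos rfl, hDk4] at this
            rw [if_neg hck'.symm]
            omega
          · rw [if_neg hj, hDc j hj] at this
            simp only [Option.some.injEq] at this
            rw [← this, add_zero])
      calc 2 * 4 ^ (m + 1) = (3 + 1) * (2 * 4 ^ m) := by rw [pow_succ]; ring
        _ ≤ 3 ^ m * (3 * per D) := h3
        _ = 3 ^ (m + 1) * per A := by rw [hper', pow_succ]; ring

theorem voor_equiv {α β : Type*} [Fintype α] [Fintype β] [DecidableEq α]
    (h : Fintype.card (Option β) = Fintype.card α) (a : α) :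
    ∃ e : Option β ≃ α, e none = a := by
  refine ⟨(Fintype.equivOfCardEq h).trans (Equiv.swap (Fintype.equivOfCardEq h none) a), ?_⟩
  rw [Equiv.trans_apply, Equiv.swap_apply_left]

theorem voor_def_all (m : ℕ) : VoorDef m := by
  induction m with
  | zero =>
    intro α _ _ A r c hα hr hc
    obtain ⟨hu⟩ := Fintype.card_eq_one_iff_nonempty_unique.1 (by omega : Fintype.card α = 1)
    have hrr := hr default
    rw [if_pos (Subsingleton.elim _ _), Fintype.sum_unique] at hrr
    unfold per
    rw [Fintype.sum_unique, Fintype.prod_unique]
    have : (default : Perm α) default = default := Subsingleton.elim _ _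
    rw [this, hrr]
    norm_num
  | succ m ih =>
    intro α _ _ A r c hα hr hc
    have hcard : Fintype.card (Option (Fin (m + 1))) = Fintype.card α := by
      rw [Fintype.card_option, Fintype.card_fin, hα]
    obtain ⟨e, he⟩ := voor_equiv hcard r
    have hrr := hr r
    rw [if_pos rfl] at hrr
    have hex : ∃ c0, 0 < A r c0 := by
      by_contra hcon
      have : ∑ j, A r j = 0 := Finset.sum_eq_zero fun j _ => by
        by_contra hk
        exact hcon ⟨j, by omega⟩
      omega
    obtain ⟨c0, hc0⟩ := hex
    obtain ⟨f, hf⟩ := voor_equiv hcard c0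
    rw [← per_equiv e f A]
    refine voor_step ih (fun i j => A (e i) (f j)) (f.symm c) (Fintype.card_fin _) (fun i => ?_)
      (fun j => ?_) (by simp only [he, hf]; exact hc0)
    · rw [Equiv.sum_comp f (fun j => A (e i) j), hr]
      have : e i = r ↔ i = none := by rw [← he, e.injective.eq_iff]
      simp only [this]
    · rw [Equiv.sum_comp e (fun i => A i (f j)), hc]
      have : f j = c ↔ j = f.symm c := by rw [Equiv.eq_symm_apply]
      simp only [this]

theorem voor_def (m : ℕ) : ∀ {α : Type} [Fintype α] [DecidableEq α] (A : α → α → ℕ) (r c : α),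
    Fintype.card α = m + 1 → (∀ i, ∑ j, A i j = if i = r then 2 else 3) →
    (∀ j, ∑ i, A i j = if j = c then 2 else 3) → 2 * 4 ^ m ≤ 3 ^ m * per A :=
  voor_def_all m

theorem voor {α : Type} [Fintype α] [DecidableEq α] {m : ℕ} (A : α → α → ℕ)
    (hα : Fintype.card α = m + 1) (hr : ∀ i, ∑ j, A i j = 3) (hc : ∀ j, ∑ i, A i j = 3) :
    3 * 4 ^ m ≤ 3 ^ m * per A :=
  voor_cub_of_def (voor_def_all m) A hα hr hc

end Pool.Agent.MP_7c0803
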