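import Pool.Agent.Lib_MP_7c0803_co.Together
import Pool.Agent.Lib_MP_7c0803_co.Voor
import Pool.Agent.Lib_MP_7c0803_co.HallCol
import Pool.Agent.Lib_MP_7c0803_co.Insert
import Pool.Agent.Lib_MP_7c0803_co.NumRec
import Pool.Agent.Lib_MP_7c0803_co.KempeSign

/-!
# Almost all cubic bipartite graphs: assembly
-/

open Finset Equiv Equiv.Perm SimpleGraph

namespace Pool.Agent.MP_7c0803

variable {α : Type*} [Fintype α] [DecidableEq α]

theorem sg_eq_or (p : Fin 3 → Perm α) : sg p = 1 ∨ sg p = -1 := by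
  have h : sg p = ((∏ k, sign (p k) : ℤˣ) : ℤ) := by
    unfold sg; push_cast; rfl
  rw [h]
  rcases Int.units_eq_one_or (∏ k, sign (p k)) with h1 | h1 <;> rw [h1] <;> simp

/-- The signed number of colourings from the number of colourings of a given sign. -/
theorem DD_eq (F : Finset (α × α)) {s : ℤ} (hs : s = 1 ∨ s = -1) :
    s * DD F = 2 * (((Col F).filter fun p => sg p = s).card : ℤ) - ((Col F).card : ℤ) := by
  have h1 : s * DD F = ∑ p ∈ Col F, (2 * (if sg p = s then 1 else 0) - 1 : ℤ) := by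
    unfold DD
    rw [mul_sum]
    refine sum_congr rfl fun p _ => ?_
    rcases hs with rfl | rfl <;> rcases sg_eq_or p with h | h <;> rw [h] <;> norm_num
  rw [h1, sum_sub_distrib, ← mul_sum, sum_boole]
  simp

/-- A cubic graph has many colourings. -/
theorem card_Col_ge {n : ℕ} {F : Finset (Fin (n + 1) × Fin (n + 1))} (hF : IsCub F) :
    3 * 4 ^ n ≤ 3 ^ n * (Col F).card := by
  have h1 := voor (m := n) (fun i j : Fin (n + 1) => if (i, j) ∈ F then 1 else 0) (by simp) ?_ ?_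
  · exact h1.trans (Nat.mul_le_mul_left _ (per_le_card_Col hF))
  · intro i
    rw [← hF.1 i, sum_boole, Nat.cast_id]
    apply card_bij (fun j _ => (i, j))
    · intro j hj; simpa using hj
    · intro a _ b _ h; exact (Prod.ext_iff.mp h).2
    · rintro ⟨a, b⟩ hb
      simp only [mem_filter] at hb
      obtain ⟨h1, rfl⟩ := hb
      exact ⟨b, by simpa using h1, rfl⟩
  · intro j
    rw [← hF.2 j, sum_boole, Nat.cast_id]
    apply card_bij (fun i _ => (i, j))
    · intro i hi; simpa using hi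
    · intro a _ b _ h; exact (Prod.ext_iff.mp h).1
    · rintro ⟨a, b⟩ hb
      simp only [mem_filter] at hb
      obtain ⟨h1, rfl⟩ := hb
      exact ⟨a, by simpa using h1, rfl⟩

/-- The graphs for which one sign is over-represented. -/
noncomputable def badS (n : ℕ) (ε : ℝ) : Finset (Finset (Fin n × Fin n)) := by
  classical exact
    (cubs (Fin n)).filter fun F => (ε * ((Col F).card : ℝ)) ^ 2 ≤ ((DD F : ℤ) : ℝ) ^ 2

theorem card_badS_le (n : ℕ) (ε : ℝ) :
    ((badS (n + 1) ε).card : ℝ) * (ε ^ 2 * (9 * (16 / 9 : ℝ) ^ n)) ≤ (PP (n + 1) : ℝ) := by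
  have h1 : ∑ F ∈ badS (n + 1) ε, (ε ^ 2 * (9 * (16 / 9 : ℝ) ^ n)) ≤
      ∑ F ∈ badS (n + 1) ε, ((DD F : ℤ) : ℝ) ^ 2 := by
    refine sum_le_sum fun F hF => ?_
    simp only [badS, mem_filter] at hF
    obtain ⟨hF1, hF2⟩ := hF
    have hcub : IsCub F := by simpa [cubs] using hF1
    refine le_trans ?_ hF2
    have h2 : (3 : ℝ) * 4 ^ n ≤ 3 ^ n * ((Col F).card : ℝ) := by exact_mod_cast card_Col_ge hcub
    have h3 : (3 : ℝ) * (4 / 3) ^ n ≤ ((Col F).card : ℝ) := by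
      rw [div_pow]
      have h4 : (0 : ℝ) < 3 ^ n := by positivity
      rw [← mul_div_assoc, div_le_iff₀ h4]
      linarith
    have h5 : (16 / 9 : ℝ) ^ n = ((4 / 3 : ℝ) ^ n) ^ 2 := by
      rw [← pow_mul, mul_comm, pow_mul]; norm_num
    rw [h5, mul_pow]
    have h6 : (9 : ℝ) * ((4 / 3 : ℝ) ^ n) ^ 2 ≤ ((Col F).card : ℝ) ^ 2 := by
      have : (0 : ℝ) ≤ 3 * (4 / 3) ^ n := by positivity
      nlinarith
    exact mul_le_mul_of_nonneg_left h6 (sq_nonneg ε)
  have h2 : ∑ F ∈ badS (n + 1) ε, ((DD F : ℤ) : ℝ) ^ 2 ≤ ∑ F ∈ cubs (Fin (n + 1)), ((DD F : ℤ) : ℝ) ^ 2 :=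
    sum_le_sum_of_subset_of_nonneg (by unfold badS; exact filter_subset _ _)
      fun _ _ _ => sq_nonneg _
  have h3 : ∑ F ∈ cubs (Fin (n + 1)), ((DD F : ℤ) : ℝ) ^ 2 ≤ (PP (n + 1) : ℝ) := by
    have := moment (α := Fin (n + 1))
    rw [Fintype.card_fin] at this
    exact_mod_cast this
  rw [sum_const, nsmul_eq_mul] at h1
  linarith

theorem cubs_small {n : ℕ} (h1 : n < 3) (h0 : 1 ≤ n) : cubs (Fin n) = ∅ := by
  rw [cubs, filter_eq_empty_iff]
  intro F _ hF
  have h2 := hF.1 ⟨0, h0⟩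
  have h3 : (F.filter fun e => e.1 = (⟨0, h0⟩ : Fin n)).card ≤ n := by
    have : (F.filter fun e => e.1 = (⟨0, h0⟩ : Fin n)).card ≤ (univ : Finset (Fin n)).card := by
      apply card_le_card_of_injOn (fun e => e.2) (fun _ _ => mem_coe.mpr (mem_univ _))
      intro a ha b hb hab
      simp only [coe_filter, Set.mem_ofPred_eq] at ha hb
      exact Prod.ext (ha.2.trans hb.2.symm) hab
    simpa using this
  omega

theorem PP_three : PP 3 = 8640 := by
  unfold PP; decide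

/-- The number of graphs is large compared with `PP n`. -/
theorem exists_PP_le : ∃ C : ℝ, 0 < C ∧ ∀ n, 1 ≤ n → (cubs (Fin n)).Nonempty →
    (PP n : ℝ) ≤ C * (n : ℝ) ^ 12 * (4 / 3 : ℝ) ^ n * ((cubs (Fin n)).card : ℝ) := by
  obtain ⟨C, hC, h⟩ := num_rec (fun n => (cubs (Fin n)).card) one_le_card_cubs_four (by
    intro m _
    have h1 := card_cubs_option (α := Fin m)
    rw [Fintype.card_fin] at h1
    rwa [card_cubs_congr (finSuccEquivLast (n := m)).symm] at h1)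
  refine ⟨C + 8640, by linarith, fun n hn hne => ?_⟩
  rcases lt_trichotomy n 3 with h3 | rfl | h3
  · rw [cubs_small h3 hn] at hne
    exact absurd hne (by simp)
  · rw [PP_three]
    have h4 : (1 : ℝ) ≤ ((cubs (Fin 3)).card : ℝ) := by exact_mod_cast hne.card_pos
    have h5 : (1 : ℝ) ≤ ((3 : ℕ) : ℝ) ^ 12 * (4 / 3 : ℝ) ^ 3 * ((cubs (Fin 3)).card : ℝ) := by
      have : (1 : ℝ) ≤ ((3 : ℕ) : ℝ) ^ 12 * (4 / 3 : ℝ) ^ 3 := by norm_num
      nlinarith
    have : (C + 8640) * ((3 : ℕ) : ℝ) ^ 12 * (4 / 3 : ℝ) ^ 3 * ((cubs (Fin 3)).card : ℝ) =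
        (C + 8640) * (((3 : ℕ) : ℝ) ^ 12 * (4 / 3 : ℝ) ^ 3 * ((cubs (Fin 3)).card : ℝ)) := by ring
    rw [this]
    push_cast at *
    nlinarith
  · refine (h n h3).trans ?_
    have h4 : (0 : ℝ) ≤ (n : ℝ) ^ 12 * (4 / 3 : ℝ) ^ n * ((cubs (Fin n)).card : ℝ) := by positivity
    nlinarith

/-- A Kempe class which is too large forces a large signed number of colourings. -/
theorem mem_badS_of_class {n : ℕ} {ε : ℝ} (hε : 0 < ε) {G : SimpleGraph (Fin n ⊕ Fin n)}
    (hG : IsCB G) {c : G.lineGraph.Coloring (Fin 3)}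
    (hc : (1 + ε) / 2 * (Nat.card (G.lineGraph.Coloring (Fin 3)) : ℝ) <
      (Nat.card {c' : G.lineGraph.Coloring (Fin 3) //
        Quot.mk (KempeStep G.lineGraph 3) c' = Quot.mk (KempeStep G.lineGraph 3) c} : ℝ)) :
    edgesOf G ∈ badS n ε := by
  classical
  obtain ⟨F, hFdef⟩ : ∃ F, F = edgesOf G := ⟨_, rfl⟩
  have hF : IsCub F := hFdef ▸ isCub_edgesOf hG
  rw [← hFdef]
  obtain ⟨e, he⟩ : ∃ e : G.lineGraph.Coloring (Fin 3) ≃ {p : Fin 3 → Perm (Fin n) // p ∈ Col F},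
      ∀ c c' : G.lineGraph.Coloring (Fin 3), KempeStep G.lineGraph 3 c c' →
        sg (e c).1 = sg (e c').1 := by
    rw [hFdef]; exact kempe_equiv hG
  have hgen : ∀ a b : G.lineGraph.Coloring (Fin 3),
      Relation.EqvGen (KempeStep G.lineGraph 3) a b → sg (e a).1 = sg (e b).1 := by
    intro a b hab
    induction hab with
    | rel a b hab => exact he a b hab
    | refl a => rfl
    | symm a b _ ih => exact ih.symm
    | trans a b d _ _ ih1 ih2 => exact ih1.trans ih2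
  have hinv : ∀ c' : G.lineGraph.Coloring (Fin 3),
      Quot.mk (KempeStep G.lineGraph 3) c' = Quot.mk (KempeStep G.lineGraph 3) c →
        sg (e c').1 = sg (e c).1 := fun c' h => hgen _ _ (Quot.eqvGen_exact h)
  have hX : Nat.card (G.lineGraph.Coloring (Fin 3)) = (Col F).card := by
    rw [Nat.card_congr e, Nat.card_eq_fintype_card, Fintype.card_coe]
  set s := sg (e c).1 with hs
  have hcl : Nat.card {c' : G.lineGraph.Coloring (Fin 3) //
      Quot.mk (KempeStep G.lineGraph 3) c' = Quot.mk (KempeStep G.lineGraph 3) c} ≤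
      ((Col F).filter fun p => sg p = s).card := by
    rw [← Fintype.card_coe, ← Nat.card_eq_fintype_card]
    apply Nat.card_le_card_of_injective
      (fun c' : {c' : G.lineGraph.Coloring (Fin 3) //
        Quot.mk (KempeStep G.lineGraph 3) c' = Quot.mk (KempeStep G.lineGraph 3) c} =>
        (⟨(e c'.1).1, mem_filter.mpr ⟨(e c'.1).2, hinv c'.1 c'.2⟩⟩ :
          {p // p ∈ (Col F).filter fun p => sg p = s}))
    intro a b hab
    apply Subtype.ext
    apply e.injective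
    apply Subtype.ext
    exact congrArg (fun z : {p // p ∈ (Col F).filter fun p => sg p = s} => z.1) hab
  have hs1 : s = 1 ∨ s = -1 := sg_eq_or _
  have hD := DD_eq F hs1
  have hD' : (s : ℝ) * ((DD F : ℤ) : ℝ) =
      2 * ((((Col F).filter fun p => sg p = s).card : ℕ) : ℝ) - ((Col F).card : ℝ) := by
    exact_mod_cast hD
  have hcl' : (Nat.card {c' : G.lineGraph.Coloring (Fin 3) //
      Quot.mk (KempeStep G.lineGraph 3) c' = Quot.mk (KempeStep G.lineGraph 3) c} : ℝ) ≤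
      ((((Col F).filter fun p => sg p = s).card : ℕ) : ℝ) := by exact_mod_cast hcl
  rw [hX] at hc
  have h1 : ε * ((Col F).card : ℝ) ≤ (s : ℝ) * ((DD F : ℤ) : ℝ) := by
    rw [hD']; linarith
  have h2 : ((s : ℝ) * ((DD F : ℤ) : ℝ)) ^ 2 = ((DD F : ℤ) : ℝ) ^ 2 := by
    rcases hs1 with h | h <;> rw [h] <;> push_cast <;> ring
  rw [badS]
  simp only [mem_filter]
  refine ⟨by simpa [cubs] using hF, ?_⟩
  rw [← h2]
  have : 0 ≤ ε * ((Col F).card : ℝ) := by positivity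
  exact pow_le_pow_left₀ this h1 2

theorem card_isCB (n : ℕ) :
    Nat.card {G : SimpleGraph (Fin n ⊕ Fin n) // IsCB G} = (cubs (Fin n)).card := by
  classical
  rw [← Fintype.card_coe, ← Nat.card_eq_fintype_card]
  apply Nat.card_eq_of_bijective
    (fun G : {G : SimpleGraph (Fin n ⊕ Fin n) // IsCB G} =>
      (⟨edgesOf G.1, by simpa [cubs] using isCub_edgesOf G.2⟩ : {F // F ∈ cubs (Fin n)}))
  constructor
  · intro G G' h
    exact Subtype.ext (edgesOf_inj G.2 G'.2 (congrArg Subtype.val h))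
  · rintro ⟨F, hF⟩
    obtain ⟨G, hG, h⟩ := exists_graph (F := F) (by simpa [cubs] using hF)
    exact ⟨⟨G, hG⟩, Subtype.ext h⟩

/-- At most an exponentially small fraction of the labelled cubic bipartite graphs has a Kempe
class with more than `(1 + ε) / 2` of all colourings. -/
theorem main_eps : ∃ C : ℝ, 0 < C ∧ ∀ n : ℕ, 1 ≤ n → ∀ ε : ℝ, 0 < ε →
    (Nat.card {G : SimpleGraph (Fin n ⊕ Fin n) // IsCB G ∧
      ∃ c : G.lineGraph.Coloring (Fin 3),
        (1 + ε) / 2 * (Nat.card (G.lineGraph.Coloring (Fin 3)) : ℝ) <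
          (Nat.card {c' : G.lineGraph.Coloring (Fin 3) //
            Quot.mk (KempeStep G.lineGraph 3) c' = Quot.mk (KempeStep G.lineGraph 3) c} : ℝ)} : ℝ) ≤
      C * (n : ℝ) ^ 12 * (3 / 4 : ℝ) ^ n / ε ^ 2 *
        (Nat.card {G : SimpleGraph (Fin n ⊕ Fin n) // IsCB G} : ℝ) := by
  classical
  obtain ⟨C, hC, h⟩ := exists_PP_le
  refine ⟨C, hC, fun n hn ε hε => ?_⟩
  have h1 : Nat.card {G : SimpleGraph (Fin n ⊕ Fin n) // IsCB G ∧
      ∃ c : G.lineGraph.Coloring (Fin 3),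
        (1 + ε) / 2 * (Nat.card (G.lineGraph.Coloring (Fin 3)) : ℝ) <
          (Nat.card {c' : G.lineGraph.Coloring (Fin 3) //
            Quot.mk (KempeStep G.lineGraph 3) c' = Quot.mk (KempeStep G.lineGraph 3) c} : ℝ)} ≤
      (badS n ε).card := by
    rw [← Fintype.card_coe, ← Nat.card_eq_fintype_card]
    apply Nat.card_le_card_of_injective (fun G => (⟨edgesOf G.1, by
      obtain ⟨c, hc⟩ := G.2.2
      exact mem_badS_of_class hε G.2.1 hc⟩ : {F // F ∈ badS n ε}))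
    intro G G' hGG
    exact Subtype.ext (edgesOf_inj G.2.1 G'.2.1 (congrArg Subtype.val hGG))
  rw [card_isCB]
  have h2 : (Nat.card {G : SimpleGraph (Fin n ⊕ Fin n) // IsCB G ∧
      ∃ c : G.lineGraph.Coloring (Fin 3),
        (1 + ε) / 2 * (Nat.card (G.lineGraph.Coloring (Fin 3)) : ℝ) <
          (Nat.card {c' : G.lineGraph.Coloring (Fin 3) //
            Quot.mk (KempeStep G.lineGraph 3) c' = Quot.mk (KempeStep G.lineGraph 3) c} : ℝ)} : ℝ) ≤
      ((badS n ε).card : ℝ) := by exact_mod_cast h1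
  refine h2.trans ?_
  rcases (cubs (Fin n)).eq_empty_or_nonempty with hemp | hne
  · have : badS n ε = ∅ := by rw [badS, hemp]; exact filter_empty _
    rw [this, hemp]; simp
  obtain ⟨m, rfl⟩ : ∃ m, n = m + 1 := ⟨n - 1, by omega⟩
  have h3 := card_badS_le m ε
  have h4 := h (m + 1) hn hne
  set N : ℝ := ((cubs (Fin (m + 1))).card : ℝ) with hN
  have hN0 : 0 ≤ N := by positivity
  set P : ℝ := ((m + 1 : ℕ) : ℝ) ^ 12 with hP
  have hP0 : 0 ≤ P := by positivity
  have e1 : (4 / 3 : ℝ) ^ (m + 1) = (3 / 4 : ℝ) ^ (m + 1) * ((16 / 9 : ℝ) ^ m * (16 / 9)) := by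
    rw [← pow_succ, ← mul_pow]; norm_num
  rw [e1] at h4
  have hq : (0 : ℝ) < (16 / 9 : ℝ) ^ m := by positivity
  have h5 : ((badS (m + 1) ε).card : ℝ) * ε ^ 2 * 9 * (16 / 9 : ℝ) ^ m ≤
      (C * P * (3 / 4 : ℝ) ^ (m + 1) * N * (16 / 9)) * (16 / 9 : ℝ) ^ m := by
    calc ((badS (m + 1) ε).card : ℝ) * ε ^ 2 * 9 * (16 / 9 : ℝ) ^ m =
          ((badS (m + 1) ε).card : ℝ) * (ε ^ 2 * (9 * (16 / 9 : ℝ) ^ m)) := by ring
      _ ≤ (PP (m + 1) : ℝ) := h3
      _ ≤ _ := h4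
      _ = _ := by ring
  have h6 := le_of_mul_le_mul_right h5 hq
  have hε2 : 0 < ε ^ 2 := by positivity
  have h7 : ((badS (m + 1) ε).card : ℝ) * ε ^ 2 ≤ C * P * (3 / 4 : ℝ) ^ (m + 1) * N := by
    have h8 : 0 ≤ C * P * (3 / 4 : ℝ) ^ (m + 1) * N := by positivity
    nlinarith
  rw [div_mul_eq_mul_div, le_div_iff₀ hε2]
  exact h7

end Pool.Agent.MP_7c0803
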