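import Pool.Agent.Lib_MP_7c0803_co.Defs

/-!
# Piece NUG: the numerical recursion with a general constant

Proof.  As in `NumRec.lean`: `PP (m+1) = PP m * ((m+1) (m+2) (m+3))` and
`N (m+1) ≥ N m * (3m (3m-c) (3m-2c)) / 36`, so `R m = PP m / (m^k (4/3)^m N m)` satisfies
`R (m+1) ≤ R m * ((m+1)(m+2)(m+3) m^k) / ((m+1)^k m (m-c/3) (m-2c/3))`.  With `k = c + 7` the factor is `≤ 1`
for all large `m` (first order terms `6 + c < k`; for a simple proof take `k` larger, e.g. `k = 2 c + 12`, and use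
`(1 + 1/m)^(j) ≥ 1 + j/m`: for `m ≥ 8 c + 8`, `m - c/3 ≥ m / (1 + 1/m)^c`, etc.).  `N m ≥ 1` for all
`m ≥ m₀`.  Take `C` the maximum of `1` and finitely many `R m`.
-/

open Finset Equiv Equiv.Perm

namespace Pool.Agent.MP_7c0803

private theorem nug_one (m : ℝ) (a : ℕ) (hm : 0 < m) (ha : (a : ℝ) ≤ 2 * m) :
    3 * m ^ (a + 1) ≤ (m + 1) ^ a * (3 * m - a) := by
  have h1 : 1 + (a : ℝ) * (1 / m) ≤ (1 + 1 / m) ^ a :=
    one_add_mul_le_pow (by have : 0 < 1 / m := by positivity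
                           linarith) a
  have h2 : m ^ a * (m + a) ≤ m * (m + 1) ^ a := by
    have h3 : (m + 1) ^ a = m ^ a * (1 + 1 / m) ^ a := by
      rw [← mul_pow]
      congr 1
      field_simp
    have h4 : m * (1 + (a : ℝ) * (1 / m)) = m + a := by
      field_simp
    calc m ^ a * (m + a) = m * (m ^ a * (1 + (a : ℝ) * (1 / m))) := by rw [← h4]; ring
      _ ≤ m * (m ^ a * (1 + 1 / m) ^ a) := by
          apply mul_le_mul_of_nonneg_left _ hm.le
          exact mul_le_mul_of_nonneg_left h1 (by positivity)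
      _ = m * (m + 1) ^ a := by rw [h3]
  have h5 : 0 ≤ 3 * m - a := by linarith
  have h6 : 3 * m ^ 2 ≤ (m + a) * (3 * m - a) := by
    have h7 : 0 ≤ (a : ℝ) * (2 * m - a) := mul_nonneg (Nat.cast_nonneg _) (by linarith)
    nlinarith
  have h8 : m * (3 * m ^ (a + 1)) ≤ m * ((m + 1) ^ a * (3 * m - a)) := by
    calc m * (3 * m ^ (a + 1)) = m ^ a * (3 * m ^ 2) := by ring
      _ ≤ m ^ a * ((m + a) * (3 * m - a)) := mul_le_mul_of_nonneg_left h6 (by positivity)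
      _ = (m ^ a * (m + a)) * (3 * m - a) := by ring
      _ ≤ (m * (m + 1) ^ a) * (3 * m - a) := mul_le_mul_of_nonneg_right h2 h5
      _ = m * ((m + 1) ^ a * (3 * m - a)) := by ring
  exact le_of_mul_le_mul_left h8 hm

private theorem nug_ineq (m : ℝ) (c : ℕ) (hm : 0 < m) (hc : (c : ℝ) ≤ m) :
    9 * m ^ (3 * c + 6) * ((m + 1) * (m + 2) * (m + 3)) ≤
      (m + 1) ^ (3 * c + 6) * (m * (3 * m - c) * (3 * m - 2 * c)) := by
  have hc0 : (0 : ℝ) ≤ (c : ℝ) := Nat.cast_nonneg _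
  have h1 := nug_one m c hm (by linarith)
  have h2 := nug_one m (2 * c) hm (by push_cast; linarith)
  push_cast at h2
  have h3 : m * (m + 2) ≤ (m + 1) ^ 2 := by nlinarith
  have h4 : m ^ 2 * (m + 3) ≤ (m + 1) ^ 3 := by nlinarith
  have h5 : 0 ≤ 3 * m - c := by linarith
  have h6 : 0 ≤ 3 * m - 2 * c := by linarith
  calc 9 * m ^ (3 * c + 6) * ((m + 1) * (m + 2) * (m + 3)) =
        (m * (m + 1)) * ((3 * m ^ (c + 1)) * (3 * m ^ (2 * c + 1))) * ((m * (m + 2)) * (m ^ 2 * (m + 3))) := by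
        ring
    _ ≤ (m * (m + 1)) * (((m + 1) ^ c * (3 * m - c)) * ((m + 1) ^ (2 * c) * (3 * m - 2 * c))) *
          ((m + 1) ^ 2 * (m + 1) ^ 3) := by
        gcongr
    _ = (m + 1) ^ (3 * c + 6) * (m * (3 * m - c) * (3 * m - 2 * c)) := by
        ring

theorem num_recG (N : ℕ → ℕ) (c m₀ : ℕ) (hm₀ : 2 * c < 3 * m₀) (h1 : 1 ≤ m₀) (h0 : 1 ≤ N m₀)
    (hN : ∀ m, m₀ ≤ m → N m * (3 * m * (3 * m - c) * (3 * m - 2 * c)) ≤ 36 * N (m + 1)) :
    ∃ (C : ℝ) (k : ℕ), 0 < C ∧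
      ∀ m, m₀ ≤ m → (PP m : ℝ) ≤ C * (m : ℝ) ^ k * (4 / 3 : ℝ) ^ m * (N m : ℝ) := by
  have hpos : ∀ m, m₀ ≤ m → 1 ≤ N m := by
    intro m hm
    induction m, hm using Nat.le_induction with
    | base => exact h0
    | succ m hm ih =>
      have h1 := hN m hm
      have h2 : 1 ≤ N m * (3 * m * (3 * m - c) * (3 * m - 2 * c)) := by
        have h3 : 0 < 3 * m := by omega
        have h4 : 0 < 3 * m - c := by omega
        have h5 : 0 < 3 * m - 2 * c := by omega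
        have := Nat.mul_pos ih (Nat.mul_pos (Nat.mul_pos h3 h4) h5)
        exact this
      omega
  have hPP : ∀ m, PP (m + 1) = PP m * ((m + 1) * (m + 2) * (m + 3)) := by
    intro m
    unfold PP
    rw [prod_range_succ]
  let C : ℝ := 1 + ∑ m ∈ range (m₀ + c + 1), (PP m : ℝ)
  have hC : 0 < C := by
    have : 0 ≤ ∑ m ∈ range (m₀ + c + 1), (PP m : ℝ) := sum_nonneg fun _ _ => Nat.cast_nonneg _
    simp only [C]; linarith
  refine ⟨C, 3 * c + 6, hC, ?_⟩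
  have hsmall : ∀ m, m₀ ≤ m → m ≤ m₀ + c →
      (PP m : ℝ) ≤ C * (m : ℝ) ^ (3 * c + 6) * (4 / 3 : ℝ) ^ m * (N m : ℝ) := by
    intro m hm hm'
    have h1 : (PP m : ℝ) ≤ C := by
      have := single_le_sum (f := fun m => (PP m : ℝ)) (fun i _ => Nat.cast_nonneg _)
        (mem_range.mpr (by omega : m < m₀ + c + 1))
      simp only [C]; linarith
    have h2 : (1 : ℝ) ≤ (m : ℝ) ^ (3 * c + 6) := by
      apply one_le_pow₀
      exact_mod_cast (by omega : 1 ≤ m)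
    have h3 : (1 : ℝ) ≤ (4 / 3 : ℝ) ^ m := one_le_pow₀ (by norm_num)
    have h4 : (1 : ℝ) ≤ (N m : ℝ) := by exact_mod_cast hpos m hm
    have h5 : C * 1 * 1 * 1 ≤ C * (m : ℝ) ^ (3 * c + 6) * (4 / 3 : ℝ) ^ m * (N m : ℝ) := by
      gcongr
    linarith
  intro m hm
  by_cases h16 : m ≤ m₀ + c
  · exact hsmall m hm h16
  · have h16' : m₀ + c ≤ m := by omega
    clear h16 hm
    induction m, h16' using Nat.le_induction with
    | base => exact hsmall (m₀ + c) (by omega) le_rfl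
    | succ m hm ih =>
      have hm' : (c : ℝ) ≤ (m : ℝ) := by exact_mod_cast (by omega : c ≤ m)
      have hm'' : (0 : ℝ) < (m : ℝ) := by exact_mod_cast (by omega : 0 < m)
      have h1 : (N m : ℝ) * (3 * m * (3 * m - c) * (3 * m - 2 * c)) ≤ 36 * (N (m + 1) : ℝ) := by
        have h2 := hN m (by omega)
        have h3 : ((N m * (3 * m * (3 * m - c) * (3 * m - 2 * c)) : ℕ) : ℝ) ≤ ((36 * N (m + 1) : ℕ) : ℝ) := by
          exact_mod_cast h2
        push_cast [Nat.cast_sub (by omega : c ≤ 3 * m), Nat.cast_sub (by omega : 2 * c ≤ 3 * m)] at h3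
        exact h3
      have h2 := nug_ineq m c hm'' hm'
      rw [hPP]
      push_cast
      have hQ : (0 : ℝ) ≤ (m + 1) * (m + 2) * (m + 3) := by positivity
      calc (PP m : ℝ) * ((m + 1) * (m + 2) * (m + 3))
          ≤ (C * (m : ℝ) ^ (3 * c + 6) * (4 / 3 : ℝ) ^ m * (N m : ℝ)) * ((m + 1) * (m + 2) * (m + 3)) :=
            mul_le_mul_of_nonneg_right ih hQ
        _ = C * (4 / 3 : ℝ) ^ m * (N m : ℝ) / 9 *
            (9 * (m : ℝ) ^ (3 * c + 6) * ((m + 1) * (m + 2) * (m + 3))) := by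
            ring
        _ ≤ C * (4 / 3 : ℝ) ^ m * (N m : ℝ) / 9 *
            (((m : ℝ) + 1) ^ (3 * c + 6) * (m * (3 * m - c) * (3 * m - 2 * c))) :=
            mul_le_mul_of_nonneg_left h2 (by positivity)
        _ = C * (4 / 3 : ℝ) ^ m / 27 * ((m : ℝ) + 1) ^ (3 * c + 6) *
            ((N m : ℝ) * (3 * m * (3 * m - c) * (3 * m - 2 * c))) := by
            ring
        _ ≤ C * (4 / 3 : ℝ) ^ m / 27 * ((m : ℝ) + 1) ^ (3 * c + 6) * (36 * (N (m + 1) : ℝ)) :=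
            mul_le_mul_of_nonneg_left h1 (by positivity)
        _ = C * ((m : ℝ) + 1) ^ (3 * c + 6) * (4 / 3 : ℝ) ^ (m + 1) * (N (m + 1) : ℝ) := by
            rw [pow_succ (4 / 3 : ℝ) m]; ring

end Pool.Agent.MP_7c0803
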