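import Pool.Agent.Lib_MP_7c0803_co.Main
import Pool.Agent.Lib_MP_7c0803_co.GirthIns
import Pool.Agent.Lib_MP_7c0803_co.FarCount
import Pool.Agent.Lib_MP_7c0803_co.Exist
import Pool.Agent.Lib_MP_7c0803_co.NumG

/-!
# Almost all cubic bipartite graphs of girth at least `g`: assembly
-/

open Finset Equiv Equiv.Perm SimpleGraph

namespace Pool.Agent.MP_7c0803

/-- Some Kempe class of `G` contains more than `(1 + ε) / 2` of all the 3-edge-colourings of `G`
(proper 3-colourings of the line graph). -/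
def BigClass {V : Type*} (ε : ℝ) (G : SimpleGraph V) : Prop :=
  ∃ c : G.lineGraph.Coloring (Fin 3),
    (1 + ε) / 2 * (Nat.card (G.lineGraph.Coloring (Fin 3)) : ℝ) <
      (Nat.card {c' : G.lineGraph.Coloring (Fin 3) //
        Quot.mk (KempeStep G.lineGraph 3) c' = Quot.mk (KempeStep G.lineGraph 3) c} : ℝ)

theorem bigClass_of_Kc {V : Type*} [Finite V] {G : SimpleGraph V} (hK : Kc G.lineGraph 3 = 1) :
    BigClass (1 / 2) G := by
  unfold Kc at hK
  obtain ⟨hsub, hne⟩ := Nat.card_eq_one_iff_unique.mp hK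
  obtain ⟨q⟩ := hne
  obtain ⟨c, rfl⟩ := Quot.exists_rep q
  refine ⟨c, ?_⟩
  have : Finite (G.lineGraph.Coloring (Fin 3)) :=
    Finite.of_injective (fun c : G.lineGraph.Coloring (Fin 3) => (c : _ → Fin 3))
      DFunLike.coe_injective
  have h1 : Nat.card {c' : G.lineGraph.Coloring (Fin 3) //
      Quot.mk (KempeStep G.lineGraph 3) c' = Quot.mk (KempeStep G.lineGraph 3) c} =
      Nat.card (G.lineGraph.Coloring (Fin 3)) :=
    Nat.card_congr (Equiv.subtypeUnivEquiv fun c' => Subsingleton.elim _ _)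
  rw [h1]
  have h2 : 0 < Nat.card (G.lineGraph.Coloring (Fin 3)) := by
    have : Nonempty (G.lineGraph.Coloring (Fin 3)) := ⟨c⟩
    exact Nat.card_pos
  have h3 : (0 : ℝ) < (Nat.card (G.lineGraph.Coloring (Fin 3)) : ℝ) := by exact_mod_cast h2
  nlinarith

/-- The estimate for a family of graphs which is not too small. -/
theorem main_family {n : ℕ} (hn : 1 ≤ n) (𝒜 : Finset (Finset (Fin n × Fin n))) {C : ℝ} {k : ℕ}
    (hP : 𝒜.Nonempty → (PP n : ℝ) ≤ C * (n : ℝ) ^ k * (4 / 3 : ℝ) ^ n * (𝒜.card : ℝ))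
    {ε : ℝ} (hε : 0 < ε) (ℬ : Finset (Finset (Fin n × Fin n))) (hℬ : ℬ ⊆ badS n ε)
    (hℬ' : ℬ ⊆ 𝒜) (hC : 0 < C) :
    (ℬ.card : ℝ) ≤ C * (n : ℝ) ^ k * (3 / 4 : ℝ) ^ n / ε ^ 2 * (𝒜.card : ℝ) := by
  rcases 𝒜.eq_empty_or_nonempty with hemp | hne
  · have : ℬ = ∅ := by rw [hemp] at hℬ'; exact subset_empty.mp hℬ'
    rw [this, hemp]; simp
  obtain ⟨m, rfl⟩ : ∃ m, n = m + 1 := ⟨n - 1, by omega⟩
  have h3 := card_badS_le m ε
  have h4 := hP hne
  have hle : (ℬ.card : ℝ) ≤ ((badS (m + 1) ε).card : ℝ) := by exact_mod_cast card_le_card hℬ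
  set N : ℝ := (𝒜.card : ℝ) with hN
  have hN0 : 0 ≤ N := by positivity
  set P : ℝ := ((m + 1 : ℕ) : ℝ) ^ k with hPd
  have hP0 : 0 ≤ P := by positivity
  have e1 : (4 / 3 : ℝ) ^ (m + 1) = (3 / 4 : ℝ) ^ (m + 1) * ((16 / 9 : ℝ) ^ m * (16 / 9)) := by
    rw [← pow_succ, ← mul_pow]; norm_num
  rw [e1] at h4
  have hq : (0 : ℝ) < (16 / 9 : ℝ) ^ m := by positivity
  have h5 : ((badS (m + 1) ε).card : ℝ) * ε ^ 2 * 9 * (16 / 9 : ℝ) ^ m ≤
      (C * P * (3 / 4 : ℝ) ^ (m + 1) * N * (16 / 9)) * (16 / 9 : ℝ) ^ m := by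
    calc ((badS (m + 1) ε).card : ℝ) * ε ^ 2 * 9 * (16 / 9 : ℝ) ^ m =
          ((badS (m + 1) ε).card : ℝ) * (ε ^ 2 * (9 * (16 / 9 : ℝ) ^ m)) := by ring
      _ ≤ (PP (m + 1) : ℝ) := h3
      _ ≤ _ := h4
      _ = _ := by ring
  have h6 := le_of_mul_le_mul_right h5 hq
  have hε2 : 0 < ε ^ 2 := by positivity
  have h7 : ((badS (m + 1) ε).card : ℝ) * ε ^ 2 ≤ C * P * (3 / 4 : ℝ) ^ (m + 1) * N := by
    have h8 : 0 ≤ C * P * (3 / 4 : ℝ) ^ (m + 1) * N := by positivity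
    nlinarith
  refine hle.trans ?_
  rw [div_mul_eq_mul_div, le_div_iff₀ hε2]
  exact h7

theorem gr_edgesOf {α : Type*} [Fintype α] {G : SimpleGraph (α ⊕ α)} (hG : IsCB G) :
    gr (edgesOf G) = G := by
  ext u v
  constructor
  · rintro ⟨i, j, h, ⟨rfl, rfl⟩ | ⟨rfl, rfl⟩⟩
    · exact (mem_edgesOf G i j).mp h
    · exact ((mem_edgesOf G i j).mp h).symm
  · intro h
    rcases u with i | i <;> rcases v with j | j
    · exact absurd h (hG.1 i j)
    · exact ⟨i, j, (mem_edgesOf G i j).mpr h, Or.inl ⟨rfl, rfl⟩⟩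
    · exact ⟨j, i, (mem_edgesOf G j i).mpr h.symm, Or.inr ⟨rfl, rfl⟩⟩
    · exact absurd h (hG.2.1 i j)

theorem card_isCB_girth (n g : ℕ) :
    Nat.card {G : SimpleGraph (Fin n ⊕ Fin n) // IsCB G ∧ (g : ℕ∞) ≤ G.egirth} =
      (cubsG (Fin n) g).card := by
  classical
  rw [← Fintype.card_coe, ← Nat.card_eq_fintype_card]
  apply Nat.card_eq_of_bijective
    (fun G : {G : SimpleGraph (Fin n ⊕ Fin n) // IsCB G ∧ (g : ℕ∞) ≤ G.egirth} =>
      (⟨edgesOf G.1, by
        simp only [cubsG, cubs, mem_filter, mem_univ, true_and]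
        exact ⟨isCub_edgesOf G.2.1, by rw [gr_edgesOf G.2.1]; exact G.2.2⟩⟩ :
          {F // F ∈ cubsG (Fin n) g}))
  constructor
  · intro G G' h
    exact Subtype.ext (edgesOf_inj G.2.1 G'.2.1 (congrArg Subtype.val h))
  · rintro ⟨F, hF⟩
    simp only [cubsG, cubs, mem_filter, mem_univ, true_and] at hF
    obtain ⟨G, hG, h⟩ := exists_graph (F := F) hF.1
    refine ⟨⟨G, hG, ?_⟩, Subtype.ext h⟩
    rw [← gr_edgesOf hG, h]
    exact hF.2

/-- The number of graphs of girth at least `g` is large compared with `PP n`, and positive for all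
large `n`. -/
theorem exists_PP_le_girth (g : ℕ) : ∃ (C : ℝ) (k : ℕ), 0 < C ∧
    (∀ n, 1 ≤ n → (cubsG (Fin n) g).Nonempty →
      (PP n : ℝ) ≤ C * (n : ℝ) ^ k * (4 / 3 : ℝ) ^ n * ((cubsG (Fin n) g).card : ℝ)) ∧
    ∃ n₀, ∀ n, n₀ ≤ n → (cubsG (Fin n) g).Nonempty := by
  classical
  -- we may assume that `1 ≤ g`
  wlog hg : 1 ≤ g generalizing g
  · have h0 : g = 0 := by omega
    subst h0
    have hsub : ∀ n, cubsG (Fin n) 0 = cubsG (Fin n) 1 := by
      intro n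
      unfold cubsG
      ext F
      simp only [mem_filter]
      refine and_congr_right fun _ => ⟨fun _ => ?_, fun _ => by simp⟩
      exact le_trans (by norm_num) (three_le_egirth (G := gr F))
    obtain ⟨C, k, h1, h2, h3⟩ := this 1 le_rfl
    refine ⟨C, k, h1, ?_, ?_⟩
    · intro n hn; rw [hsub]; exact h2 n hn
    · obtain ⟨n₀, h3⟩ := h3
      exact ⟨n₀, fun n hn => by rw [hsub]; exact h3 n hn⟩
  set c := 2 * 3 ^ (g + 1) with hc
  obtain ⟨m₀, hm₀, hne⟩ := exists_cubsG g (2 * c + 1)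
  have hrec : ∀ m, (cubsG (Fin m) g).card * (3 * m * (3 * m - c) * (3 * m - 2 * c)) ≤
      36 * (cubsG (Fin (m + 1)) g).card := by
    intro m
    have h1 := card_family (α := Fin m) (cubsG (Fin m) g) (cubsG (Option (Fin m)) g) (farT g)
      (3 * m * (3 * m - c) * (3 * m - 2 * c)) ?_ ?_ ?_ ?_ ?_
    · rwa [card_cubsG_congr (finSuccEquivLast (n := m)).symm] at h1
    · intro F hF
      simp only [cubsG, cubs, mem_filter, mem_univ, true_and] at hF
      exact hF.1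
    · intro F hF
      simp only [cubsG, cubs, mem_filter, mem_univ, true_and] at hF
      exact hF.1
    · intro F _
      unfold farT
      exact filter_subset _ _
    · intro F hF
      simp only [cubsG, cubs, mem_filter, mem_univ, true_and] at hF
      have := card_far_ge hg hF.1
      rwa [Fintype.card_fin] at this
    · intro F hF z hz
      simp only [cubsG, cubs, mem_filter, mem_univ, true_and] at hF ⊢
      simp only [farT, trip, mem_filter, mem_univ, true_and] at hz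
      exact ⟨ins_cub F z.1 z.2 hz.1.1.1 hz.1.1.2 hF.1 hz.1.2,
        egirth_ins hz.1.1.1 hz.1.1.2 hz.1.2 hF.2 hz.2⟩
  obtain ⟨C, k, hC, h⟩ := num_recG (fun m => (cubsG (Fin m) g).card) c m₀ (by omega) (by omega)
    hne.card_pos (fun m _ => hrec m)
  have hpos : ∀ n, m₀ ≤ n → (cubsG (Fin n) g).Nonempty := by
    intro n hn
    induction n, hn using Nat.le_induction with
    | base => exact hne
    | succ n hn ih =>
      have h1 := hrec n
      have h2 : 0 < (cubsG (Fin n) g).card * (3 * n * (3 * n - c) * (3 * n - 2 * c)) := by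
        have := ih.card_pos
        have h3 : 0 < 3 * n := by omega
        have h4 : 0 < 3 * n - c := by omega
        have h5 : 0 < 3 * n - 2 * c := by omega
        positivity
      rw [← card_pos]
      omega
  obtain ⟨B, hB⟩ : ∃ B : ℝ, ∀ n, n < m₀ → (PP n : ℝ) ≤ B := by
    refine ⟨∑ n ∈ range m₀, (PP n : ℝ), fun n hn => ?_⟩
    exact single_le_sum (f := fun n => (PP n : ℝ)) (fun i _ => by positivity) (mem_range.mpr hn)
  have hB0 : 0 ≤ B := by
    have := hB 0 (by omega)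
    exact le_trans (by positivity) this
  refine ⟨C + B, k, by linarith, fun n hn hne' => ?_, m₀, hpos⟩
  have h6 : (1 : ℝ) ≤ ((cubsG (Fin n) g).card : ℝ) := by exact_mod_cast hne'.card_pos
  have h7 : (1 : ℝ) ≤ (n : ℝ) ^ k := one_le_pow₀ (by exact_mod_cast hn)
  have h8 : (1 : ℝ) ≤ (4 / 3 : ℝ) ^ n := one_le_pow₀ (by norm_num)
  have h9 : (1 : ℝ) ≤ (n : ℝ) ^ k * (4 / 3 : ℝ) ^ n * ((cubsG (Fin n) g).card : ℝ) :=
    one_le_mul_of_one_le_of_one_le (one_le_mul_of_one_le_of_one_le h7 h8) h6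
  rcases lt_or_ge n m₀ with h10 | h10
  · refine (hB n h10).trans ?_
    nlinarith
  · refine (h n h10).trans ?_
    nlinarith

/-- The estimate for graphs of girth at least `g`. -/
theorem main_girth (g : ℕ) : ∃ (C : ℝ) (k : ℕ), 0 < C ∧
    (∀ n : ℕ, 1 ≤ n → ∀ ε : ℝ, 0 < ε →
      (Nat.card {G : SimpleGraph (Fin n ⊕ Fin n) // (IsCB G ∧ (g : ℕ∞) ≤ G.egirth) ∧
        BigClass ε G} : ℝ) ≤
      C * (n : ℝ) ^ k * (3 / 4 : ℝ) ^ n / ε ^ 2 *
        (Nat.card {G : SimpleGraph (Fin n ⊕ Fin n) // IsCB G ∧ (g : ℕ∞) ≤ G.egirth} : ℝ)) ∧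
    ∃ n₀, ∀ n, n₀ ≤ n →
      0 < Nat.card {G : SimpleGraph (Fin n ⊕ Fin n) // IsCB G ∧ (g : ℕ∞) ≤ G.egirth} := by
  classical
  obtain ⟨C, k, hC, h, n₀, hn₀⟩ := exists_PP_le_girth g
  refine ⟨C, k, hC, fun n hn ε hε => ?_, n₀, fun n hn => ?_⟩
  · rw [card_isCB_girth]
    have h2 : (Nat.card {G : SimpleGraph (Fin n ⊕ Fin n) // (IsCB G ∧ (g : ℕ∞) ≤ G.egirth) ∧
        BigClass ε G} : ℝ) ≤ ((badS n ε ∩ cubsG (Fin n) g).card : ℝ) := by
      have h1 : Nat.card {G : SimpleGraph (Fin n ⊕ Fin n) // (IsCB G ∧ (g : ℕ∞) ≤ G.egirth) ∧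
          BigClass ε G} ≤ (badS n ε ∩ cubsG (Fin n) g).card := by
        rw [← Fintype.card_coe, ← Nat.card_eq_fintype_card]
        apply Nat.card_le_card_of_injective (fun G => (⟨edgesOf G.1, by
          obtain ⟨c, hc⟩ := G.2.2
          refine mem_inter.mpr ⟨mem_badS_of_class hε G.2.1.1 hc, ?_⟩
          simp only [cubsG, cubs, mem_filter, mem_univ, true_and]
          exact ⟨isCub_edgesOf G.2.1.1, by rw [gr_edgesOf G.2.1.1]; exact G.2.1.2⟩⟩ :
            {F // F ∈ badS n ε ∩ cubsG (Fin n) g}))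
        intro G G' hGG
        exact Subtype.ext (edgesOf_inj G.2.1.1 G'.2.1.1 (congrArg Subtype.val hGG))
      exact_mod_cast h1
    refine h2.trans ?_
    exact main_family hn (cubsG (Fin n) g) (h n hn) hε _ inter_subset_left inter_subset_right hC
  · rw [card_isCB_girth]
    exact (hn₀ n hn).card_pos

end Pool.Agent.MP_7c0803
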