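import Pool.Agent.Lib_MP_7c0803_co.Defs

/-!
# Piece PER: elementary rules for permanents

* `per_equiv`: reindex the permutations by `σ ↦ e.trans (σ.trans f.symm)`.
* `per_option`: `Equiv.Perm.decomposeOption : Perm (Option α) ≃ Option α × Perm α`; `(o, τ)`
  corresponds to `swap none o * optionCongr τ`, which maps `none` to `o` and `some i` to
  `swap none o (some (τ i))`, i.e. to `some (τ i)` if `o = none` or `τ i ≠ k` (`o = some k`), and to
  `none` if `o = some k`, `τ i = k`.  Use `Fintype.prod_option`, `Fintype.sum_option`.
* `per_col_add`, `per_col_sum`: the column `k` is used exactly once by every permutation, at the row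
  `i = σ⁻¹ k`; split the product (`Finset.mul_prod_erase` or `Fintype.prod_eq_mul_prod_compl`).
-/

open Finset Equiv Equiv.Perm

namespace Pool.Agent.MP_7c0803

variable {α : Type*} [Fintype α] [DecidableEq α]

theorem per_equiv {β : Type*} [Fintype β] [DecidableEq β] (e f : α ≃ β) (A : β → β → ℕ) :
    per (fun i j => A (e i) (f j)) = per A := by
  unfold per
  refine Fintype.sum_equiv (Equiv.equivCongr e f) _ _ fun σ => ?_
  refine Fintype.prod_equiv e _ _ fun i => ?_
  simp

theorem per_option (A : Option α → Option α → ℕ) :
    per A = A none none * per (fun i j => A (some i) (some j)) +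
      ∑ k, A none (some k) *
        per (fun i j => if j = k then A (some i) none else A (some i) (some j)) := by
  unfold per
  rw [Fintype.sum_equiv (Equiv.Perm.decomposeOption (α := α)) _
    (fun p => ∏ i, A i (Equiv.Perm.decomposeOption.symm p i)) (fun σ => by simp),
    Fintype.sum_prod_type, Fintype.sum_option]
  congr 1
  · rw [Finset.mul_sum]
    refine Finset.sum_congr rfl fun τ _ => ?_
    rw [Fintype.prod_option]
    simp
  · refine Finset.sum_congr rfl fun k _ => ?_
    rw [Finset.mul_sum]
    refine Finset.sum_congr rfl fun τ _ => ?_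
    rw [Fintype.prod_option]
    congr 1
    refine Finset.prod_congr rfl fun i _ => ?_
    beta_reduce
    by_cases h : τ i = k
    · rw [if_pos h]
      simp [h]
    · rw [if_neg h]
      have h1 : swap (none : Option α) (some k) (some (τ i)) = some (τ i) :=
        swap_apply_of_ne_of_ne (by simp) (fun h' => h (Option.some_injective _ h'))
      have h2 : (Equiv.Perm.decomposeOption.symm (some k, τ)) (some i) =
          swap (none : Option α) (some k) (some (τ i)) := by simp
      rw [h2, h1]

/-- every permutation uses the column `k` once -/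
theorem PER_prod (A : α → α → ℕ) (k : α) (w : α → ℕ) (σ : Perm α) :
    ∏ i, (if σ i = k then w i else A i (σ i)) =
      w (σ.symm k) * ∏ i ∈ univ.erase (σ.symm k), A i (σ i) := by
  rw [← Finset.mul_prod_erase univ _ (mem_univ (σ.symm k))]
  congr 1
  · rw [if_pos (σ.apply_symm_apply k)]
  · refine Finset.prod_congr rfl fun i hi => ?_
    rw [if_neg]
    intro h
    apply (Finset.mem_erase.1 hi).1
    rw [← h, σ.symm_apply_apply]

theorem per_col_add (A : α → α → ℕ) (k : α) (u v : α → ℕ) :
    per (fun i j => if j = k then u i + v i else A i j) =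
      per (fun i j => if j = k then u i else A i j) +
        per (fun i j => if j = k then v i else A i j) := by
  unfold per
  rw [← Finset.sum_add_distrib]
  refine Finset.sum_congr rfl fun σ _ => ?_
  rw [PER_prod A k (fun i => u i + v i) σ, PER_prod A k u σ, PER_prod A k v σ, add_mul]

theorem per_col_sum {ι : Type*} (A : α → α → ℕ) (k : α) (s : Finset ι) (c : ι → ℕ)
    (u : ι → α → ℕ) :
    per (fun i j => if j = k then ∑ t ∈ s, c t * u t i else A i j) =
      ∑ t ∈ s, c t * per (fun i j => if j = k then u t i else A i j) := by
  unfold per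
  simp only [Finset.mul_sum]
  rw [Finset.sum_comm]
  refine Finset.sum_congr rfl fun σ _ => ?_
  rw [PER_prod A k (fun i => ∑ t ∈ s, c t * u t i) σ, Finset.sum_mul]
  refine Finset.sum_congr rfl fun t _ => ?_
  rw [PER_prod A k (u t) σ, mul_assoc]

end Pool.Agent.MP_7c0803
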