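import Pool.Agent.Lib_MP_7c0803_co.Defs

/-!
# Piece TYP: the generating function of the types of pairs of local colourings

Proof.  The summand is a product over `v : α` of
`C (sign (h v) * sign (g v)) * ∏ k, X (h v k, g v k)` (`Finset.univ_product_univ`,
`Finset.prod_product`), so the double sum is
`∏ v, ∑ s, ∑ t, C (sign s * sign t) * ∏ k, X (s k, t k)` (`Finset.prod_univ_sum` or
`Fintype.piFinset_univ`, or `Finset.sum_prod_piFinset`; combine `(h, g)` into one function
`α → Perm (Fin 3) × Perm (Fin 3)` with `Equiv.arrowProdEquivProdArrow`).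
For fixed `s` substitute `t = u * s` and reindex `k` by `s⁻¹`: the inner sum is
`∑ u, sign u * ∏ k, X (k, u k) = Del` (`Matrix.det_apply'`, `Matrix.det_transpose`), and there are
`3! = 6` permutations `s`.
-/

open Finset Equiv Equiv.Perm MvPolynomial

namespace Pool.Agent.MP_7c0803

variable {α : Type*} [Fintype α] [DecidableEq α]

theorem typ_inner (s : Perm (Fin 3)) :
    (∑ t : Perm (Fin 3), C (((sign s : ℤˣ) : ℤ) * ((sign t : ℤˣ) : ℤ)) * ∏ k, X (s k, t k) :
      MvPolynomial (Fin 3 × Fin 3) ℤ) = Del := by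
  have h1 : (Del : MvPolynomial (Fin 3 × Fin 3) ℤ) =
      ∑ u : Perm (Fin 3), C ((sign u : ℤˣ) : ℤ) * ∏ k, X (k, u k) := by
    unfold Del
    rw [← Matrix.det_transpose, Matrix.det_apply']
    refine sum_congr rfl fun u _ => ?_
    simp only [Matrix.transpose_apply, Matrix.of_apply]
    congr 1
  rw [h1, ← Equiv.sum_comp (Equiv.mulRight s)]
  refine sum_congr rfl fun u _ => ?_
  simp only [Equiv.coe_mulRight, Perm.sign_mul, Units.val_mul, Perm.mul_apply]
  have h2 : ((sign s : ℤˣ) : ℤ) * (((sign u : ℤˣ) : ℤ) * ((sign s : ℤˣ) : ℤ)) = ((sign u : ℤˣ) : ℤ) := by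
    rcases Int.units_eq_one_or (sign s) with h | h <;> rw [h] <;> simp
  rw [h2]
  congr 1
  exact Equiv.prod_comp s fun k => (X (k, u k) : MvPolynomial (Fin 3 × Fin 3) ℤ)

theorem type_sum :
    (∑ h : α → Perm (Fin 3), ∑ g : α → Perm (Fin 3),
      (C (ep h * ep g) * ∏ e : α × Fin 3, X (h e.1 e.2, g e.1 e.2) :
        MvPolynomial (Fin 3 × Fin 3) ℤ)) = (6 * Del) ^ Fintype.card α := by
  have h1 : ∀ h g : α → Perm (Fin 3),
      (C (ep h * ep g) * ∏ e : α × Fin 3, X (h e.1 e.2, g e.1 e.2) : MvPolynomial (Fin 3 × Fin 3) ℤ) =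
      ∏ v, (C (((sign (h v) : ℤˣ) : ℤ) * ((sign (g v) : ℤˣ) : ℤ)) * ∏ k, X (h v k, g v k)) := by
    intro h g
    rw [prod_mul_distrib, ← Fintype.prod_prod_type']
    congr 1
    unfold ep
    rw [← prod_mul_distrib, map_prod]
  simp only [h1]
  have h2 : ∀ h : α → Perm (Fin 3),
      (∑ g : α → Perm (Fin 3), ∏ v, (C (((sign (h v) : ℤˣ) : ℤ) * ((sign (g v) : ℤˣ) : ℤ)) *
        ∏ k, X (h v k, g v k)) : MvPolynomial (Fin 3 × Fin 3) ℤ) = Del ^ Fintype.card α := by
    intro h
    have h3 := Finset.prod_univ_sum (fun _ : α => (univ : Finset (Perm (Fin 3))))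
      (fun v t => (C (((sign (h v) : ℤˣ) : ℤ) * ((sign t : ℤˣ) : ℤ)) * ∏ k, X (h v k, t k) :
        MvPolynomial (Fin 3 × Fin 3) ℤ))
    rw [Fintype.piFinset_univ] at h3
    rw [← h3]
    simp only [typ_inner]
    rw [prod_const, card_univ]
  simp only [h2]
  rw [sum_const, card_univ, Fintype.card_fun, Fintype.card_perm, Fintype.card_fin, nsmul_eq_mul, mul_pow]
  congr 1
  push_cast
  norm_num [Nat.factorial]

end Pool.Agent.MP_7c0803
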