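import Pool.Agent.Lib_MP_7c0803_co.Cay
import Pool.Agent.Lib_MP_7c0803_co.BijCount
import Pool.Agent.Lib_MP_7c0803_co.TypeSum

/-!
# Piece SUM: second moment of the signed number of colourings of a configuration

Proof.  Expand `(Dc Φ) ^ 2` as a sum over `(h, h')` and `(g, g')` and exchange the sums:
`∑_Φ (Dc Φ)^2 = ∑_(h,g) ∑_(h',g') ep h ep g ep h' ep g' #{Φ | Cons Φ h h' ∧ Cons Φ g g'}`.
With `f e = (h e.1 e.2, g e.1 e.2)`, `f' e = (h' e.1 e.2, g' e.1 e.2)` the condition is
`∀ e, f' (Φ e) = f e`, so the number is `fct N` if `N = N'` and `0` otherwise (`card_perm_comp`),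
where `N c = #{e | f e = c}`, `N' c = #{e | f' e = c}` (exponents of the monomials
`∏ e, X (f e)`, `∏ e, X (f' e)`).
Let `Q = ∑_(h,g) C (ep h * ep g) * ∏ e, X (f e)`; its coefficient at `N` is
`q_N = ∑_((h,g) of type N) ep h ep g`, so the sum is `∑_N fct N * q_N ^ 2 = fis Q Q`.
By `type_sum`, `Q = (6 Del) ^ m`, `m = card α`, and
`fis ((6 Del) ^ m) ((6 Del) ^ m) = 36 ^ m fis (Del ^ m) (Del ^ m) = 36 ^ m PP m` (`fis_Del_pow`).
-/

open Finset Equiv Equiv.Perm

namespace Pool.Agent.MP_7c0803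

variable {α : Type*} [Fintype α] [DecidableEq α]

theorem sum_fis_ext (p : MvPolynomial (Fin 3 × Fin 3) ℤ) (S : Finset (Fin 3 × Fin 3 →₀ ℕ))
    (hS : p.support ⊆ S) : fis p p = ∑ m ∈ S, (fct m : ℤ) * (p.coeff m * p.coeff m) := by
  unfold fis
  refine sum_subset hS fun m _ hm => ?_
  rw [MvPolynomial.notMem_support_iff] at hm
  rw [hm, mul_zero, mul_zero]

theorem sum_fis_C (c : ℤ) (hc : c ≠ 0) (q : MvPolynomial (Fin 3 × Fin 3) ℤ) :
    fis (MvPolynomial.C c * q) (MvPolynomial.C c * q) = c ^ 2 * fis q q := by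
  have h1 : (MvPolynomial.C c * q).support ⊆ q.support := by
    intro m hm
    rw [MvPolynomial.mem_support_iff, MvPolynomial.coeff_C_mul] at hm
    rw [MvPolynomial.mem_support_iff]
    intro h
    rw [h, mul_zero] at hm
    exact hm rfl
  rw [sum_fis_ext _ _ h1, sum_fis_ext q q.support subset_rfl, mul_sum]
  refine sum_congr rfl fun m _ => ?_
  rw [MvPolynomial.coeff_C_mul]
  ring

theorem sum_Dc_sq :
    ∑ Φ : Perm (α × Fin 3), (Dc Φ) ^ 2 =
      (36 : ℤ) ^ Fintype.card α * (PP (Fintype.card α) : ℤ) := by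
  classical
  let F : (α → Perm (Fin 3)) × (α → Perm (Fin 3)) → α × Fin 3 → Fin 3 × Fin 3 :=
    fun p e => (p.1 e.1 e.2, p.2 e.1 e.2)
  let w : (α → Perm (Fin 3)) × (α → Perm (Fin 3)) → ℤ := fun p => ep p.1 * ep p.2
  let mon : (α → Perm (Fin 3)) × (α → Perm (Fin 3)) → (Fin 3 × Fin 3 →₀ ℕ) :=
    fun p => ∑ e, Finsupp.single (F p e) 1
  have hmon : ∀ p c, mon p c = (univ.filter fun e => F p e = c).card := by
    intro p c
    simp only [mon]
    rw [Finsupp.finsetSum_apply, card_filter]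
    refine sum_congr rfl fun e _ => ?_
    rw [Finsupp.single_apply]
  have hDc : ∀ Φ : Perm (α × Fin 3), (Dc Φ) ^ 2 =
      ∑ p, ∑ p', w p * w p' * (if (∀ e, F p' (Φ e) = F p e) then (1 : ℤ) else 0) := by
    intro Φ
    rw [sq, Dc, Finset.sum_mul_sum, Fintype.sum_prod_type]
    refine sum_congr rfl fun h _ => sum_congr rfl fun g _ => ?_
    rw [Finset.sum_mul_sum, Fintype.sum_prod_type]
    refine sum_congr rfl fun h' _ => sum_congr rfl fun g' _ => ?_
    have h3 : (∀ e, F (h', g') (Φ e) = F (h, g) e) ↔ Cons Φ h h' ∧ Cons Φ g g' := by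
      simp only [F, Prod.mk.injEq, forall_and, Cons]
    simp only [h3, w]
    by_cases h1 : Cons Φ h h' <;> by_cases h2 : Cons Φ g g' <;> simp only [h1, h2, if_true, if_false, and_true,
      and_false, mul_zero, zero_mul]
    ring
  have hkey : ∑ Φ : Perm (α × Fin 3), (Dc Φ) ^ 2 =
      ∑ p, ∑ p', w p * w p' * (if mon p = mon p' then (fct (mon p) : ℤ) else 0) := by
    simp only [hDc]
    rw [sum_comm]
    refine sum_congr rfl fun p _ => ?_
    rw [sum_comm]
    refine sum_congr rfl fun p' _ => ?_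
    rw [← mul_sum]
    congr 1
    rw [Finset.sum_boole, card_perm_comp (F p) (F p')]
    have h1 : (∀ c, (univ.filter fun e => F p e = c).card = (univ.filter fun e => F p' e = c).card) ↔
        mon p = mon p' := by
      rw [DFunLike.ext_iff]
      exact forall_congr' fun c => by rw [hmon, hmon]
    by_cases h2 : mon p = mon p'
    · rw [if_pos (h1.2 h2), if_pos h2]
      unfold fct
      simp only [hmon]
    · rw [if_neg (fun h => h2 (h1.1 h)), if_neg h2]
      rfl
  set Q : MvPolynomial (Fin 3 × Fin 3) ℤ := ∑ p, MvPolynomial.monomial (mon p) (w p) with hQ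
  have hcoeff : ∀ m, Q.coeff m = ∑ p, if mon p = m then w p else 0 := by
    intro m
    rw [hQ, MvPolynomial.coeff_sum]
    refine sum_congr rfl fun p _ => ?_
    rw [MvPolynomial.coeff_monomial]
  have hQs : Q.support ⊆ univ.image mon := by
    intro m hm
    rw [MvPolynomial.mem_support_iff, hcoeff] at hm
    obtain ⟨p, _, hp⟩ := exists_ne_zero_of_sum_ne_zero hm
    rw [mem_image]
    refine ⟨p, mem_univ _, ?_⟩
    by_contra h
    exact hp (if_neg h)
  have hfis : fis Q Q = ∑ p, ∑ p', w p * w p' * (if mon p = mon p' then (fct (mon p) : ℤ) else 0) := by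
    rw [sum_fis_ext Q _ hQs]
    have h1 : ∀ m ∈ univ.image mon, (fct m : ℤ) * (Q.coeff m * Q.coeff m) =
        ∑ p, ∑ p', if mon p = m then
          w p * w p' * (if mon p = mon p' then (fct (mon p) : ℤ) else 0) else 0 := by
      intro m _
      rw [hcoeff, Finset.sum_mul_sum, mul_sum]
      refine sum_congr rfl fun p _ => ?_
      rw [mul_sum]
      refine sum_congr rfl fun p' _ => ?_
      by_cases h2 : mon p = m
      · subst h2
        simp only [if_true]
        by_cases h3 : mon p' = mon p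
        · rw [if_pos h3, if_pos h3.symm]
          ring
        · rw [if_neg h3, if_neg (fun h => h3 h.symm)]
          ring
      · rw [if_neg h2, if_neg h2]
        ring
    rw [sum_congr rfl h1, sum_comm]
    refine sum_congr rfl fun p _ => ?_
    rw [sum_comm]
    refine sum_congr rfl fun p' _ => ?_
    rw [Finset.sum_ite_eq, if_pos (mem_image_of_mem _ (mem_univ _))]
  have hQ2 : Q = MvPolynomial.C ((6 : ℤ) ^ Fintype.card α) * Del ^ Fintype.card α := by
    rw [map_pow, ← mul_pow]
    have h1 : (MvPolynomial.C (6 : ℤ) : MvPolynomial (Fin 3 × Fin 3) ℤ) = 6 := by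
      simp
    rw [h1, ← type_sum (α := α), hQ, Fintype.sum_prod_type]
    refine sum_congr rfl fun h _ => sum_congr rfl fun g _ => ?_
    have h2 : (∏ e : α × Fin 3, MvPolynomial.X (h e.1 e.2, g e.1 e.2) : MvPolynomial (Fin 3 × Fin 3) ℤ) =
        MvPolynomial.monomial (mon (h, g)) 1 := by
      simp only [mon, F]
      rw [MvPolynomial.monomial_sum_one]
      rfl
    rw [h2, MvPolynomial.C_mul_monomial, mul_one]
  rw [hkey, ← hfis, hQ2, sum_fis_C _ (pow_ne_zero _ (by norm_num)), fis_Del_pow, ← pow_mul, mul_comm (Fintype.card α) 2,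
    pow_mul]
  norm_num

end Pool.Agent.MP_7c0803
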