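import Pool.Agent.Lib_MP_7c0803_co.Defs

/-!
# Piece TRA: colourings of a simple graph and of its configuration

Proof.  `F` has 3 edges at each row `i` and `j` runs over them as `(Φ (i, k)).1`, `k : Fin 3`; so
`k ↦ (Φ (i, k)).1` is injective for every `i`, and in the same way
`k ↦ (Φ⁻¹ (j, k)).1` is injective for every `j`.
To `p ∈ Col F` there corresponds exactly one pair `(h, h')` with `Cons Φ h h'`, and conversely:
`p (h i t) i = (Φ (i, t)).1` (the colour of the half-edge `(i, t)` is the colour of the edge).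
Given `(h, h')`, `p k i = (Φ (i, (h i)⁻¹ k)).1`; it is injective in `i` for fixed `k` because
`Φ (i, (h i)⁻¹ k) = (j, (h' j)⁻¹ k)` is determined by `j`.
Signs.  Let `T h : Perm (α × Fin 3)`, `(i, t) ↦ (i, h i t)` (`Equiv.prodCongrRight`-like, sign
`∏ i, sign (h i)`: `Equiv.Perm.sign_prodCongrRight`), and `Π p : (i, k) ↦ (p k i, k)` (sign `∏ k, sign (p k)`:
`Equiv.Perm.sign_prodCongrLeft`).  Then `T h' * Φ = Π p * T h`, so
`sign Φ * ep h * ep h' = sg p`, and summing over all colourings `Dc Φ = ± DD F`.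
-/

open Finset Equiv Equiv.Perm

namespace Pool.Agent.MP_7c0803

variable {α : Type*} [Fintype α] [DecidableEq α]

theorem TRA_card_image {F : Finset (α × α)} (hF : IsCub F) (i : α) (f : Fin 3 → α)
    (hf : ∀ j, (i, j) ∈ F ↔ ∃ k, f k = j) : Function.Injective f := by
  have h1 : (F.filter fun e => e.1 = i) = univ.image (fun k => (i, f k)) := by
    ext ⟨a, b⟩
    simp only [Finset.mem_filter, Finset.mem_image, Finset.mem_univ, true_and, Prod.mk.injEq]
    constructor
    · rintro ⟨hab, rfl⟩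
      obtain ⟨k, hk⟩ := (hf b).1 hab
      exact ⟨k, rfl, hk⟩
    · rintro ⟨k, rfl, hk⟩
      exact ⟨(hf b).2 ⟨k, hk⟩, rfl⟩
  have h2 : (univ.image (fun k => (i, f k))).card = (univ : Finset (Fin 3)).card := by
    rw [← h1, hF.1 i]
    simp
  have h3 := Finset.card_image_iff.1 h2
  intro a b hab
  exact h3 (Finset.mem_coe.2 (Finset.mem_univ a)) (Finset.mem_coe.2 (Finset.mem_univ b)) (by simp [hab])

theorem TRA_inj {Φ : Perm (α × Fin 3)} {h h' : α → Perm (Fin 3)} (hc : Cons Φ h h') (k : Fin 3) :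
    Function.Injective fun i => (Φ (i, (h i)⁻¹ k)).1 := by
  intro i i' hii
  have e1 : h' (Φ (i, (h i)⁻¹ k)).1 (Φ (i, (h i)⁻¹ k)).2 = k :=
    (hc (i, (h i)⁻¹ k)).trans ((h i).apply_symm_apply k)
  have e2 : h' (Φ (i', (h i')⁻¹ k)).1 (Φ (i', (h i')⁻¹ k)).2 = k :=
    (hc (i', (h i')⁻¹ k)).trans ((h i').apply_symm_apply k)
  simp only at hii
  have h3 : Φ (i, (h i)⁻¹ k) = Φ (i', (h i')⁻¹ k) := by
    refine Prod.ext hii ?_
    rw [← hii] at e2
    exact (h' _).injective (e1.trans e2.symm)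
  have h4 := Φ.injective h3
  exact (Prod.mk.inj h4).1

/-- the colour classes of a pair of colourings of half-edges -/
noncomputable def TRA_p {Φ : Perm (α × Fin 3)} {h h' : α → Perm (Fin 3)} (hc : Cons Φ h h')
    (k : Fin 3) : Perm α :=
  Equiv.ofBijective (fun i => (Φ (i, (h i)⁻¹ k)).1)
    ((Finite.injective_iff_bijective).1 (TRA_inj hc k))

theorem TRA_p_apply {Φ : Perm (α × Fin 3)} {h h' : α → Perm (Fin 3)} (hc : Cons Φ h h')
    (k : Fin 3) (i : α) : TRA_p hc k i = (Φ (i, (h i)⁻¹ k)).1 := rfl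

theorem TRA_p_apply' {Φ : Perm (α × Fin 3)} {h h' : α → Perm (Fin 3)} (hc : Cons Φ h h')
    (t : Fin 3) (i : α) : TRA_p hc (h i t) i = (Φ (i, t)).1 := by
  rw [TRA_p_apply]
  have : (h i)⁻¹ (h i t) = t := (h i).symm_apply_apply t
  rw [this]

theorem TRA_sign {Φ : Perm (α × Fin 3)} {h h' : α → Perm (Fin 3)} (hc : Cons Φ h h') :
    ep h * ep h' = (sign Φ : ℤ) * sg (TRA_p hc) := by
  have h1 : (Equiv.prodCongrRight h' : Perm (α × Fin 3)) * Φ =
      (Equiv.prodCongrLeft (TRA_p hc) : Perm (α × Fin 3)) * Equiv.prodCongrRight h := by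
    ext1 ⟨i, t⟩
    rw [Equiv.Perm.mul_apply, Equiv.Perm.mul_apply]
    have e := hc (i, t)
    simp only at e
    have h2 : (Equiv.prodCongrRight h : Perm (α × Fin 3)) (i, t) = (i, h i t) := rfl
    have h3 : (Equiv.prodCongrLeft (TRA_p hc) : Perm (α × Fin 3)) (i, h i t) =
        (TRA_p hc (h i t) i, h i t) := rfl
    rw [h2, h3, TRA_p_apply']
    have h4 : (Equiv.prodCongrRight h' : Perm (α × Fin 3)) (Φ (i, t)) =
        ((Φ (i, t)).1, h' (Φ (i, t)).1 (Φ (i, t)).2) := rfl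
    rw [h4, e]
  have h5 := congrArg sign h1
  rw [Equiv.Perm.sign_mul, Equiv.Perm.sign_mul, Equiv.Perm.sign_prodCongrRight,
    Equiv.Perm.sign_prodCongrLeft, Equiv.Perm.sign_prodCongrRight] at h5
  have e1 : ep h = ((∏ v, sign (h v) : ℤˣ) : ℤ) := by
    unfold ep; rw [Units.coe_prod]
  have e2 : ep h' = ((∏ v, sign (h' v) : ℤˣ) : ℤ) := by
    unfold ep; rw [Units.coe_prod]
  have e3 : sg (TRA_p hc) = ((∏ k, sign (TRA_p hc k) : ℤˣ) : ℤ) := by
    unfold sg; rw [Units.coe_prod]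
  rw [e1, e2, e3, ← Units.val_mul, ← Units.val_mul]
  congr 1
  generalize (∏ v, sign (h v) : ℤˣ) = a at h5 ⊢
  generalize (∏ v, sign (h' v) : ℤˣ) = b at h5 ⊢
  generalize (∏ k, sign (TRA_p hc k) : ℤˣ) = c at h5 ⊢
  generalize sign Φ = d at h5 ⊢
  have hd : d * d = 1 := Int.units_mul_self d
  have ha : a * a = 1 := Int.units_mul_self a
  calc a * b = a * (b * d) * d := by rw [mul_assoc, mul_assoc, hd, mul_one]
    _ = a * (c * a) * d := by rw [h5]
    _ = (a * a) * (d * c) := by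
        rw [mul_comm c a]
        simp only [mul_assoc]
        rw [mul_comm c d]
    _ = d * c := by rw [ha, one_mul]

theorem TRA_Dc {F : Finset (α × α)} (hF : IsCub F) {Φ : Perm (α × Fin 3)}
    (hΦ : ∀ i j, (i, j) ∈ F ↔ ∃ k, (Φ (i, k)).1 = j) : Dc Φ = (sign Φ : ℤ) * DD F := by
  have h0 : Dc Φ = ∑ x ∈ (univ : Finset ((α → Perm (Fin 3)) × (α → Perm (Fin 3)))).filter
      (fun x => Cons Φ x.1 x.2), ep x.1 * ep x.2 := by
    unfold Dc
    rw [Finset.sum_filter, ← Finset.univ_product_univ, Finset.sum_product]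
  rw [h0]
  unfold DD
  rw [Finset.mul_sum]
  have hrow : ∀ i : α, Function.Injective fun t : Fin 3 => (Φ (i, t)).1 := fun i =>
    TRA_card_image hF i _ (fun j => hΦ i j)
  refine Finset.sum_bij (fun x hx => TRA_p (Finset.mem_filter.1 hx).2) ?_ ?_ ?_ ?_
  · -- membership
    intro x hx
    have hc := (Finset.mem_filter.1 hx).2
    unfold Col
    rw [Finset.mem_filter]
    refine ⟨Finset.mem_univ _, fun i j => ?_⟩
    rw [hΦ]
    constructor
    · rintro ⟨t, ht⟩
      exact ⟨x.1 i t, (TRA_p_apply' hc t i).trans ht⟩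
    · rintro ⟨k, hk⟩
      exact ⟨(x.1 i)⁻¹ k, hk⟩
  · -- injectivity
    rintro ⟨h1, h1'⟩ hx ⟨h2, h2'⟩ hy heq
    have hc1 : Cons Φ h1 h1' := (Finset.mem_filter.1 hx).2
    have hc2 : Cons Φ h2 h2' := (Finset.mem_filter.1 hy).2
    have heq' : TRA_p hc1 = TRA_p hc2 := heq
    have e1 : h1 = h2 := by
      funext i
      ext1 t
      have ha := TRA_p_apply' hc1 t i
      have hb : TRA_p hc1 (h2 i t) i = (Φ (i, t)).1 := by
        rw [heq']
        exact TRA_p_apply' hc2 t i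
      -- injectivity of `k ↦ p k i`
      have hinj : Function.Injective fun k => TRA_p hc1 k i := by
        intro k k' hkk
        have : (fun t : Fin 3 => (Φ (i, t)).1) ((h1 i)⁻¹ k) =
            (fun t : Fin 3 => (Φ (i, t)).1) ((h1 i)⁻¹ k') := hkk
        exact (h1 i)⁻¹.injective (hrow i this)
      exact hinj (ha.trans hb.symm)
    subst e1
    have e2 : h1' = h2' := by
      funext j
      ext1 s
      have ha := hc1 (Φ.symm (j, s))
      have hb := hc2 (Φ.symm (j, s))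
      rw [Equiv.apply_symm_apply] at ha hb
      exact ha.trans hb.symm
    rw [e2]
  · -- surjectivity
    intro p hp
    have hp' := (Finset.mem_filter.1 hp).2
    have hex : ∀ i t, ∃ k, p k i = (Φ (i, t)).1 := fun i t =>
      (hp' i _).1 ((hΦ i _).2 ⟨t, rfl⟩)
    choose g hg using hex
    have hginj : ∀ i, Function.Injective (g i) := by
      intro i t t' htt
      apply hrow i
      simp only
      rw [← hg, ← hg, htt]
    let h : α → Perm (Fin 3) := fun i =>
      Equiv.ofBijective (g i) ((Finite.injective_iff_bijective).1 (hginj i))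
    have hh : ∀ i t, h i t = g i t := fun i t => rfl
    have hg' : ∀ e : α × Fin 3, p (g e.1 e.2) e.1 = (Φ e).1 := fun e => hg e.1 e.2
    have hinj' : ∀ j, Function.Injective fun s : Fin 3 =>
        g (Φ.symm (j, s)).1 (Φ.symm (j, s)).2 := by
      intro j s s' hss
      simp only at hss
      have ea := hg' (Φ.symm (j, s))
      have eb := hg' (Φ.symm (j, s'))
      rw [Equiv.apply_symm_apply] at ea eb
      rw [hss] at ea
      have e1 : (Φ.symm (j, s)).1 = (Φ.symm (j, s')).1 := (p _).injective (ea.trans eb.symm)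
      rw [e1] at hss
      have e2 := hginj _ hss
      have e3 : Φ.symm (j, s) = Φ.symm (j, s') := Prod.ext e1 e2
      have e4 := Φ.symm.injective e3
      exact (Prod.mk.inj e4).2
    let h' : α → Perm (Fin 3) := fun j =>
      Equiv.ofBijective (fun s : Fin 3 => g (Φ.symm (j, s)).1 (Φ.symm (j, s)).2)
        ((Finite.injective_iff_bijective).1 (hinj' j))
    have hc : Cons Φ h h' := by
      intro e
      have : h' (Φ e).1 (Φ e).2 = g (Φ.symm ((Φ e).1, (Φ e).2)).1 (Φ.symm ((Φ e).1, (Φ e).2)).2 := rfl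
      rw [this, Prod.mk.eta, Equiv.symm_apply_apply, hh]
    refine ⟨(h, h'), Finset.mem_filter.2 ⟨Finset.mem_univ _, hc⟩, ?_⟩
    funext k
    ext1 i
    have e1 : TRA_p hc k i = (Φ (i, (h i)⁻¹ k)).1 := rfl
    have e2 := hg i ((h i)⁻¹ k)
    have e3 : g i ((h i)⁻¹ k) = k := by
      rw [← hh]
      exact (h i).apply_symm_apply k
    rw [e3] at e2
    exact e1.trans e2.symm
  · intro x hx
    exact TRA_sign (Finset.mem_filter.1 hx).2

theorem Dc_sq_eq {F : Finset (α × α)} (hF : IsCub F) {Φ : Perm (α × Fin 3)}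
    (hΦ : ∀ i j, (i, j) ∈ F ↔ ∃ k, (Φ (i, k)).1 = j) : (Dc Φ) ^ 2 = (DD F) ^ 2 := by
  rw [TRA_Dc hF hΦ, mul_pow]
  have : ((sign Φ : ℤˣ) : ℤ) ^ 2 = 1 := by
    rw [← Units.val_pow_eq_pow_val, sq, Int.units_mul_self, Units.val_one]
  rw [this, one_mul]

end Pool.Agent.MP_7c0803
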