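import Pool.Agent.Lib_MP_7c0803_co.SumSq
import Pool.Agent.Lib_MP_7c0803_co.Label
import Pool.Agent.Lib_MP_7c0803_co.Transfer

/-!
# Piece TOG: every simple graph comes from `36 ^ m` configurations

Proof.  For `F ∈ cubs α` choose `Φ_F` by `exists_Phi`.  For `g g' : α → Perm (Fin 3)` let
`Φ_(F,g,g') = T g' * Φ_F * (T g)⁻¹`, `T g (i, t) = (i, g i t)`.  It satisfies the hypothesis of
`Dc_sq_eq` for `F`, so `(Dc Φ_(F,g,g'))^2 = (DD F)^2`.  The map `(F, g, g') ↦ Φ_(F,g,g')` is injective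
on `F ∈ cubs α`: `F` is recovered as `{(i, j) | ∃ k, (Φ (i, k)).1 = j}`; and if
`T g' Φ (T g)⁻¹ = T k' Φ (T k)⁻¹` for the same `Φ = Φ_F` then
`T (k'⁻¹ g') Φ = Φ T (k⁻¹ g)`; for `Φ (i, t) = (j, s)` the left side at `(i, t)` has the first
component `j`, the right side is `Φ (i, (k⁻¹ g) i t)`; since `t ↦ (Φ (i, t)).1` is injective
(3 edges of `F` at `i`), `(k⁻¹ g) i t = t`; so `g = k` and then `g' = k'`.
There are `6 ^ m * 6 ^ m = 36 ^ m` pairs `(g, g')`, and all the terms `(Dc Φ)^2` are `≥ 0`.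
`moment` follows from `sum_Dc_sq`.
-/

open Finset Equiv Equiv.Perm

namespace Pool.Agent.MP_7c0803

variable {α : Type*} [Fintype α] [DecidableEq α]

private theorem tog_inv_self {β : Type*} (e : Perm β) (b : β) : e⁻¹ (e b) = b :=
  Equiv.symm_apply_apply e b

/-- the action of local permutations on the half-edges -/
private def togT (g : α → Perm (Fin 3)) : Perm (α × Fin 3) := Equiv.prodCongrRight g

private theorem togT_apply (g : α → Perm (Fin 3)) (e : α × Fin 3) : togT g e = (e.1, g e.1 e.2) :=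
  rfl

private theorem togT_inv (g : α → Perm (Fin 3)) (i : α) (t : Fin 3) :
    (togT g)⁻¹ (i, t) = (i, (g i)⁻¹ t) := by
  rw [Equiv.Perm.inv_eq_iff_eq, togT_apply]
  simp

/-- the modified configuration -/
private def togP (Φ : Perm (α × Fin 3)) (x : (α → Perm (Fin 3)) × (α → Perm (Fin 3))) :
    Perm (α × Fin 3) := togT x.2 * Φ * (togT x.1)⁻¹

private theorem togP_apply (Φ : Perm (α × Fin 3)) (x : (α → Perm (Fin 3)) × (α → Perm (Fin 3)))
    (i : α) (t : Fin 3) : togP Φ x (i, t) = togT x.2 (Φ (i, (x.1 i)⁻¹ t)) := by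
  show togT x.2 (Φ ((togT x.1)⁻¹ (i, t))) = _
  rw [togT_inv]

private theorem togP_spec {F : Finset (α × α)} {Φ : Perm (α × Fin 3)}
    (hΦ : ∀ i j, (i, j) ∈ F ↔ ∃ k, (Φ (i, k)).1 = j)
    (x : (α → Perm (Fin 3)) × (α → Perm (Fin 3))) (i j : α) :
    (i, j) ∈ F ↔ ∃ k, (togP Φ x (i, k)).1 = j := by
  rw [hΦ]
  constructor
  · rintro ⟨k, hk⟩
    refine ⟨x.1 i k, ?_⟩
    rw [togP_apply, togT_apply, tog_inv_self]
    exact hk
  · rintro ⟨k, hk⟩
    rw [togP_apply, togT_apply] at hk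
    exact ⟨_, hk⟩

private theorem tog_inj_row {F : Finset (α × α)} (hF : IsCub F) {Φ : Perm (α × Fin 3)}
    (hΦ : ∀ i j, (i, j) ∈ F ↔ ∃ k, (Φ (i, k)).1 = j) (i : α) :
    Function.Injective fun t : Fin 3 => (Φ (i, t)).1 := by
  have h1 : (F.filter fun e => e.1 = i) =
      ((univ : Finset (Fin 3)).image fun t : Fin 3 => (Φ (i, t)).1).image fun j => (i, j) := by
    ext ⟨a, b⟩
    rw [mem_filter, mem_image]
    constructor
    · rintro ⟨h1, h2⟩
      change a = i at h2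
      subst h2
      obtain ⟨k, hk⟩ := (hΦ a b).1 h1
      exact ⟨b, mem_image.2 ⟨k, mem_univ _, hk⟩, rfl⟩
    · rintro ⟨j, hj, hab⟩
      obtain ⟨k, _, hk⟩ := mem_image.1 hj
      have h2 : i = a := congrArg Prod.fst hab
      have h3 : j = b := congrArg Prod.snd hab
      subst h2 h3
      exact ⟨(hΦ i j).2 ⟨k, hk⟩, rfl⟩
  have h2 := hF.1 i
  rw [h1] at h2
  have h3 : (((univ : Finset (Fin 3)).image fun t : Fin 3 => (Φ (i, t)).1).image
      fun j => (i, j)).card ≤ ((univ : Finset (Fin 3)).image fun t : Fin 3 => (Φ (i, t)).1).card :=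
    card_image_le
  have h4 : ((univ : Finset (Fin 3)).image fun t : Fin 3 => (Φ (i, t)).1).card ≤
      (univ : Finset (Fin 3)).card := card_image_le
  have h5 : (univ : Finset (Fin 3)).card = 3 := by simp
  have h6 : ((univ : Finset (Fin 3)).image fun t : Fin 3 => (Φ (i, t)).1).card =
      (univ : Finset (Fin 3)).card := by omega
  have h7 := Finset.card_image_iff.1 h6
  intro s t hst
  exact h7 (mem_coe.2 (mem_univ s)) (mem_coe.2 (mem_univ t)) hst

private theorem togP_inj {F : Finset (α × α)} (hF : IsCub F) {Φ : Perm (α × Fin 3)}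
    (hΦ : ∀ i j, (i, j) ∈ F ↔ ∃ k, (Φ (i, k)).1 = j)
    {x y : (α → Perm (Fin 3)) × (α → Perm (Fin 3))} (h : togP Φ x = togP Φ y) : x = y := by
  have h1 : ∀ i t, (togT x.2 (Φ (i, t))) = togT y.2 (Φ (i, (y.1 i)⁻¹ (x.1 i t))) := by
    intro i t
    have h2 := congrFun (congrArg DFunLike.coe h) (i, x.1 i t)
    rw [togP_apply, togP_apply, tog_inv_self] at h2
    exact h2
  have h2 : ∀ i t, x.1 i t = y.1 i t := by
    intro i t
    have h3 := congrArg Prod.fst (h1 i t)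
    rw [togT_apply, togT_apply] at h3
    have h4 : t = (y.1 i)⁻¹ (x.1 i t) := tog_inj_row hF hΦ i h3
    exact (Equiv.Perm.inv_eq_iff_eq.1 h4.symm)
  have hx : x.1 = y.1 := funext fun i => Equiv.ext fun t => h2 i t
  refine Prod.ext hx (funext fun j => Equiv.ext fun s => ?_)
  obtain ⟨⟨i, t⟩, hit⟩ := Φ.surjective (j, s)
  have h3 := h1 i t
  rw [hx, tog_inv_self, hit, togT_apply, togT_apply] at h3
  exact congrArg Prod.snd h3

theorem sum_DD_sq_le :
    (36 : ℤ) ^ Fintype.card α * ∑ F ∈ cubs α, (DD F) ^ 2 ≤ ∑ Φ : Perm (α × Fin 3), (Dc Φ) ^ 2 := by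
  classical
  obtain ⟨Φ, hΦ⟩ : ∃ Φ : Finset (α × α) → Perm (α × Fin 3), ∀ F, IsCub F →
      ∀ i j, (i, j) ∈ F ↔ ∃ k, (Φ F (i, k)).1 = j := by
    have h1 : ∀ F : Finset (α × α), ∃ Φ : Perm (α × Fin 3), IsCub F →
        ∀ i j, (i, j) ∈ F ↔ ∃ k, (Φ (i, k)).1 = j := by
      intro F
      by_cases hF : IsCub F
      · obtain ⟨Φ, h⟩ := exists_Phi hF
        exact ⟨Φ, fun _ => h⟩
      · exact ⟨1, fun h => absurd h hF⟩
    choose Φ hΦ using h1
    exact ⟨Φ, hΦ⟩
  have hcub : ∀ F ∈ cubs α, IsCub F := fun F hF => (mem_filter.1 hF).2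
  have hcard : (Finset.univ : Finset ((α → Perm (Fin 3)) × (α → Perm (Fin 3)))).card =
      36 ^ Fintype.card α := by
    rw [card_univ, Fintype.card_prod, Fintype.card_fun, Fintype.card_perm, Fintype.card_fin,
      ← mul_pow]
    rfl
  have h1 : (36 : ℤ) ^ Fintype.card α * ∑ F ∈ cubs α, (DD F) ^ 2 =
      ∑ z ∈ cubs α ×ˢ (Finset.univ : Finset ((α → Perm (Fin 3)) × (α → Perm (Fin 3)))),
        (Dc (togP (Φ z.1) z.2)) ^ 2 := by
    rw [Finset.sum_product, Finset.mul_sum]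
    refine Finset.sum_congr rfl fun F hF => ?_
    have h2 : ∀ x ∈ (Finset.univ : Finset ((α → Perm (Fin 3)) × (α → Perm (Fin 3)))),
        (Dc (togP (Φ F) x)) ^ 2 = (DD F) ^ 2 := fun x _ =>
      Dc_sq_eq (hcub F hF) (togP_spec (hΦ F (hcub F hF)) x)
    rw [Finset.sum_congr rfl h2, Finset.sum_const, hcard, nsmul_eq_mul]
    push_cast
    rfl
  have hinj : Set.InjOn (fun z : Finset (α × α) × ((α → Perm (Fin 3)) × (α → Perm (Fin 3))) =>
      togP (Φ z.1) z.2)
      ((cubs α ×ˢ (Finset.univ : Finset ((α → Perm (Fin 3)) × (α → Perm (Fin 3)))) :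
        Finset (Finset (α × α) × ((α → Perm (Fin 3)) × (α → Perm (Fin 3))))) : Set _) := by
    rintro ⟨F, x⟩ hF ⟨F', x'⟩ hF' h
    rw [mem_coe, mem_product] at hF hF'
    have hc := hcub F hF.1
    have hc' := hcub F' hF'.1
    have h' : togP (Φ F) x = togP (Φ F') x' := h
    have hFF : F = F' := by
      ext ⟨i, j⟩
      rw [togP_spec (hΦ F hc) x, togP_spec (hΦ F' hc') x', h']
    subst hFF
    rw [togP_inj hc (hΦ F hc) h']
  rw [h1, ← Finset.sum_image (f := fun Ψ : Perm (α × Fin 3) => (Dc Ψ) ^ 2) hinj]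
  exact Finset.sum_le_sum_of_subset_of_nonneg (Finset.subset_univ _) fun _ _ _ => sq_nonneg _

/-- Second moment of the signed number of 3-edge-colourings. -/
theorem moment : ∑ F ∈ cubs α, (DD F) ^ 2 ≤ (PP (Fintype.card α) : ℤ) := by
  have h := sum_DD_sq_le (α := α)
  rw [sum_Dc_sq] at h
  exact le_of_mul_le_mul_left h (by positivity)

end Pool.Agent.MP_7c0803
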